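import Pool.Agent.Helper83.PE.St

set_option autoImplicit false

open Set Filter Topology
open Helper85.HN (hen Orb Bd KK E0)

noncomputable section

namespace Helper83.PE

/-- The statement of the result file. -/
def StMain : Prop :=
    (∀ c : ℝ, ((1, c) ∈ E0 ↔ 1 ≤ c) ∧ (c < 1 → (1, c) ∈ interior E0ᶜ) ∧ ((1, c) ∈ frontier E0 ↔ c = 1)) ∧
    ¬IsPreconnected (frontier E0 \ {(1, 1)}) ∧
    (∃ a ε0 : ℝ, 0 < a ∧ 0 < ε0 ∧ ∀ ε ∈ Ioo 0 ε0, ∃ b1 b2 : ℝ, b1 < 1 ∧ 1 < b2 ∧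
      (b1, 1 - ε) ∈ frontier E0 ∧ (b2, 1 - ε) ∈ frontier E0 ∧
      1 - b1 ≤ Real.exp (-(a / ε ^ (1 / 4 : ℝ))) ∧ b2 - 1 ≤ Real.exp (-(a / ε ^ (1 / 4 : ℝ)))) ∧
    ¬C1At (frontier E0) (1, 1)

theorem asm (h1 : StFin) (h2 : Helper85.HN.StTop) : StMain := by
  obtain ⟨hA, hB, hC, hD⟩ := h1
  obtain ⟨hT1, hT2, -⟩ := h2
  have hint : ∀ c : ℝ, c < 1 → ((1 : ℝ), c) ∉ closure E0 := fun c hc h => by
    have := hA c hc
    rw [interior_compl] at this
    exact this h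
  have hfr : ∀ c : ℝ, ((1 : ℝ), c) ∈ frontier E0 ↔ c = 1 := by
    intro c
    constructor
    · intro h
      have h3 := (hT1 _ h).1
      norm_num at h3
      rcases lt_or_eq_of_le h3 with hlt | heq
      · exact absurd (frontier_subset_closure h) (hint c hlt)
      · exact heq
    · rintro rfl
      exact hB
  refine ⟨fun c => ⟨⟨fun h => ?_, fun h => ?_⟩, hA c, hfr c⟩, ?_, hC, hD⟩
  · by_contra hc
    push Not at hc
    exact hint c hc (subset_closure h)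
  · exact hT2 (1, c) (by norm_num; exact h)
  · intro hpre
    obtain ⟨a, ε0, ha, hε0, h⟩ := hC
    obtain ⟨b1, b2, hb1, hb2, hf1, hf2, -, -⟩ := h (ε0 / 2) ⟨by linarith, by linarith⟩
    have hU : IsOpen {p : ℝ × ℝ | p.1 < 1} := isOpen_lt continuous_fst continuous_const
    have hV : IsOpen {p : ℝ × ℝ | 1 < p.1} := isOpen_lt continuous_const continuous_fst
    obtain ⟨z, hz1, hz2, hz3⟩ := hpre _ _ hU hV (by
      rintro ⟨b, c⟩ ⟨hz, hz'⟩
      rcases lt_trichotomy b 1 with hb | hb | hb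
      · exact Or.inl hb
      · subst hb
        exact absurd (by rw [(hfr c).1 hz]; rfl) hz'
      · exact Or.inr hb) ⟨(b1, 1 - ε0 / 2), ⟨hf1, by
        simp only [mem_singleton_iff, Prod.mk.injEq, not_and]
        intro h; exact absurd h (ne_of_lt hb1)⟩, hb1⟩ ⟨(b2, 1 - ε0 / 2), ⟨hf2, by
        simp only [mem_singleton_iff, Prod.mk.injEq, not_and]
        intro h; exact absurd h (ne_of_gt hb2)⟩, hb2⟩
    exact absurd (lt_trans (show z.1 < 1 from hz2) (show 1 < z.1 from hz3)) (lt_irrefl _)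

end Helper83.PE
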