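import Pool.Agent.Helper83.PE.St

/-!
# Project PE, module Bi

Bounded full orbits with prescribed itineraries (compactness).
-/

set_option autoImplicit false

open Set Filter Topology
open Helper85.HN (hen Orb Bd KK E0)

noncomputable section

namespace Helper83.PE

/-- the Henon map as a permutation of the plane -/
private def e_Bi (b c : ℝ) (hb : b ≠ 0) : Equiv.Perm (ℝ × ℝ) where
  toFun := hen b c
  invFun := fun p => (p.2, (p.2 ^ 2 + c - p.1) / b)
  left_inv := by
    intro p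
    unfold hen
    ext
    · rfl
    · simp only
      field_simp
      ring
  right_inv := by
    intro p
    unfold hen
    ext
    · simp only
      field_simp
      ring
    · rfl

private lemma cont_hen_Bi (b c : ℝ) : Continuous (hen b c) := by
  unfold hen
  fun_prop

private lemma cont_zpow_Bi (b c : ℝ) (hb : b ≠ 0) (m : ℤ) :
    Continuous ((e_Bi b c hb ^ m : Equiv.Perm (ℝ × ℝ)) : ℝ × ℝ → ℝ × ℝ) := by
  cases m with
  | ofNat n =>
    rw [Int.ofNat_eq_natCast, zpow_natCast, ← Equiv.Perm.iterate_eq_pow]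
    exact (cont_hen_Bi b c).iterate n
  | negSucc n =>
    rw [zpow_negSucc, ← inv_pow, ← Equiv.Perm.iterate_eq_pow]
    have h : Continuous (((e_Bi b c hb)⁻¹ : Equiv.Perm (ℝ × ℝ)) : ℝ × ℝ → ℝ × ℝ) := by
      change Continuous (fun p : ℝ × ℝ => (p.2, (p.2 ^ 2 + c - p.1) / b))
      fun_prop
    exact h.iterate _

theorem hBi : StBi := by
  intro b c D E m1 m2 hb hm1 hD hE hyp w k
  set e := e_Bi b c hb with he
  have hT1 : 1 ≤ m1 + m2 := by omega
  generalize m1 + m2 = T at hyp hT1 ⊢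
  have hpow : ∀ (n : ℕ) (p : ℝ × ℝ), (hen b c)^[n] p = (e ^ n) p := fun n p => by
    rw [← Equiv.Perm.iterate_eq_pow]; rfl
  have h1 : ∀ n : ℕ, ∃ y : ℝ × ℝ, (∀ j : ℤ, -(n : ℤ) ≤ j → j ≤ n → (e ^ (j * (T : ℤ))) y ∈ D) ∧
      ∀ j < k, (e ^ ((j * T + m1 : ℕ) : ℤ)) y ∈ (if w j = true then D else E) := by
    intro n
    obtain ⟨z, hz, hz1, hz2⟩ := hyp (fun j => w (j - n)) (2 * n + k)
    refine ⟨(e ^ ((n * T : ℕ) : ℤ)) z, ?_, ?_⟩
    · intro j hj1 hj2
      obtain ⟨i, hi⟩ := Int.eq_ofNat_of_zero_le (show 0 ≤ j + n by omega)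
      have h := hz1 i (by omega)
      rw [hpow] at h
      rw [← Equiv.Perm.mul_apply, ← zpow_add]
      have h2 : j * (T : ℤ) + ((n * T : ℕ) : ℤ) = ((i * T : ℕ) : ℤ) := by
        push_cast
        rw [← hi]
        ring
      rw [h2, zpow_natCast]
      exact h
    · intro j hj
      have h := hz2 (j + n) (by omega)
      rw [hpow] at h
      simp only [Nat.add_sub_cancel] at h
      rw [← Equiv.Perm.mul_apply, ← zpow_add]
      have h2 : ((j * T + m1 : ℕ) : ℤ) + ((n * T : ℕ) : ℤ) = (((j + n) * T + m1 : ℕ) : ℤ) := by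
        push_cast
        ring
      rw [h2, zpow_natCast]
      exact h
  choose y hy1 hy2 using h1
  have hy0 : ∀ n, y n ∈ D := fun n => by
    have h := hy1 n 0 (by omega) (by omega)
    simpa using h
  obtain ⟨x0, hx0, φ, hφ, hlim⟩ := hD.tendsto_subseq hy0
  have hDc : IsClosed D := hD.isClosed
  have hfull : ∀ j : ℤ, (e ^ (j * (T : ℤ))) x0 ∈ D := by
    intro j
    have hc := ((cont_zpow_Bi b c hb (j * (T : ℤ))).tendsto x0).comp hlim
    refine hDc.mem_of_tendsto hc ?_
    filter_upwards [eventually_ge_atTop j.natAbs] with n hn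
    have h2 : n ≤ φ n := hφ.le_apply
    exact hy1 (φ n) j (by omega) (by omega)
  have hit : ∀ j < k, (hen b c)^[j * T + m1] x0 ∈ (if w j = true then D else E) := by
    intro j hj
    have hc := ((cont_zpow_Bi b c hb ((j * T + m1 : ℕ) : ℤ)).tendsto x0).comp hlim
    have hcl : IsClosed (if w j = true then D else E) := by
      split_ifs
      exacts [hDc, hE.isClosed]
    have h := hcl.mem_of_tendsto hc (Eventually.of_forall fun n => hy2 (φ n) j hj)
    rw [hpow]
    rwa [zpow_natCast] at h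
  refine ⟨x0, ⟨fun n => ((e ^ n) x0).1, ?_, ?_, ?_, ?_⟩, hit⟩
  · intro n
    have h2 : (e ^ (n + 1)) x0 = hen b c ((e ^ n) x0) := by
      rw [add_comm, zpow_add, zpow_one, Equiv.Perm.mul_apply]
      rfl
    have h3 : (e ^ n) x0 = hen b c ((e ^ (n - 1)) x0) := by
      have h4 : n = 1 + (n - 1) := by ring
      conv_lhs => rw [h4, zpow_add, zpow_one, Equiv.Perm.mul_apply]
      rfl
    have h5 : ((e ^ n) x0).2 = ((e ^ (n - 1)) x0).1 := by
      rw [h3]
      rfl
    change ((e ^ (n + 1)) x0).1 = ((e ^ n) x0).1 ^ 2 + c - b * ((e ^ (n - 1)) x0).1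
    rw [h2, ← h5]
    rfl
  · have hK : IsCompact (⋃ i ∈ Finset.range T, (fun p => ((e ^ ((i : ℕ) : ℤ)) p).1) '' D) := by
      refine (Finset.range T).isCompact_biUnion (fun i _ => hD.image ?_)
      exact continuous_fst.comp (cont_zpow_Bi b c hb _)
    obtain ⟨M, hM⟩ := isBounded_iff_forall_norm_le.1 hK.isBounded
    refine ⟨M, fun n => ?_⟩
    have hTpos : (0 : ℤ) < T := by exact_mod_cast hT1
    have h0 := Int.emod_nonneg n hTpos.ne'
    have h1 := Int.emod_lt_of_pos n hTpos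
    obtain ⟨i, hi⟩ := Int.eq_ofNat_of_zero_le h0
    refine hM _ ?_
    rw [mem_iUnion₂]
    refine ⟨i, Finset.mem_range.2 (by omega), (e ^ (n / T * T)) x0, hfull _, ?_⟩
    change ((e ^ (i : ℤ)) ((e ^ (n / T * T)) x0)).1 = ((e ^ n) x0).1
    rw [← Equiv.Perm.mul_apply, ← zpow_add]
    have h2 : (i : ℤ) + n / T * T = n := by
      have h3 := Int.emod_add_mul_ediv n T
      rw [hi] at h3
      linarith [mul_comm (T : ℤ) (n / T)]
    rw [h2]
  · simp
  · change ((e ^ (-1 : ℤ)) x0).1 = x0.2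
    rw [zpow_neg_one]
    rfl

end Helper83.PE
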