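import Pool.Agent.Helper83.PE.St

/-! # MP_b39980_an, project PE: module Box -/

set_option autoImplicit false

open Set Filter Topology

namespace Helper83.PE

private lemma fac_Box {lam : ℝ} (h : 1 < lam) : 0 < 1 - (lam⁻¹) ^ 2 := by
  have h1 : lam⁻¹ < 1 := inv_lt_one_of_one_lt₀ h
  have h2 : 0 < lam⁻¹ := by positivity
  nlinarith

private lemma x_Box {lam : ℝ} (h : 1 < lam) (z : ℝ × ℝ) :
    z.1 - pp lam = -(xi lam z + et lam z / lam) := by
  have h0 : lam ≠ 0 := by linarith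
  have h1 : 1 - (lam⁻¹) ^ 2 ≠ 0 := (fac_Box h).ne'
  have h2 : lam ^ 2 - 1 ≠ 0 := by nlinarith
  unfold xi et
  rw [inv_eq_one_div] at h1 ⊢
  field_simp
  ring

private lemma y_Box {lam : ℝ} (h : 1 < lam) (z : ℝ × ℝ) :
    z.2 - pp lam = -(xi lam z / lam + et lam z) := by
  have h0 : lam ≠ 0 := by linarith
  have h1 : 1 - (lam⁻¹) ^ 2 ≠ 0 := (fac_Box h).ne'
  have h2 : lam ^ 2 - 1 ≠ 0 := by nlinarith
  unfold xi et
  rw [inv_eq_one_div] at h1 ⊢
  field_simp
  ring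

private lemma ext_Box {lam : ℝ} (h : 1 < lam) {z z' : ℝ × ℝ} (h1 : xi lam z = xi lam z')
    (h2 : et lam z = et lam z') : z = z' := by
  have a1 := x_Box h z
  have a2 := x_Box h z'
  have b1 := y_Box h z
  have b2 := y_Box h z'
  rw [h1, h2] at a1 b1
  exact Prod.ext (by linarith) (by linarith)

private lemma pp_Box {lam : ℝ} : 2 * pp lam = lam + 1 / lam := by
  unfold pp
  rw [inv_eq_one_div]
  ring

private lemma xiff_Box {lam : ℝ} (h : 1 < lam) (z : ℝ × ℝ) :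
    xi lam (ff lam z) = lam * xi lam z - (z.1 - pp lam) ^ 2 / (1 - (lam⁻¹) ^ 2) := by
  have h0 : lam ≠ 0 := by linarith
  have h3 := @pp_Box lam
  unfold xi ff cc Helper85.HN.hen
  simp only
  rw [← mul_div_assoc, ← sub_div]
  congr 1
  have h4 : lam * -(z.1 - pp lam - (z.2 - pp lam) / lam) = -(lam * (z.1 - pp lam)) + (z.2 - pp lam) := by
    field_simp
    ring
  rw [h4]
  have h5 : (z.1 - pp lam) / lam = (z.1 - pp lam) * (1 / lam) := by ring
  have h6 : 1 / lam = 2 * pp lam - lam := by linarith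
  rw [h5, h6]
  ring

private lemma etff_Box {lam : ℝ} (h : 1 < lam) (z : ℝ × ℝ) :
    et lam (ff lam z) = et lam z / lam + (z.1 - pp lam) ^ 2 / (1 - (lam⁻¹) ^ 2) / lam := by
  have h0 : lam ≠ 0 := by linarith
  have h3 := @pp_Box lam
  unfold et ff cc Helper85.HN.hen
  simp only
  rw [← add_div, ← add_div, div_right_comm]
  congr 1
  have h6 : (z.1 ^ 2 + (2 * pp lam - pp lam ^ 2) - 1 * z.2 - pp lam) / lam =
    ((z.1 - pp lam) ^ 2 - (z.2 - pp lam)) / lam + (z.1 - pp lam) * (1 + 1 / lam * (1 / lam)) := by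
    have h7 : z.1 ^ 2 + (2 * pp lam - pp lam ^ 2) - 1 * z.2 - pp lam =
      ((z.1 - pp lam) ^ 2 - (z.2 - pp lam)) + (z.1 - pp lam) * (2 * pp lam) := by ring
    rw [h7, h3]
    field_simp
  rw [h6]
  field_simp
  ring

private noncomputable def Psi_Box (lam : ℝ) (q : ℝ × ℝ) : ℝ × ℝ :=
  (pp lam - q.1 - q.2 / lam, pp lam - q.1 / lam - q.2)

private lemma xiPsi_Box {lam : ℝ} (h : 1 < lam) (q : ℝ × ℝ) : xi lam (Psi_Box lam q) = q.1 := by
  have h1 : 1 - (lam⁻¹) ^ 2 ≠ 0 := (fac_Box h).ne'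
  have h0 : lam ≠ 0 := by linarith
  unfold xi Psi_Box
  simp only
  rw [div_eq_iff h1]
  field_simp
  ring

private lemma etPsi_Box {lam : ℝ} (h : 1 < lam) (q : ℝ × ℝ) : et lam (Psi_Box lam q) = q.2 := by
  have h1 : 1 - (lam⁻¹) ^ 2 ≠ 0 := (fac_Box h).ne'
  have h0 : lam ≠ 0 := by linarith
  unfold et Psi_Box
  simp only
  rw [div_eq_iff h1]
  field_simp
  ring

private lemma contxi_Box (lam : ℝ) : Continuous (xi lam) := by
  unfold xi; fun_prop

private lemma contet_Box (lam : ℝ) : Continuous (et lam) := by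
  unfold et; fun_prop

private lemma contPsi_Box (lam : ℝ) : Continuous (Psi_Box lam) := by
  unfold Psi_Box; fun_prop

private lemma xiWs_Box (lam : ℝ) (φ : ℂ → ℂ) (t : ℝ) : xi lam (Ws lam φ t) = et lam (Wu lam φ t) := by
  unfold xi et Ws Wu; rfl

private lemma etWs_Box (lam : ℝ) (φ : ℂ → ℂ) (t : ℝ) : et lam (Ws lam φ t) = xi lam (Wu lam φ t) := by
  unfold xi et Ws Wu; rfl

private lemma contWu_Box {lam : ℝ} {φ : ℂ → ℂ} (hφ : UPar lam φ) : Continuous (Wu lam φ) := by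
  have h1 : Continuous φ := hφ.1.continuous
  unfold Wu vv
  fun_prop

private lemma Wu0_Box {lam : ℝ} {φ : ℂ → ℂ} (hφ : UPar lam φ) : Wu lam φ 0 = (pp lam, pp lam) := by
  unfold Wu vv
  simp [hφ.2.1]

private lemma xiWu0_Box {lam : ℝ} {φ : ℂ → ℂ} (hφ : UPar lam φ) : xi lam (Wu lam φ 0) = 0 := by
  rw [Wu0_Box hφ]; simp [xi]

private lemma etWu0_Box {lam : ℝ} {φ : ℂ → ℂ} (hφ : UPar lam φ) : et lam (Wu lam φ 0) = 0 := by
  rw [Wu0_Box hφ]; simp [et]

/-- `w` is `1/4`-Lipschitz near `0`. -/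
private lemma lip_Box {lam : ℝ} {φ : ℂ → ℂ} {w : ℝ → ℝ} {ρ ρ' t0 : ℝ} (hG : Gr lam φ w ρ ρ' t0) :
    ∃ δ > 0, ∀ x y : ℝ, |x| < δ → |y| < δ → |w x - w y| ≤ 1 / 4 * |x - y| := by
  have hρ : 0 < ρ := lt_of_lt_of_le hG.hρ hG.hρ'
  have h1 : HasStrictDerivAt w 0 0 := by
    have h := (hG.cd 0 ⟨by linarith, hρ⟩).hasStrictDerivAt (by norm_num)
    rwa [hG.dw0] at h
  obtain ⟨s, hs, hL⟩ := h1.hasStrictFDerivAt.exists_lipschitzOnWith_of_nnnorm_lt (1 / 4) (by simp)
  obtain ⟨δ, hδ, hb⟩ := Metric.mem_nhds_iff.1 hs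
  refine ⟨δ, hδ, fun x y hx hy => ?_⟩
  have h2 := hL.dist_le_mul x (hb (by simpa [Real.dist_eq] using hx)) y (hb (by simpa [Real.dist_eq] using hy))
  simpa [Real.dist_eq] using h2

theorem hBox (h1 : StGra) (h2 : StBoxX) (h3 : StBoxY) : StBox := by
  intro lam φ hlam hφ
  obtain ⟨w, ρ, ρ', t0', hG⟩ := h1 lam φ hlam hφ
  have hρ' := hG.hρ
  have hρρ := hG.hρ'
  have hlam0 : 0 < lam := by linarith
  -- constants
  obtain ⟨l, hl⟩ : ∃ l, l = (1 + lam) / 2 := ⟨_, rfl⟩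
  have hl1 : 1 < l := by rw [hl]; linarith
  have hllam : l < lam := by rw [hl]; linarith
  have hinv : 1 / lam < 1 / l := one_div_lt_one_div_of_lt (by linarith) hllam
  obtain ⟨e, he⟩ : ∃ e, e = min ((lam - 1) / 2) (1 / l - 1 / lam) := ⟨_, rfl⟩
  have he0 : 0 < e := by rw [he]; exact lt_min (by linarith) (by linarith)
  have he1 : e ≤ (lam - 1) / 2 := by rw [he]; exact min_le_left _ _
  have he2 : e ≤ 1 / l - 1 / lam := by rw [he]; exact min_le_right _ _
  obtain ⟨L, hL⟩ : ∃ L, L = lam + e := ⟨_, rfl⟩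
  have hL1 : 1 < L := by rw [hL]; linarith
  obtain ⟨δ1, hδ1, hX⟩ := h2 lam φ w ρ ρ' t0' hlam hφ hG e he0
  obtain ⟨δ2, hδ2, hY⟩ := h3 lam φ w ρ ρ' t0' hlam hφ hG e he0
  obtain ⟨δ3, hδ3, hLip⟩ := lip_Box hG
  obtain ⟨δ, hδ0, hdδ1, hdδ2, hdδ3, hdρ⟩ : ∃ δ > 0, δ ≤ δ1 ∧ δ ≤ δ2 ∧ δ ≤ δ3 ∧ δ ≤ ρ' :=
    ⟨min (min δ1 δ2) (min δ3 ρ'), by simp [hδ1, hδ2, hδ3, hρ'],
      (min_le_left _ _).trans (min_le_left _ _), (min_le_left _ _).trans (min_le_right _ _),
      (min_le_right _ _).trans (min_le_left _ _), (min_le_right _ _).trans (min_le_right _ _)⟩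
  have hw : ∀ x y : ℝ, |x| < δ → |y| < δ → |w x - w y| ≤ 1 / 4 * |x - y| :=
    fun x y hx hy => hLip x y (by linarith) (by linarith)
  have hw0 : ∀ x : ℝ, |x| < δ → |w x| ≤ 1 / 4 * |x| := by
    intro x hx
    have h := hw x 0 hx (by simpa using hδ0)
    rwa [hG.w0, sub_zero, sub_zero] at h
  obtain ⟨κ, hκ⟩ : ∃ κ, κ = 1 / (1 - (lam⁻¹) ^ 2) := ⟨_, rfl⟩
  have hκ0 : 0 < κ := by rw [hκ]; exact one_div_pos.2 (fac_Box hlam)
  obtain ⟨N, hN⟩ : ∃ N : Set (ℝ × ℝ), N = {z | |xi lam z| < δ ∧ |et lam z| < δ} := ⟨_, rfl⟩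
  have hNm : ∀ z, z ∈ N ↔ |xi lam z| < δ ∧ |et lam z| < δ := fun z => by rw [hN]; rfl
  have hNopen : IsOpen N := by
    rw [hN]
    exact (isOpen_lt (contxi_Box lam).abs continuous_const).inter
      (isOpen_lt (contet_Box lam).abs continuous_const)
  have hwc : ∀ x : ℝ, |x| < δ → ContDiffAt ℝ 1 w x := by
    intro x hx
    apply hG.cd x
    rw [abs_lt] at hx
    exact ⟨by linarith, by linarith⟩
  -- small r
  obtain ⟨r, hr0, hrd, hrd2⟩ : ∃ r : ℝ, 0 < r ∧ 4 / 3 * r < δ ∧ lam * (4 / 3 * r) + κ * (8 / 3 * r) ^ 2 < δ := by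
    refine ⟨min 1 (δ / (2 * (2 * lam + 8 * κ))), by positivity, ?_, ?_⟩
    · have hh : min 1 (δ / (2 * (2 * lam + 8 * κ))) ≤ δ / (2 * (2 * lam + 8 * κ)) := min_le_right _ _
      have hh2 : δ / (2 * (2 * lam + 8 * κ)) * (4 / 3) < δ := by
        rw [div_mul_eq_mul_div, div_lt_iff₀ (by positivity)]
        nlinarith [mul_pos hδ0 hκ0, mul_pos hδ0 (sub_pos.2 hlam)]
      linarith
    · obtain ⟨s, hs⟩ : ∃ s, s = min 1 (δ / (2 * (2 * lam + 8 * κ))) := ⟨_, rfl⟩
      rw [← hs]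
      have hs1 : s ≤ 1 := by rw [hs]; exact min_le_left _ _
      have hs2 : s ≤ δ / (2 * (2 * lam + 8 * κ)) := by rw [hs]; exact min_le_right _ _
      have hs0 : 0 < s := by rw [hs]; positivity
      rw [le_div_iff₀ (by positivity)] at hs2
      nlinarith [mul_le_mul_of_nonneg_left hs1 hs0.le, mul_pos hs0 hκ0, mul_pos hs0 hlam0,
        mul_nonneg (mul_nonneg hs0.le hκ0.le) (sub_nonneg.2 hs1)]
  -- the coordinates are controlled by X and Y
  have hctrl : ∀ a b : ℝ, |a| < δ → |b| < δ → |a - w b| ≤ r → |b - w a| ≤ r → |a| ≤ 4 / 3 * r ∧ |b| ≤ 4 / 3 * r := by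
    intro a b ha hb h1 h2
    have h3 := hw0 a ha
    have h4 := hw0 b hb
    have h5 : |a| ≤ |a - w b| + |w b| := by
      have := abs_add_le (a - w b) (w b); simpa using this
    have h6 : |b| ≤ |b - w a| + |w a| := by
      have := abs_add_le (b - w a) (w a); simpa using this
    constructor <;> linarith
  -- small t
  have hcW := contWu_Box hφ
  have hcα : Continuous (fun t => xi lam (Wu lam φ t)) := (contxi_Box lam).comp hcW
  have hcβ : Continuous (fun t => et lam (Wu lam φ t)) := (contet_Box lam).comp hcW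
  have hrL : 0 < r / L := by positivity
  have hrL' : r / L < r := div_lt_self hr0 hL1
  obtain ⟨t1, ht1, ht1', hsm⟩ : ∃ t1 : ℝ, 0 < t1 ∧ t1 < t0' ∧ ∀ t ∈ Icc 0 t1, |xi lam (Wu lam φ t)| < δ ∧
      |et lam (Wu lam φ t)| < δ ∧ xi lam (Wu lam φ t) - w (et lam (Wu lam φ t)) < r / L := by
    have e1 : ∀ᶠ t in 𝓝 (0:ℝ), |xi lam (Wu lam φ t)| < δ := by
      have := hcα.abs.tendsto 0
      simp only [xiWu0_Box hφ, abs_zero] at this
      exact this.eventually (gt_mem_nhds hδ0)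
    have e2 : ∀ᶠ t in 𝓝 (0:ℝ), |et lam (Wu lam φ t)| < δ := by
      have := hcβ.abs.tendsto 0
      simp only [etWu0_Box hφ, abs_zero] at this
      exact this.eventually (gt_mem_nhds hδ0)
    have e3 : ∀ᶠ t in 𝓝 (0:ℝ), xi lam (Wu lam φ t) - w (et lam (Wu lam φ t)) < r / L := by
      have hwc0 : ContinuousAt w (et lam (Wu lam φ 0)) := by
        rw [etWu0_Box hφ]; exact (hwc 0 (by simpa using hδ0)).continuousAt
      have hc : ContinuousAt (fun t => xi lam (Wu lam φ t) - w (et lam (Wu lam φ t))) 0 :=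
        hcα.continuousAt.sub (ContinuousAt.comp (f := fun t => et lam (Wu lam φ t)) hwc0 hcβ.continuousAt)
      have := hc.tendsto
      simp only [xiWu0_Box hφ, etWu0_Box hφ, hG.w0, sub_zero] at this
      exact this.eventually (gt_mem_nhds hrL)
    obtain ⟨η, hη, hb⟩ := Metric.eventually_nhds_iff.1 (e1.and (e2.and e3))
    refine ⟨min (η / 2) (t0' / 2), by have := hG.ht; positivity, ?_, ?_⟩
    · have := hG.ht
      exact lt_of_le_of_lt (min_le_right _ _) (by linarith)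
    · intro t ht
      apply hb
      rw [Real.dist_eq, sub_zero, abs_of_nonneg ht.1]
      have := ht.2.trans (min_le_left _ _)
      linarith
  have ht0' := hG.ht
  have hmem : ∀ t ∈ Icc 0 t1, t ∈ Ioo (-t0') t0' := fun t ht => ⟨by linarith [ht.1], by linarith [ht.2]⟩
  -- key: X (Wu t) in terms of α
  have hXW : ∀ t ∈ Ioo (-t0') t0', et lam (Wu lam φ t) = w (xi lam (Wu lam φ t)) := fun t ht => (hG.on t ht).2
  have hstrict : ∀ a b : ℝ, |a| < δ → |b| < δ → a < b → a - w (w a) < b - w (w b) := by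
    intro a b ha hb hab
    have ha' := hw0 a ha
    have hb' := hw0 b hb
    have h5 : |w a| < δ := by have := abs_nonneg a; linarith
    have h6 : |w b| < δ := by have := abs_nonneg b; linarith
    have h7 := hw _ _ h6 h5
    have h8 := hw _ _ hb ha
    have h9 := le_abs_self (w (w b) - w (w a))
    rw [abs_of_pos (sub_pos.2 hab)] at h8
    linarith
  have hmonoX : StrictMonoOn (fun t => xi lam (Wu lam φ t) - w (et lam (Wu lam φ t))) (Icc 0 t1) := by
    intro s hs t ht hst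
    show xi lam (Wu lam φ s) - w (et lam (Wu lam φ s)) < xi lam (Wu lam φ t) - w (et lam (Wu lam φ t))
    rw [hXW s (hmem s hs), hXW t (hmem t ht)]
    exact hstrict _ _ (hsm s hs).1 (hsm t ht).1 (hG.mono (hmem s hs) (hmem t ht) hst)
  have hX0 : xi lam (Wu lam φ 0) - w (et lam (Wu lam φ 0)) = 0 := by
    rw [xiWu0_Box hφ, etWu0_Box hφ, hG.w0, sub_zero]
  have h0mem : (0:ℝ) ∈ Icc 0 t1 := ⟨le_refl _, ht1.le⟩
  have hcd : ContDiffOn ℝ 1 (fun z => xi lam z - w (et lam z)) N := by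
    intro z hz
    have hxi : ContDiff ℝ 1 (xi lam) := by unfold xi; fun_prop
    have het : ContDiff ℝ 1 (et lam) := by unfold et; fun_prop
    have : ContDiffAt ℝ 1 (fun z => w (et lam z)) z :=
      ContDiffAt.comp z (hwc _ ((hNm z).1 hz).2) het.contDiffAt
    exact (hxi.contDiffAt.sub this).contDiffWithinAt
  refine ⟨N, fun z => xi lam z - w (et lam z), fun z => et lam z - w (xi lam z), r, l, L, t1, ?_⟩
  refine ⟨hNopen, hcd, ?_, hr0, hl1, by rw [hL]; linarith, ht1, ?_, ?_, ?_, hX0, hmonoX, ?_, ?_, ?_⟩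
  · -- cY
    intro z hz
    have h : ContinuousAt (fun z => w (xi lam z)) z :=
      ContinuousAt.comp (f := xi lam) (hwc _ ((hNm z).1 hz).1).continuousAt (contxi_Box lam).continuousAt
    exact ((contet_Box lam).continuousAt.sub h).continuousWithinAt
  · -- cpt
    have hK : IsCompact (Icc (-(4 / 3 * r)) (4 / 3 * r) ×ˢ Icc (-(4 / 3 * r)) (4 / 3 * r) : Set (ℝ × ℝ)) :=
      isCompact_Icc.prod isCompact_Icc
    have hlt : ∀ x ∈ Icc (-(4 / 3 * r)) (4 / 3 * r), |x| < δ := fun x hx => lt_of_le_of_lt (abs_le.2 hx) hrd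
    have hcl : IsCompact {q : ℝ × ℝ | q ∈ (Icc (-(4 / 3 * r)) (4 / 3 * r) ×ˢ Icc (-(4 / 3 * r)) (4 / 3 * r) : Set (ℝ × ℝ)) ∧
        (q.1 - w q.2, q.2 - w q.1) ∈ (Icc (-r) r ×ˢ Icc (-r) r : Set (ℝ × ℝ))} := by
      have hc : ContinuousOn (fun q : ℝ × ℝ => (q.1 - w q.2, q.2 - w q.1))
          (Icc (-(4 / 3 * r)) (4 / 3 * r) ×ˢ Icc (-(4 / 3 * r)) (4 / 3 * r)) := by
        intro q hq
        have a1 : ContinuousAt (fun q : ℝ × ℝ => w q.2) q :=
          ContinuousAt.comp (f := Prod.snd) (hwc _ (hlt _ hq.2)).continuousAt continuousAt_snd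
        have a2 : ContinuousAt (fun q : ℝ × ℝ => w q.1) q :=
          ContinuousAt.comp (f := Prod.fst) (hwc _ (hlt _ hq.1)).continuousAt continuousAt_fst
        exact ((continuousAt_fst.sub a1).prodMk (continuousAt_snd.sub a2)).continuousWithinAt
      have := hc.preimage_isClosed_of_isClosed hK.isClosed (isClosed_Icc.prod isClosed_Icc (s₁ := Icc (-r) r) (s₂ := Icc (-r) r))
      exact hK.of_isClosed_subset this (fun q hq => hq.1)
    have himg := hcl.image (contPsi_Box lam)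
    convert himg using 1
    ext z
    constructor
    · rintro ⟨hz, hz1, hz2⟩
      have hz' := (hNm z).1 hz
      obtain ⟨c1, c2⟩ := hctrl _ _ hz'.1 hz'.2 hz1 hz2
      refine ⟨(xi lam z, et lam z), ⟨⟨abs_le.1 c1, abs_le.1 c2⟩, abs_le.1 hz1, abs_le.1 hz2⟩, ?_⟩
      exact ext_Box hlam (xiPsi_Box hlam _) (etPsi_Box hlam _)
    · rintro ⟨q, ⟨hq1, hq2⟩, rfl⟩
      refine ⟨(hNm _).2 ?_, ?_, ?_⟩
      · rw [xiPsi_Box hlam, etPsi_Box hlam]
        exact ⟨hlt _ hq1.1, hlt _ hq1.2⟩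
      · rw [xiPsi_Box hlam, etPsi_Box hlam]
        exact abs_le.2 hq2.1
      · rw [xiPsi_Box hlam, etPsi_Box hlam]
        exact abs_le.2 hq2.2
  · -- dyn
    intro z hz hz1 hz2
    have hz' := (hNm z).1 hz
    obtain ⟨c1, c2⟩ := hctrl _ _ hz'.1 hz'.2 (hz1.trans hrL'.le) hz2
    have hx : |z.1 - pp lam| ≤ 8 / 3 * r := by
      rw [x_Box hlam z, abs_neg]
      have a1 := abs_add_le (xi lam z) (et lam z / lam)
      have a2 : |et lam z / lam| ≤ |et lam z| := by
        rw [abs_div, abs_of_pos hlam0]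
        exact div_le_self (abs_nonneg _) hlam.le
      linarith
    have hx2 : (z.1 - pp lam) ^ 2 / (1 - (lam⁻¹) ^ 2) ≤ κ * (8 / 3 * r) ^ 2 := by
      rw [hκ, one_div_mul_eq_div]
      apply div_le_div_of_nonneg_right _ (fac_Box hlam).le
      exact sq_le_sq' (by linarith [(abs_le.1 hx).1]) (abs_le.1 hx).2
    have hx3 : 0 ≤ (z.1 - pp lam) ^ 2 / (1 - (lam⁻¹) ^ 2) := div_nonneg (sq_nonneg _) (fac_Box hlam).le
    have hin : ff lam z ∈ N := by
      rw [hNm, xiff_Box hlam, etff_Box hlam]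
      constructor
      · have a1 := abs_sub (lam * xi lam z) ((z.1 - pp lam) ^ 2 / (1 - (lam⁻¹) ^ 2))
        rw [abs_mul, abs_of_pos hlam0, abs_of_nonneg hx3] at a1
        have a2 : lam * |xi lam z| ≤ lam * (4 / 3 * r) := mul_le_mul_of_nonneg_left c1 hlam0.le
        linarith
      · rw [← add_div, abs_div, abs_of_pos hlam0]
        have a0 : |et lam z + (z.1 - pp lam) ^ 2 / (1 - (lam⁻¹) ^ 2)| / lam ≤
            |et lam z + (z.1 - pp lam) ^ 2 / (1 - (lam⁻¹) ^ 2)| := div_le_self (abs_nonneg _) hlam.le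
        have a1 := abs_add_le (et lam z) ((z.1 - pp lam) ^ 2 / (1 - (lam⁻¹) ^ 2))
        rw [abs_of_nonneg hx3] at a1
        have a2 : 1 * (4 / 3 * r) ≤ lam * (4 / 3 * r) := mul_le_mul_of_nonneg_right hlam.le (by positivity)
        linarith
    have k1 := hX z (by linarith [hz'.1]) (by linarith [hz'.2])
    have k2 := hY z (by linarith [hz'.1]) (by linarith [hz'.2])
    show ff lam z ∈ N ∧ l * |xi lam z - w (et lam z)| ≤ |xi lam (ff lam z) - w (et lam (ff lam z))| ∧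
      |xi lam (ff lam z) - w (et lam (ff lam z))| ≤ L * |xi lam z - w (et lam z)| ∧
      0 ≤ (xi lam z - w (et lam z)) * (xi lam (ff lam z) - w (et lam (ff lam z))) ∧
      |et lam (ff lam z) - w (xi lam (ff lam z))| ≤ |et lam z - w (xi lam z)| / l
    generalize xi lam (ff lam z) - w (et lam (ff lam z)) = X1 at k1 ⊢
    generalize xi lam z - w (et lam z) = X0 at k1 ⊢
    generalize et lam (ff lam z) - w (xi lam (ff lam z)) = Y1 at k2 ⊢
    generalize et lam z - w (xi lam z) = Y0 at k2 ⊢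
    have m1 : |X1| ≤ |X1 - lam * X0| + |lam * X0| := by
      have := abs_add_le (X1 - lam * X0) (lam * X0); simpa using this
    have m2 : |lam * X0| ≤ |X1 - lam * X0| + |X1| := by
      have := abs_add_le (lam * X0 - X1) X1
      rw [abs_sub_comm] at this
      simpa using this
    rw [abs_mul, abs_of_pos hlam0] at m1 m2
    have m3 : 0 ≤ |X0| := abs_nonneg _
    have m4 : e * |X0| ≤ (lam - 1) / 2 * |X0| := mul_le_mul_of_nonneg_right he1 m3
    refine ⟨hin, ?_, ?_, ?_, ?_⟩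
    · rw [hl]; nlinarith
    · rw [hL]; nlinarith
    · have m5 := (abs_le.1 k1)
      have m6 : (lam - 1) / 2 < lam := by linarith
      rcases le_total 0 X0 with h | h
      · rw [abs_of_nonneg h] at *
        have : 0 ≤ X1 := by nlinarith [m5.1]
        positivity
      · rw [abs_of_nonpos h] at *
        have : X1 ≤ 0 := by nlinarith [m5.2]
        exact mul_nonneg_of_nonpos_of_nonpos h this
    · have m7 : (1 / lam + e) * |Y0| ≤ 1 / l * |Y0| := mul_le_mul_of_nonneg_right (by linarith) (abs_nonneg _)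
      calc |Y1| ≤ (1 / lam + e) * |Y0| := k2
        _ ≤ 1 / l * |Y0| := m7
        _ = |Y0| / l := by ring
  · -- wu
    intro t ht
    refine ⟨(hNm _).2 ⟨(hsm t ht).1, (hsm t ht).2.1⟩, ?_, (hsm t ht).2.2.le⟩
    show et lam (Wu lam φ t) - w (xi lam (Wu lam φ t)) = 0
    rw [hXW t (hmem t ht), sub_self]
  · -- wuc
    intro z hz hY0 hX0' hXle
    have hz' := (hNm z).1 hz
    have hz1 := abs_lt.1 hz'.1
    obtain ⟨t, ht, hxt⟩ := hG.onto (xi lam z) ⟨by linarith, by linarith⟩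
    have hY0' : et lam z = w (xi lam z) := by
      have : et lam z - w (xi lam z) = 0 := hY0
      linarith
    have hzt : z = Wu lam φ t := ext_Box hlam hxt.symm (by rw [hXW t ht, hxt, hY0'])
    have hXz : 0 ≤ xi lam z - w (w (xi lam z)) := by
      have : 0 ≤ xi lam z - w (et lam z) := hX0'
      rwa [hY0'] at this
    refine ⟨t, ⟨?_, ?_⟩, hzt⟩
    · by_contra hneg
      push Not at hneg
      have hlt := hG.mono ht (hmem 0 h0mem) hneg
      simp only [xiWu0_Box hφ, hxt] at hlt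
      have := hstrict (xi lam z) 0 hz'.1 (by simpa using hδ0) hlt
      rw [hG.w0, hG.w0] at this
      linarith
    · by_contra hgt
      push Not at hgt
      have h1mem : t1 ∈ Icc 0 t1 := ⟨ht1.le, le_refl _⟩
      have hlt := hG.mono (hmem t1 h1mem) ht hgt
      simp only [hxt] at hlt
      have k := hstrict _ (xi lam z) (hsm t1 h1mem).1 hz'.1 hlt
      have hXle' : xi lam z - w (et lam z) ≤ xi lam (Wu lam φ t1) - w (et lam (Wu lam φ t1)) := hXle
      rw [hY0', hXW t1 (hmem t1 h1mem)] at hXle'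
      linarith
  · -- ws
    intro t ht
    refine ⟨(hNm _).2 ?_, ?_, ?_⟩
    · rw [xiWs_Box, etWs_Box]
      exact ⟨(hsm t ht).2.1, (hsm t ht).1⟩
    · show xi lam (Ws lam φ t) - w (et lam (Ws lam φ t)) = 0
      rw [xiWs_Box, etWs_Box, hXW t (hmem t ht), sub_self]
    · show |et lam (Ws lam φ t) - w (xi lam (Ws lam φ t))| < r
      rw [xiWs_Box, etWs_Box]
      have k1 := hmonoX.monotoneOn h0mem ht ht.1
      simp only [hX0] at k1
      rw [abs_of_nonneg k1]
      linarith [(hsm t ht).2.2]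
  · -- grd
    intro t ht hfd
    have hmemN : Ws lam φ t ∈ N := by
      rw [hNm, xiWs_Box, etWs_Box]
      exact ⟨(hsm t ht).2.1, (hsm t ht).1⟩
    have hd : DifferentiableAt ℝ (fun z => xi lam z - w (et lam z)) (Ws lam φ t) :=
      (hcd.contDiffAt (hNopen.mem_nhds hmemN)).differentiableAt (by norm_num)
    have hd' := hd.hasFDerivAt
    rw [hfd] at hd'
    obtain ⟨z, hzdef⟩ : ∃ z, z = Ws lam φ t := ⟨_, rfl⟩
    rw [← hzdef] at hd'
    have hline : HasDerivAt (fun s : ℝ => z + s • ((-1 : ℝ), -(1 / lam))) ((-1 : ℝ), -(1 / lam)) 0 := by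
      have := ((hasDerivAt_id (0:ℝ)).smul_const ((-1 : ℝ), -(1 / lam))).const_add z
      simpa using this
    have hd'' : HasFDerivAt (fun z => xi lam z - w (et lam z)) (0 : ℝ × ℝ →L[ℝ] ℝ) (z + (0:ℝ) • ((-1 : ℝ), -(1 / lam))) := by
      simpa using hd'
    have hcomp := hd''.comp_hasDerivAt (0:ℝ) hline
    have h1 : 1 - (lam⁻¹) ^ 2 ≠ 0 := (fac_Box hlam).ne'
    have e1 : ∀ s : ℝ, xi lam (z + s • ((-1 : ℝ), -(1 / lam))) = xi lam z + s := by
      intro s
      unfold xi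
      simp only [Prod.fst_add, Prod.snd_add, Prod.smul_fst, Prod.smul_snd, smul_eq_mul]
      rw [div_add' _ _ _ h1]
      congr 1
      field_simp
      ring
    have e2 : ∀ s : ℝ, et lam (z + s • ((-1 : ℝ), -(1 / lam))) = et lam z := by
      intro s
      unfold et
      simp only [Prod.fst_add, Prod.snd_add, Prod.smul_fst, Prod.smul_snd, smul_eq_mul]
      congr 1
      field_simp
      ring
    have e3 : ((fun z => xi lam z - w (et lam z)) ∘ fun s : ℝ => z + s • ((-1 : ℝ), -(1 / lam))) =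
        fun s => s + (xi lam z - w (et lam z)) := by
      funext s
      simp only [Function.comp, e1, e2]
      ring
    rw [e3] at hcomp
    have h2 : HasDerivAt (fun s : ℝ => s + (xi lam z - w (et lam z))) 1 0 := (hasDerivAt_id (0:ℝ)).add_const _
    have := hcomp.unique h2
    simp at this

end Helper83.PE
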