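import Pool.Agent.Helper83.PE.St

set_option autoImplicit false

open Set Filter Topology
open Helper85.HN (hen)

noncomputable section

namespace Helper83.PE

private lemma lip_BoxX (w : ℝ → ℝ) (h : ContDiffAt ℝ 1 w 0) (h0 : deriv w 0 = 0) :
    ∃ δ1 > 0, ∀ x y : ℝ, |x| < δ1 → |y| < δ1 → |w x - w y| ≤ |x - y| := by
  have h1 : HasStrictDerivAt w (deriv w 0) 0 := h.hasStrictDerivAt (by norm_num)
  rw [h0] at h1
  have h2 := h1.isLittleO
  have h3 := h2.def (show (0 : ℝ) < 1 by norm_num)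
  rw [Metric.eventually_nhds_iff] at h3
  obtain ⟨δ, hδ, H⟩ := h3
  refine ⟨δ, hδ, fun x y hx hy => ?_⟩
  have := H (y := (x, y)) (by
    rw [Prod.dist_eq]
    simpa [Real.dist_eq] using ⟨hx, hy⟩)
  simpa using this

/-- First coordinate in terms of `xi`, `et`. -/
private lemma u_BoxX (lam : ℝ) (hl : 1 < lam) (z : ℝ × ℝ) :
    z.1 - pp lam = -(xi lam z + et lam z / lam) := by
  have hl0 : lam ≠ 0 := by positivity
  have h1 : (lam ^ 2 - 1) ≠ 0 := by nlinarith
  have h2 : 1 - (lam⁻¹) ^ 2 ≠ 0 := by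
    have : 1 - (lam⁻¹) ^ 2 = (lam ^ 2 - 1) / lam ^ 2 := by field_simp
    rw [this]; positivity
  unfold xi et
  have h3 : 1 - (lam⁻¹) ^ 2 = (lam ^ 2 - 1) / lam ^ 2 := by field_simp
  rw [h3]
  field_simp
  ring

private lemma xiff_BoxX (lam : ℝ) (hl : 1 < lam) (z : ℝ × ℝ) :
    xi lam (ff lam z) = lam * xi lam z - 1 / (1 - (lam⁻¹) ^ 2) * (z.1 - pp lam) ^ 2 := by
  have hl0 : lam ≠ 0 := by positivity
  have h1 : (lam ^ 2 - 1) ≠ 0 := by nlinarith
  have h3 : 1 - (lam⁻¹) ^ 2 = (lam ^ 2 - 1) / lam ^ 2 := by field_simp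
  unfold xi ff hen cc
  rw [h3]
  have h4 : 2 * pp lam = lam + lam⁻¹ := by unfold pp; ring
  have h5 : lam⁻¹ = 2 * pp lam - lam := by rw [h4]; ring
  have h6 : pp lam = (lam ^ 2 + 1) / (2 * lam) := by unfold pp; field_simp
  simp only [h6]
  field_simp
  ring

private lemma etff_BoxX (lam : ℝ) (hl : 1 < lam) (z : ℝ × ℝ) :
    et lam (ff lam z) = et lam z / lam + 1 / (1 - (lam⁻¹) ^ 2) / lam * (z.1 - pp lam) ^ 2 := by
  have hl0 : lam ≠ 0 := by positivity
  have h1 : (lam ^ 2 - 1) ≠ 0 := by nlinarith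
  have h3 : 1 - (lam⁻¹) ^ 2 = (lam ^ 2 - 1) / lam ^ 2 := by field_simp
  unfold et ff hen cc
  rw [h3]
  have h6 : pp lam = (lam ^ 2 + 1) / (2 * lam) := by unfold pp; field_simp
  simp only [h6]
  field_simp
  ring

private lemma ws_BoxX (lam : ℝ) (φ : ℂ → ℂ) (hl : 1 < lam) (hφ : UPar lam φ) (t : ℝ) :
    ff lam (Ws lam φ t) = Ws lam φ (t / lam) := by
  have hl0 : lam ≠ 0 := by positivity
  obtain ⟨_, _, _, h, hr⟩ := hφ
  have h1 := h ((t / lam : ℝ) : ℂ)
  have h2 : (lam : ℂ) * ((t / lam : ℝ) : ℂ) = ((t : ℝ) : ℂ) := by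
    rw [← Complex.ofReal_mul, mul_div_cancel₀ t hl0]
  have h3 : ((t / lam : ℝ) : ℂ) / (lam : ℂ) = ((t / lam / lam : ℝ) : ℂ) := by
    push_cast; rfl
  rw [h2, h3] at h1
  have h4 := congrArg Complex.re h1
  have h5 : (φ ((t / lam : ℝ) : ℂ) ^ 2).re = (φ ((t / lam : ℝ) : ℂ)).re ^ 2 := by
    rw [sq, Complex.mul_re, hr (t / lam)]; ring
  rw [Complex.add_re, Complex.add_re, h5, Complex.ofReal_re] at h4
  unfold ff hen Ws vv
  ext
  · simp only
    linarith
  · simp only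

theorem hBoxX : StBoxX := by
  intro lam φ w ρ ρ' t0 hl hφ hG e he
  have hl0 : (0 : ℝ) < lam := by linarith
  have hρ := hG.hρ
  have hρ' := hG.hρ'
  obtain ⟨δ1, hδ1, hlip⟩ := lip_BoxX w (hG.cd 0 ⟨by linarith, by linarith⟩) hG.dw0
  set κ : ℝ := 1 / (1 - (lam⁻¹) ^ 2) with hκ
  have hinv : lam⁻¹ < 1 := inv_lt_one_of_one_lt₀ hl
  have hinv0 : 0 < lam⁻¹ := by positivity
  have hκ0 : 0 < κ := by
    rw [hκ]
    have : 0 < 1 - (lam⁻¹) ^ 2 := by nlinarith
    positivity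
  set δ : ℝ := min (min ρ' 1) (min (δ1 / (1 + 4 * κ)) (e / (8 * κ))) with hδ
  have hδ0 : 0 < δ := by
    rw [hδ]
    refine lt_min (lt_min hρ one_pos) (lt_min ?_ ?_) <;> positivity
  have hd1 : δ ≤ ρ' := le_trans (min_le_left _ _) (min_le_left _ _)
  have hd2 : δ ≤ 1 := le_trans (min_le_left _ _) (min_le_right _ _)
  have hd3 : δ ≤ δ1 / (1 + 4 * κ) := le_trans (min_le_right _ _) (min_le_left _ _)
  have hd4 : δ ≤ e / (8 * κ) := le_trans (min_le_right _ _) (min_le_right _ _)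
  have hd3' : δ * (1 + 4 * κ) ≤ δ1 := by
    rwa [le_div_iff₀ (by positivity)] at hd3
  have hd4' : δ * (8 * κ) ≤ e := by
    rwa [le_div_iff₀ (by positivity)] at hd4
  have hdδ1 : δ ≤ δ1 := by nlinarith
  refine ⟨δ, hδ0, fun z hx hy => ?_⟩
  obtain ⟨t, ht, hxt⟩ := hG.onto (et lam z) (by
    rw [abs_lt] at hy
    exact ⟨by linarith [hy.1], by linarith [hy.2]⟩)
  have hexch1 : xi lam (Ws lam φ t) = et lam (Wu lam φ t) := by unfold xi et Ws Wu; ring
  have hexch2 : et lam (Ws lam φ t) = xi lam (Wu lam φ t) := by unfold xi et Ws Wu; ring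
  have ht' : t / lam ∈ Ioo (-t0) t0 := by
    have ht0 := hG.ht
    rw [mem_Ioo] at ht ⊢
    rw [← abs_lt] at ht ⊢
    rw [abs_div, abs_of_pos hl0, div_lt_iff₀ hl0]
    nlinarith [abs_nonneg t]
  have hexch3 : xi lam (Ws lam φ (t / lam)) = et lam (Wu lam φ (t / lam)) := by
    unfold xi et Ws Wu; ring
  have hexch4 : et lam (Ws lam φ (t / lam)) = xi lam (Wu lam φ (t / lam)) := by
    unfold xi et Ws Wu; ring
  set z0 := Ws lam φ t with hz0
  have e1 : et lam z0 = et lam z := by rw [hexch2, hxt]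
  have e2 : xi lam z0 = w (et lam z) := by rw [hexch1, (hG.on t ht).2, hxt]
  have e3 : xi lam (ff lam z0) = w (et lam (ff lam z0)) := by
    rw [hz0, ws_BoxX lam φ hl hφ t, hexch3, hexch4]
    exact (hG.on _ ht').2
  have u1 := u_BoxX lam hl z
  have u2 := u_BoxX lam hl z0
  rw [e1, e2] at u2
  have x1 := xiff_BoxX lam hl z
  have x2 := xiff_BoxX lam hl z0
  have y1 := etff_BoxX lam hl z
  have y2 := etff_BoxX lam hl z0
  rw [← hκ] at x1 x2 y1 y2
  rw [e2] at x2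
  rw [e1] at y2
  set u := z.1 - pp lam with hu
  set u0 := z0.1 - pp lam with hu0
  set X := xi lam z - w (et lam z) with hX
  have hw1 : |w (et lam z)| ≤ |et lam z| := by
    have := hlip (et lam z) 0 (by linarith) (by simpa using hδ1)
    rw [hG.w0] at this
    simpa using this
  have hetl : |et lam z / lam| ≤ |et lam z| := by
    rw [abs_div, abs_of_pos hl0]
    exact div_le_self (abs_nonneg _) hl.le
  have hua : |u| ≤ 2 * δ := by
    rw [u1, abs_neg]
    exact (abs_add_le _ _).trans (by linarith)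
  have hub : |u0| ≤ 2 * δ := by
    rw [u2, abs_neg]
    exact (abs_add_le _ _).trans (by linarith)
  have huX : u - u0 = -X := by rw [u1, u2, hX]; ring
  have hs : |u + u0| ≤ 4 * δ := (abs_add_le _ _).trans (by linarith)
  have hsq : ∀ v : ℝ, |v| ≤ 2 * δ → |et lam z / lam + κ / lam * v ^ 2| < δ1 := by
    intro v hv
    have hv2 : v ^ 2 ≤ 4 * δ := by
      have : |v| ^ 2 ≤ (2 * δ) ^ 2 := by gcongr
      rw [sq_abs] at this
      nlinarith
    have h1 : |κ / lam * v ^ 2| ≤ κ * (4 * δ) := by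
      rw [abs_of_nonneg (by positivity)]
      have : κ / lam ≤ κ := div_le_self hκ0.le hl.le
      gcongr
    calc |et lam z / lam + κ / lam * v ^ 2| ≤ |et lam z / lam| + |κ / lam * v ^ 2| := abs_add_le _ _
      _ < δ + κ * (4 * δ) := by linarith
      _ = δ * (1 + 4 * κ) := by ring
      _ ≤ δ1 := hd3'
  have hL := hlip (et lam (ff lam z)) (et lam (ff lam z0)) (by rw [y1]; exact hsq u hua)
    (by rw [y2]; exact hsq u0 hub)
  have hdet : et lam (ff lam z) - et lam (ff lam z0) = -(κ / lam * X * (u + u0)) := by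
    rw [y1, y2]
    have : u ^ 2 - u0 ^ 2 = -X * (u + u0) := by rw [← huX]; ring
    linear_combination (κ / lam) * this
  have hdxi : xi lam (ff lam z) - xi lam (ff lam z0) = lam * X + κ * X * (u + u0) := by
    rw [x1, x2, hX]
    have : u ^ 2 - u0 ^ 2 = -X * (u + u0) := by rw [← huX]; ring
    rw [hX] at this
    linear_combination (-κ) * this
  have hfin : (xi lam (ff lam z) - w (et lam (ff lam z))) - lam * X =
      κ * X * (u + u0) - (w (et lam (ff lam z)) - w (et lam (ff lam z0))) := by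
    linear_combination hdxi + e3
  rw [hfin]
  have hA : |κ * X * (u + u0)| ≤ κ * |X| * (4 * δ) := by
    rw [abs_mul, abs_mul, abs_of_pos hκ0]
    gcongr
  have hB : |w (et lam (ff lam z)) - w (et lam (ff lam z0))| ≤ κ * |X| * (4 * δ) := by
    refine hL.trans ?_
    rw [hdet, abs_neg, abs_mul, abs_mul, abs_of_pos (div_pos hκ0 hl0)]
    have : κ / lam ≤ κ := div_le_self hκ0.le hl.le
    gcongr
  calc |κ * X * (u + u0) - (w (et lam (ff lam z)) - w (et lam (ff lam z0)))|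
      ≤ |κ * X * (u + u0)| + |w (et lam (ff lam z)) - w (et lam (ff lam z0))| := abs_sub _ _
    _ ≤ κ * |X| * (4 * δ) + κ * |X| * (4 * δ) := add_le_add hA hB
    _ = δ * (8 * κ) * |X| := by ring
    _ ≤ e * |X| := by gcongr

end Helper83.PE
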