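import Pool.Agent.Helper83.PE.St

set_option autoImplicit false

namespace Helper83.PE

open Filter Topology

theorem hCas : StCas := by
  intro c p X D hX hD h01 hinc hXp hD0 hM
  set a : ℕ → ℝ := fun m => X (m + 1) - X m with ha
  have a0 : a 0 = 0 := by simp [ha, h01]
  have apos : ∀ m, 1 ≤ m → 0 < a m := fun m hm => sub_pos.2 (hinc m hm)
  have anneg : ∀ m, 0 ≤ a m := by
    intro m
    rcases Nat.eq_zero_or_pos m with h | h
    · rw [h, a0]
    · exact (apos m h).le
  have arec : ∀ m, a m + a (m + 2) = (X (m + 1) + X (m + 2)) * a (m + 1) := by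
    intro m
    have h1 : X m + X (m + 2) = X (m + 1) ^ 2 + c := hX m
    have h2 : X (m + 1) + X (m + 3) = X (m + 2) ^ 2 + c := hX (m + 1)
    change X (m + 1) - X m + (X (m + 3) - X (m + 2)) = (X (m + 1) + X (m + 2)) * (X (m + 2) - X (m + 1))
    linear_combination h2 - h1
  have atend : Tendsto a atTop (𝓝 0) := by
    have h := (hXp.comp (tendsto_add_atTop_nat 1)).sub hXp
    rw [sub_self] at h
    exact h
  have D1 : Tendsto (fun j => D (j + 1)) atTop (𝓝 0) := hD0.comp (tendsto_add_atTop_nat 1)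
  have D2 : Tendsto (fun j => D (j + 2)) atTop (𝓝 0) := hD0.comp (tendsto_add_atTop_nat 2)
  have a1 : Tendsto (fun j => a (j + 1)) atTop (𝓝 0) := atend.comp (tendsto_add_atTop_nat 1)
  -- first Casoratian
  set O : ℕ → ℝ := fun j => a (j + 1) * D (j + 1) - a j * D (j + 2) with hO
  have Orec : ∀ j, O j = O (j + 1) + a (j + 1) ^ 2 * D (j + 2) := by
    intro j
    have h1 := arec j
    have h2 : D (j + 1) + D (j + 3) = 2 * X (j + 2) * D (j + 2) := hD (j + 1)
    have h3 : a (j + 1) = X (j + 2) - X (j + 1) := rfl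
    change a (j + 1) * D (j + 1) - a j * D (j + 2) =
      a (j + 2) * D (j + 2) - a (j + 1) * D (j + 3) + a (j + 1) ^ 2 * D (j + 2)
    linear_combination a (j + 1) * h2 - D (j + 2) * h1 - a (j + 1) * D (j + 2) * h3
  have Otend : Tendsto O atTop (𝓝 0) := by
    have h := (a1.mul D1).sub (atend.mul D2)
    simpa using h
  have step : ∀ j, (∀ i, j + 2 ≤ i → 0 < D i) → 0 < D (j + 1) := by
    intro j hj
    have hanti : Antitone fun i => O (j + 1 + i) := by
      refine antitone_nat_of_succ_le fun i => ?_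
      have h1 := Orec (j + 1 + i)
      have h2 : 0 < D (j + 1 + i + 2) := hj _ (by omega)
      have h3 : 0 ≤ a (j + 1 + i + 1) ^ 2 * D (j + 1 + i + 2) := by positivity
      change O (j + 1 + i + 1) ≤ O (j + 1 + i)
      linarith
    have ht : Tendsto (fun i => O (j + 1 + i)) atTop (𝓝 0) := by
      have h := Otend.comp (tendsto_add_atTop_nat (j + 1))
      refine h.congr fun i => ?_
      simp only [Function.comp]
      rw [add_comm i]
    have h0 : 0 ≤ O (j + 1) := hanti.le_of_tendsto ht 0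
    have h1 := Orec j
    have h2 : 0 < D (j + 2) := hj _ le_rfl
    have h3 : 0 < a (j + 1) := apos _ (by omega)
    have h4 : 0 < a (j + 1) ^ 2 * D (j + 2) := by positivity
    have h5 : 0 < a (j + 1) * D (j + 1) - a j * D (j + 2) := by
      have : O j = a (j + 1) * D (j + 1) - a j * D (j + 2) := rfl
      linarith
    have h6 : 0 ≤ a j * D (j + 2) := mul_nonneg (anneg j) h2.le
    have h7 : 0 < a (j + 1) * D (j + 1) := by linarith
    exact (pos_iff_pos_of_mul_pos h7).1 h3
  obtain ⟨M, hM⟩ := hM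
  have Dpos : ∀ k, ∀ i, 1 ≤ i → M ≤ i + k → 0 < D i := by
    intro k
    induction k with
    | zero => intro i _ hi; exact hM i hi
    | succ k ih =>
      intro i hi1 hi
      obtain ⟨j, rfl⟩ : ∃ j, i = j + 1 := ⟨i - 1, by omega⟩
      exact step j fun l hl => ih l (by omega) (by omega)
  have Dp : ∀ i, 1 ≤ i → 0 < D i := fun i hi => Dpos M i hi (by omega)
  refine ⟨?_, Dp 1 le_rfl⟩
  -- second Casoratian
  set U : ℕ → ℝ := fun j => a (j + 1) * D j - a j * D (j + 1) with hU
  have Urec : ∀ j, U j = U (j + 1) - a (j + 1) ^ 2 * D (j + 1) := by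
    intro j
    have h1 := arec j
    have h2 : D j + D (j + 2) = 2 * X (j + 1) * D (j + 1) := hD j
    have h3 : a (j + 1) = X (j + 2) - X (j + 1) := rfl
    change a (j + 1) * D j - a j * D (j + 1) =
      a (j + 2) * D (j + 1) - a (j + 1) * D (j + 2) - a (j + 1) ^ 2 * D (j + 1)
    linear_combination a (j + 1) * h2 - D (j + 1) * h1 + a (j + 1) * D (j + 1) * h3
  have Utend : Tendsto U atTop (𝓝 0) := by
    have h := (a1.mul hD0).sub (atend.mul D1)
    simpa using h
  have hmono : Monotone U := by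
    refine monotone_nat_of_le_succ fun j => ?_
    have h1 := Urec j
    have h2 : 0 < D (j + 1) := Dp _ (by omega)
    have h3 : 0 ≤ a (j + 1) ^ 2 * D (j + 1) := by positivity
    linarith
  have h1 : U 1 ≤ 0 := hmono.ge_of_tendsto Utend 1
  have h2 := Urec 0
  have h3 : 0 < a 1 := apos 1 le_rfl
  have h4 : 0 < D 1 := Dp 1 le_rfl
  have h5 : 0 < a (0 + 1) ^ 2 * D (0 + 1) := by
    rw [zero_add]; positivity
  have h6 : U 0 = a 1 * D 0 := by
    change a 1 * D 0 - a 0 * D 1 = a 1 * D 0
    rw [a0]; ring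
  have h7 : a 1 * D 0 < 0 := by
    rw [← h6, h2]
    have : U (0 + 1) ≤ 0 := h1
    linarith
  by_contra hcon
  have h8 := mul_nonneg h3.le (not_lt.1 hcon)
  linarith

end Helper83.PE
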