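import Pool.Agent.Helper83.PE.St

/-! # Project PE, module Ent: positive entropy from itineraries -/

set_option autoImplicit false

open Set Filter Topology

namespace Helper83.PE

/-- two disjoint compact sets have positive distance -/
private lemma sep_Ent (D E : Set (ℝ × ℝ)) (hD : IsCompact D) (hE : IsCompact E) (h : Disjoint D E) :
    ∃ e : ℝ, 0 < e ∧ ∀ x ∈ D, ∀ y ∈ E, e ≤ dist x y := by
  obtain ⟨δ, hδ, hd⟩ := h.exists_thickenings hD hE.isClosed
  refine ⟨δ, hδ, fun x hx y hy => ?_⟩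
  by_contra hcon
  push Not at hcon
  have h1 : x ∈ Metric.thickening δ D := Metric.self_subset_thickening hδ D hx
  have h2 : x ∈ Metric.thickening δ E := by
    rw [Metric.mem_thickening_iff]
    exact ⟨y, hy, hcon⟩
  exact Set.disjoint_left.mp hd h1 h2

open Dynamics in
private lemma net_Ent (g : ℝ × ℝ → ℝ × ℝ) (F D E : Set (ℝ × ℝ)) (m1 T : ℕ) (hm : m1 ≤ T)
    (e : ℝ) (he : ∀ x ∈ D, ∀ y ∈ E, e ≤ dist x y)
    (he0 : 0 < e)
    (hw : ∀ (w : ℕ → Bool) (k : ℕ), ∃ z ∈ F, ∀ j < k, g^[j * T + m1] z ∈ (if w j = true then D else E))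
    (k : ℕ) : ((2 ^ k : ℕ) : ℕ∞) ≤ netMaxcard g F {p | dist p.1 p.2 < e / 2} (k * T + 1) := by
  classical
  -- extension of a finite word
  let ext : (Fin k → Bool) → ℕ → Bool := fun w j => if h : j < k then w ⟨j, h⟩ else false
  choose z hzF hz using fun w : Fin k → Bool => hw (ext w) k
  have key : ∀ w w' : Fin k → Bool, ∀ x, x ∈ UniformSpace.ball (z w)
      (dynEntourage g {p : (ℝ × ℝ) × (ℝ × ℝ) | dist p.1 p.2 < e / 2} (k * T + 1)) →
      x ∈ UniformSpace.ball (z w')
      (dynEntourage g {p : (ℝ × ℝ) × (ℝ × ℝ) | dist p.1 p.2 < e / 2} (k * T + 1)) → w = w' := by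
    intro w w' x hx hx'
    funext j
    by_contra hne
    have hx1 : (z w, x) ∈ dynEntourage g {p : (ℝ × ℝ) × (ℝ × ℝ) | dist p.1 p.2 < e / 2} (k * T + 1) := hx
    have hx1' : (z w', x) ∈ dynEntourage g {p : (ℝ × ℝ) × (ℝ × ℝ) | dist p.1 p.2 < e / 2} (k * T + 1) := hx'
    rw [mem_dynEntourage] at hx1 hx1'
    have ht : (j : ℕ) * T + m1 < k * T + 1 := by
      have h1 : ((j : ℕ) + 1) * T ≤ k * T := Nat.mul_le_mul_right T j.2
      nlinarith
    have a1 : dist (g^[(j : ℕ) * T + m1] (z w)) (g^[(j : ℕ) * T + m1] x) < e / 2 := hx1 _ ht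
    have a2 : dist (g^[(j : ℕ) * T + m1] (z w')) (g^[(j : ℕ) * T + m1] x) < e / 2 := hx1' _ ht
    have b1 := hz w j j.2
    have b2 := hz w' j j.2
    have e1 : ext w j = w j := by simp [ext]
    have e2 : ext w' j = w' j := by simp [ext]
    rw [e1] at b1
    rw [e2] at b2
    have tri := dist_triangle_right (g^[(j : ℕ) * T + m1] (z w)) (g^[(j : ℕ) * T + m1] (z w'))
      (g^[(j : ℕ) * T + m1] x)
    cases hwj : w j with
    | true =>
      have hwj' : w' j = false := by
        cases h : w' j with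
        | false => rfl
        | true => exact absurd (hwj.trans h.symm) hne
      rw [hwj] at b1
      rw [hwj'] at b2
      simp only [if_true, Bool.false_eq_true, if_false] at b1 b2
      have := he _ b1 _ b2
      linarith
    | false =>
      have hwj' : w' j = true := by
        cases h : w' j with
        | true => rfl
        | false => exact absurd (hwj.trans h.symm) hne
      rw [hwj] at b1
      rw [hwj'] at b2
      simp only [if_true, Bool.false_eq_true, if_false] at b1 b2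
      have := he _ b2 _ b1
      rw [dist_comm] at this
      linarith
  have hself : ∀ x : ℝ × ℝ, x ∈ UniformSpace.ball x
      (dynEntourage g {p : (ℝ × ℝ) × (ℝ × ℝ) | dist p.1 p.2 < e / 2} (k * T + 1)) := by
    intro x
    show (x, x) ∈ dynEntourage g {p : (ℝ × ℝ) × (ℝ × ℝ) | dist p.1 p.2 < e / 2} (k * T + 1)
    rw [mem_dynEntourage]
    intro i _
    show dist _ _ < e / 2
    rw [dist_self]
    linarith
  have hinj : Function.Injective z := by
    intro w w' h
    exact key w w' (z w) (hself _) (h ▸ hself _)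
  let S : Finset (ℝ × ℝ) := Finset.univ.image z
  have hS : S.card = 2 ^ k := by
    rw [Finset.card_image_of_injective _ hinj, Finset.card_univ]
    simp
  have hnet : IsDynNetIn g F {p : (ℝ × ℝ) × (ℝ × ℝ) | dist p.1 p.2 < e / 2} (k * T + 1) (S : Set (ℝ × ℝ)) := by
    constructor
    · intro x hx
      simp only [S, Finset.coe_image, Finset.coe_univ, Set.image_univ, Set.mem_range] at hx
      obtain ⟨w, rfl⟩ := hx
      exact hzF w
    · intro x hx y hy hxy
      simp only [S, Finset.coe_image, Finset.coe_univ, Set.image_univ, Set.mem_range] at hx hy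
      obtain ⟨w, rfl⟩ := hx
      obtain ⟨w', rfl⟩ := hy
      show Disjoint _ _
      rw [Set.disjoint_left]
      intro p hp hp'
      exact hxy (congrArg z (key w w' p hp hp'))
  rw [← hS]
  exact hnet.card_le_netMaxcard

theorem hEnt : StEnt := by
  intro g F D E m1 T hT hm _ hD hE hdis hw
  obtain ⟨e, he0, he⟩ := sep_Ent D E hD hE hdis
  have hU : {p : (ℝ × ℝ) × (ℝ × ℝ) | dist p.1 p.2 < e / 2} ∈ uniformity (ℝ × ℝ) :=
    Metric.dist_mem_uniformity (by linarith)
  have h1 := Dynamics.netEntropyEntourage_le_coverEntropy (T := g) (F := F) hU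
  refine lt_of_lt_of_le ?_ h1
  have hT0 : (0 : ℝ) < T := by exact_mod_cast hT
  have ha : (0 : ℝ) < Real.log 2 / (2 * T) := by
    have := Real.log_pos one_lt_two
    positivity
  refine lt_of_lt_of_le (b := ((Real.log 2 / (2 * T) : ℝ) : EReal)) (by exact_mod_cast ha) ?_
  unfold Dynamics.netEntropyEntourage
  apply Frequently.le_expGrowthSup
  rw [Filter.frequently_atTop]
  intro n0
  refine ⟨(n0 + 1) * T + 1, ?_, ?_⟩
  · nlinarith
  · have h2 := net_Ent g F D E m1 T hm e he he0 hw (n0 + 1)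
    have h3 : ((2 ^ (n0 + 1) : ℕ) : ENNReal) ≤
        ((Dynamics.netMaxcard g F {p : (ℝ × ℝ) × (ℝ × ℝ) | dist p.1 p.2 < e / 2} ((n0 + 1) * T + 1) : ℕ∞) : ENNReal) := by
      have := ENat.toENNReal_mono h2
      simpa using this
    refine le_trans ?_ h3
    have e1 : ((Real.log 2 / (2 * T) : ℝ) : EReal) * (((n0 + 1) * T + 1 : ℕ) : EReal) =
        ((Real.log 2 / (2 * T) * (((n0 + 1) * T + 1 : ℕ) : ℝ) : ℝ) : EReal) := by
      rw [EReal.coe_mul]
      rfl
    rw [e1, EReal.exp_coe]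
    have e2 : ((2 ^ (n0 + 1) : ℕ) : ENNReal) = ENNReal.ofReal ((2 : ℝ) ^ (n0 + 1)) := by
      rw [ENNReal.ofReal_pow (by norm_num)]
      push_cast
      norm_num
    rw [e2]
    apply ENNReal.ofReal_le_ofReal
    have e3 : (2 : ℝ) ^ (n0 + 1) = Real.exp (Real.log 2 * ((n0 + 1 : ℕ) : ℝ)) := by
      rw [Real.exp_mul, Real.exp_log (by norm_num)]
      exact (Real.rpow_natCast 2 (n0 + 1)).symm
    rw [e3]
    apply Real.exp_le_exp.mpr
    have hl : 0 < Real.log 2 := Real.log_pos one_lt_two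
    push_cast
    have hT1 : (1 : ℝ) ≤ T := by exact_mod_cast hT
    have hn : (0 : ℝ) ≤ n0 := Nat.cast_nonneg _
    have h5 : ((n0 : ℝ) + 1) * T + 1 ≤ (2 * T) * ((n0 : ℝ) + 1) := by nlinarith
    calc Real.log 2 / (2 * T) * (((n0 : ℝ) + 1) * T + 1)
        ≤ Real.log 2 / (2 * T) * ((2 * T) * ((n0 : ℝ) + 1)) := by gcongr
      _ = Real.log 2 * ((n0 : ℝ) + 1) := by field_simp

end Helper83.PE
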