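import Pool.Agent.Helper83.PE.St

set_option autoImplicit false

open Set Filter Topology
open Helper85.HN (hen Orb Bd KK E0)

noncomputable section

namespace Helper83.PE

theorem tendsto_Fin (a : ℝ) (ha : 0 < a) :
    Tendsto (fun ε : ℝ => Real.exp (-(a / ε ^ (1 / 4 : ℝ)))) (𝓝[>] 0) (𝓝 0) := by
  have h1 : Tendsto (fun ε : ℝ => ε ^ (1 / 4 : ℝ)) (𝓝[>] 0) (𝓝[>] 0) := by
    refine tendsto_nhdsWithin_iff.mpr ⟨?_, ?_⟩
    · have := (Real.continuousAt_rpow_const 0 (1 / 4 : ℝ) (Or.inr (by norm_num)))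
      have h := this.tendsto
      rw [Real.zero_rpow (by norm_num)] at h
      exact h.mono_left nhdsWithin_le_nhds
    · filter_upwards [self_mem_nhdsWithin] with ε hε
      exact Real.rpow_pos_of_pos hε _
  have h2 : Tendsto (fun ε : ℝ => a / ε ^ (1 / 4 : ℝ)) (𝓝[>] 0) atTop := by
    have := (tendsto_inv_nhdsGT_zero (𝕜 := ℝ)).comp h1
    have h3 := this.const_mul_atTop ha
    refine h3.congr fun ε => ?_
    simp [div_eq_mul_inv]
  exact Real.tendsto_exp_neg_atTop_nhds_zero.comp h2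

theorem hFin (h1 : StFinA) (h2 : StFinC) (h3 : StFinD) : StFin := by
  refine ⟨?_, ?_, h2, ?_⟩
  · intro c hc
    obtain ⟨δ, hδ, h⟩ := h1 c hc
    rw [mem_interior]
    refine ⟨Metric.ball ((1 : ℝ), c) δ, fun q hq => ?_, Metric.isOpen_ball, Metric.mem_ball_self hδ⟩
    have hq' := Metric.mem_ball.mp hq
    rw [Prod.dist_eq, max_lt_iff] at hq'
    exact h q.1 q.2 (by simpa [Real.dist_eq] using hq'.1) (by simpa [Real.dist_eq] using hq'.2)
  · obtain ⟨a, ε0, ha, hε0, h⟩ := h2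
    have hcl : IsClosed (frontier E0) := isClosed_frontier
    rw [← hcl.closure_eq]
    refine mem_closure_iff_nhds.mpr fun U hU => ?_
    obtain ⟨η, hη, hηU⟩ := Metric.mem_nhds_iff.mp hU
    have ht := tendsto_Fin a ha
    have e1 : ∀ᶠ ε : ℝ in 𝓝[>] 0, Real.exp (-(a / ε ^ (1 / 4 : ℝ))) < η := ht (gt_mem_nhds hη)
    have e2 : ∀ᶠ ε : ℝ in 𝓝[>] 0, ε < min ε0 η := by
      have : ∀ᶠ ε : ℝ in 𝓝 0, ε < min ε0 η := gt_mem_nhds (lt_min hε0 hη)
      exact this.filter_mono nhdsWithin_le_nhds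
    obtain ⟨ε, ⟨he1, he2⟩, he3⟩ := ((e1.and e2).and self_mem_nhdsWithin).exists
    have he3' : 0 < ε := he3
    obtain ⟨b1, b2, hb1, hb2, hf1, hf2, hd1, hd2⟩ := h ε ⟨he3', lt_of_lt_of_le he2 (min_le_left _ _)⟩
    refine ⟨(b1, 1 - ε), hηU ?_, hf1⟩
    rw [Metric.mem_ball, Prod.dist_eq, max_lt_iff]
    refine ⟨?_, ?_⟩
    · rw [Real.dist_eq, abs_lt]
      constructor <;> linarith
    · rw [Real.dist_eq, abs_lt]
      have := lt_of_lt_of_le he2 (min_le_right _ _)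
      constructor <;> linarith
  · obtain ⟨a, ε0, ha, hε0, h⟩ := h2
    exact h3 (frontier E0) a ε0 ha hε0 h

end Helper83.PE
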