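import Pool.Agent.Helper83.PE.St

set_option autoImplicit false

open Set Filter Topology
open Helper85.HN (hen Orb Bd KK E0)

noncomputable section

namespace Helper83.PE

theorem exists_lam_FinA (c : ℝ) (hc : c < 1) : ∃ lam : ℝ, 1 < lam ∧ cc lam = c := by
  set s : ℝ := Real.sqrt (1 - c) with hs
  have hs0 : 0 < s := Real.sqrt_pos.mpr (by linarith)
  have hs2 : s ^ 2 = 1 - c := Real.sq_sqrt (by linarith)
  set p : ℝ := 1 + s with hp
  have hp1 : 1 < p := by rw [hp]; linarith
  set d : ℝ := Real.sqrt (p ^ 2 - 1) with hd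
  have hd0 : 0 < d := Real.sqrt_pos.mpr (by nlinarith)
  have hd2 : d ^ 2 = p ^ 2 - 1 := Real.sq_sqrt (by nlinarith)
  refine ⟨p + d, by linarith, ?_⟩
  have hne : p + d ≠ 0 := by positivity
  have hinv : (p + d)⁻¹ = p - d := by
    refine inv_eq_of_mul_eq_one_right ?_
    nlinarith
  have hpp : pp (p + d) = p := by
    unfold pp
    rw [hinv]; ring
  unfold cc
  rw [hpp, hp]
  nlinarith

theorem hFinA (h1 : StNbd) : StFinA := by
  intro c hc
  obtain ⟨lam, hl, hcl⟩ := exists_lam_FinA c hc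
  obtain ⟨δ, hδ, h⟩ := h1 lam hl
  refine ⟨δ, hδ, fun b' c' hb hc' hE => ?_⟩
  have := h b' c' hb (by rw [hcl]; exact hc')
  exact absurd hE (not_le.mpr this)

end Helper83.PE
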