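import Pool.Agent.Helper83.PE.St

set_option autoImplicit false

open Set Filter Topology
open Helper85.HN (hen Orb Bd KK E0)

noncomputable section

namespace Helper83.PE

/-- A preconnected set which meets a set and its complement meets the frontier. -/
private theorem frontier_meets_FinC {X : Type*} [TopologicalSpace X] {s t : Set X} (ht : IsPreconnected t)
    (h1 : (t ∩ s).Nonempty) (h2 : (t ∩ sᶜ).Nonempty) : (t ∩ frontier s).Nonempty := by
  by_contra hne
  have hcov : t ⊆ interior s ∪ interior sᶜ := by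
    intro x hx
    by_contra hx'
    apply hne
    refine ⟨x, hx, ?_⟩
    rw [frontier_eq_closure_inter_closure]
    constructor
    · by_contra hc
      apply hx'
      right
      rw [interior_compl]
      exact hc
    · by_contra hc
      apply hx'
      left
      have : x ∈ (closure sᶜ)ᶜ := hc
      rw [closure_compl, compl_compl] at this
      exact this
  have hn1 : (t ∩ interior s).Nonempty := by
    obtain ⟨x, hxt, hxs⟩ := h1
    refine ⟨x, hxt, ?_⟩
    rcases hcov hxt with h | h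
    · exact h
    · exact absurd hxs (interior_subset h)
  have hn2 : (t ∩ interior sᶜ).Nonempty := by
    obtain ⟨x, hxt, hxs⟩ := h2
    refine ⟨x, hxt, ?_⟩
    rcases hcov hxt with h | h
    · exact absurd (interior_subset h) hxs
    · exact h
  obtain ⟨x, _, hx1, hx2⟩ := ht _ _ isOpen_interior isOpen_interior hcov hn1 hn2
  exact (interior_subset hx2) (interior_subset hx1)

/-- The exponentially small quantity is below half of its argument. -/
private theorem small_FinC {a u : ℝ} (ha : 0 < a) (hu : 0 < u) (hua : u ≤ a ^ 5 / 240) :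
    Real.exp (-(a / u)) ≤ u ^ 4 / 2 := by
  have hx : 0 ≤ a / u := by positivity
  have h1 := Real.pow_div_factorial_le_exp (x := a / u) hx 5
  have h5 : ((Nat.factorial 5 : ℕ) : ℝ) = 120 := by norm_num [Nat.factorial]
  rw [h5] at h1
  have hpos : 0 < (a / u) ^ 5 / 120 := by positivity
  rw [Real.exp_neg]
  have h2 : (Real.exp (a / u))⁻¹ ≤ ((a / u) ^ 5 / 120)⁻¹ := inv_anti₀ hpos h1
  refine h2.trans ?_
  have h3 : ((a / u) ^ 5 / 120)⁻¹ = 120 * u ^ 5 / a ^ 5 := by
    field_simp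
  rw [h3, div_le_iff₀ (by positivity)]
  have h4 : 240 * u ≤ a ^ 5 := by linarith
  have h6 : 0 ≤ u ^ 4 := by positivity
  nlinarith [mul_le_mul_of_nonneg_left h4 h6]

theorem hFinC (h1 : StFinA) (h2 : Helper85.HN.StTop) : StFinC := by
  obtain ⟨_, _, aH, δ, haH, hδ, hbox, _⟩ := h2
  set a : ℝ := aH / 2 with ha_def
  have ha : 0 < a := by positivity
  set r : ℝ := a ^ 5 / 240 with hr_def
  have hr : 0 < r := by positivity
  refine ⟨a, min 1 (min (δ / 16) (r ^ 4)), ha, by positivity, ?_⟩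
  rintro ε ⟨hε, hεlt⟩
  have hε1 : ε < 1 := lt_of_lt_of_le hεlt (min_le_left _ _)
  have hεδ : ε < δ / 16 := lt_of_lt_of_le hεlt ((min_le_right _ _).trans (min_le_left _ _))
  have hεr : ε < r ^ 4 := lt_of_lt_of_le hεlt ((min_le_right _ _).trans (min_le_right _ _))
  set u : ℝ := ε ^ (1 / 4 : ℝ) with hu_def
  have hu : 0 < u := Real.rpow_pos_of_pos hε _
  have hu4 : u ^ 4 = ε := by
    rw [hu_def, ← Real.rpow_natCast, ← Real.rpow_mul hε.le]
    norm_num
  have hur : u ≤ r := by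
    have : u ^ 4 < r ^ 4 := by rw [hu4]; exact hεr
    exact (lt_of_pow_lt_pow_left₀ 4 hr.le this).le
  set η : ℝ := Real.exp (-(a / u)) with hη_def
  have hη : 0 < η := Real.exp_pos _
  have hηε : η ≤ ε / 2 := by
    have := small_FinC ha hu hur
    rw [hu4] at this
    exact this
  -- points of `E0` at horizontal distance `η`
  have key : ∀ s : ℝ, |s| = η → ((1 + s, 1 - ε) : ℝ × ℝ) ∈ E0 := by
    intro s hs
    have hs1 : s ≤ η := by rw [← hs]; exact le_abs_self s
    have hs2 : -η ≤ s := by rw [← hs]; exact neg_abs_le s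
    have hsq : s ^ 2 = η ^ 2 := by rw [← hs, sq_abs]
    have he : (1 + (1 + s)) ^ 2 / 4 - (1 - ε) = ε + s + s ^ 2 / 4 := by ring
    have hηη : η ^ 2 ≤ ε := by nlinarith
    have hepos : 0 < (1 + (1 + s)) ^ 2 / 4 - (1 - ε) := by
      rw [he]; nlinarith [sq_nonneg s]
    have hele : (1 + (1 + s)) ^ 2 / 4 - (1 - ε) ≤ 16 * ε := by
      rw [he, hsq]; nlinarith
    apply hbox
    · have : 1 + s - 1 = s := by ring
      rw [this, hs]
      linarith
    · linarith
    · linarith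
    · have h11 : 1 + s - 1 = s := by ring
      rw [h11, hs, hη_def]
      apply Real.exp_le_exp.mpr
      apply neg_le_neg
      have hroot : ((1 + (1 + s)) ^ 2 / 4 - (1 - ε)) ^ (1 / 4 : ℝ) ≤ 2 * u := by
        have h16 : (16 * ε) ^ (1 / 4 : ℝ) = 2 * u := by
          rw [Real.mul_rpow (by norm_num) hε.le, ← hu_def]
          congr 1
          have : (16 : ℝ) = (2 : ℝ) ^ (4 : ℝ) := by norm_num
          rw [this, ← Real.rpow_mul (by norm_num)]
          norm_num
        rw [← h16]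
        exact Real.rpow_le_rpow hepos.le hele (by norm_num)
      have hrootpos : 0 < ((1 + (1 + s)) ^ 2 / 4 - (1 - ε)) ^ (1 / 4 : ℝ) := Real.rpow_pos_of_pos hepos _
      rw [ha_def, div_le_div_iff₀ hu hrootpos]
      nlinarith
  obtain ⟨δ', hδ', hnot⟩ := h1 (1 - ε) (by linarith)
  have hcenter : ((1, 1 - ε) : ℝ × ℝ) ∉ E0 := by
    apply hnot 1 (1 - ε)
    · simpa using hδ'
    · simpa using hδ'
  have hclos : ((1, 1 - ε) : ℝ × ℝ) ∉ frontier E0 := by
    intro hf
    have hcl : ((1, 1 - ε) : ℝ × ℝ) ∈ closure E0 := frontier_subset_closure hf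
    rw [Metric.mem_closure_iff] at hcl
    obtain ⟨q, hq, hdist⟩ := hcl δ' hδ'
    rw [dist_comm, Prod.dist_eq, max_lt_iff] at hdist
    have hd1 : |q.1 - 1| < δ' := hdist.1
    have hd2 : |q.2 - (1 - ε)| < δ' := hdist.2
    exact hnot q.1 q.2 hd1 hd2 hq
  have hcont : Continuous fun b : ℝ => ((b, 1 - ε) : ℝ × ℝ) := by fun_prop
  -- right
  have hright : ∃ b2, b2 ∈ Icc 1 (1 + η) ∧ ((b2, 1 - ε) : ℝ × ℝ) ∈ frontier E0 := by
    have hp : IsPreconnected ((fun b : ℝ => ((b, 1 - ε) : ℝ × ℝ)) '' Icc 1 (1 + η)) :=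
      isPreconnected_Icc.image _ hcont.continuousOn
    obtain ⟨x, hx, hxf⟩ := frontier_meets_FinC (s := E0) hp
      ⟨(1 + η, 1 - ε), ⟨1 + η, ⟨by linarith, le_refl _⟩, rfl⟩, key η (abs_of_pos hη)⟩
      ⟨(1, 1 - ε), ⟨1, ⟨le_refl _, by linarith⟩, rfl⟩, hcenter⟩
    obtain ⟨b, hb, rfl⟩ := hx
    exact ⟨b, hb, hxf⟩
  have hleft : ∃ b1, b1 ∈ Icc (1 - η) 1 ∧ ((b1, 1 - ε) : ℝ × ℝ) ∈ frontier E0 := by
    have hp : IsPreconnected ((fun b : ℝ => ((b, 1 - ε) : ℝ × ℝ)) '' Icc (1 - η) 1) :=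
      isPreconnected_Icc.image _ hcont.continuousOn
    have hk := key (-η) (by rw [abs_neg, abs_of_pos hη])
    rw [← sub_eq_add_neg] at hk
    obtain ⟨x, hx, hxf⟩ := frontier_meets_FinC (s := E0) hp
      ⟨(1 - η, 1 - ε), ⟨1 - η, ⟨le_refl _, by linarith⟩, rfl⟩, hk⟩
      ⟨(1, 1 - ε), ⟨1, ⟨by linarith, le_refl _⟩, rfl⟩, hcenter⟩
    obtain ⟨b, hb, rfl⟩ := hx
    exact ⟨b, hb, hxf⟩
  obtain ⟨b1, hb1, hf1⟩ := hleft
  obtain ⟨b2, hb2, hf2⟩ := hright
  refine ⟨b1, b2, ?_, ?_, hf1, hf2, ?_, ?_⟩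
  · rcases lt_or_eq_of_le hb1.2 with h | h
    · exact h
    · exact absurd (h ▸ hf1) hclos
  · rcases lt_or_eq_of_le hb2.1 with h | h
    · exact h
    · exact absurd (h.symm ▸ hf2) hclos
  · have := hb1.1
    show 1 - b1 ≤ η
    linarith
  · have := hb2.2
    show b2 - 1 ≤ η
    linarith

end Helper83.PE

end
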