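import Pool.Agent.Helper83.PE.St

set_option autoImplicit false

open Set Filter Topology

namespace Helper83.PE

private lemma vv_hasDeriv_Fir (φ : ℂ → ℂ) (hd : Differentiable ℂ φ) (t : ℝ) :
    HasDerivAt (vv φ) (deriv φ (t : ℂ)).re t :=
  (hd (t : ℂ)).hasDerivAt.real_of_complex

private lemma vv_cont_Fir (φ : ℂ → ℂ) (hd : Differentiable ℂ φ) : Continuous (vv φ) :=
  continuous_iff_continuousAt.2 fun t => (vv_hasDeriv_Fir φ hd t).continuousAt

private lemma vv_eq_Fir (lam : ℝ) (φ : ℂ → ℂ) (h : UPar lam φ) (t : ℝ) :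
    vv φ (lam * t) + vv φ (t / lam) = vv φ t ^ 2 + cc lam := by
  obtain ⟨-, -, -, he, hr⟩ := h
  have h1 := congrArg Complex.re (he (t : ℂ))
  rw [Complex.add_re, Complex.add_re, Complex.ofReal_re] at h1
  have h2 : (φ (t : ℂ) ^ 2).re = (φ (t : ℂ)).re ^ 2 := by
    rw [pow_two, Complex.mul_re, hr t]
    ring
  rw [h2] at h1
  unfold vv
  push_cast
  exact h1

private lemma pp_gt_Fir (lam : ℝ) (h : 1 < lam) : 1 < pp lam := by
  have h0 : 0 < lam := by linarith
  have h1 : pp lam - 1 = (lam - 1) ^ 2 / (2 * lam) := by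
    unfold pp
    field_simp
    ring
  have h2 : 0 < (lam - 1) ^ 2 / (2 * lam) := by
    have : 0 < lam - 1 := by linarith
    positivity
  linarith

private lemma div_neg_iff_of_pos_right_Fir {a b : ℝ} (hb : 0 < b) : a / b < 0 ↔ a < 0 := by
  rw [div_lt_iff₀ hb, zero_mul]

/-- the contradiction for strictly decreasing orbits -/
private lemma seq_Fir (p c : ℝ) (x : ℕ → ℝ) (hp : 1 < p) (hc : c = 2 * p - p ^ 2)
    (hx : ∀ n, x (n + 2) + x n = x (n + 1) ^ 2 + c) (hd : ∀ n, x (n + 1) < x n)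
    (h0 : x 0 < p) : False := by
  have hanti : StrictAnti x := strictAnti_nat_of_succ_lt hd
  have hxp : ∀ n, x n < p := fun n => lt_of_le_of_lt (hanti.antitone (Nat.zero_le n)) h0
  have hD : ∀ n, (x (n + 2) - x (n + 1)) - (x (n + 1) - x n) = (x (n + 1) - 1) ^ 2 - (p - 1) ^ 2 := by
    intro n
    have := hx n
    rw [hc] at this
    linear_combination this
  by_cases hcase : ∀ n, -(p - 1) < x n - 1
  · have h1 : ∀ n, x (n + 1) - x n ≤ x 1 - x 0 := by
      intro n
      induction n with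
      | zero => exact le_refl _
      | succ k ih =>
        have h2 := hD k
        have h3 : (x (k + 1) - 1) ^ 2 < (p - 1) ^ 2 := by
          have ha := hcase (k + 1)
          have hb := hxp (k + 1)
          nlinarith
        have h4 : x (k + 1 + 1) - x (k + 1) = x (k + 2) - x (k + 1) := rfl
        linarith
    have h2 : ∀ n : ℕ, x n ≤ x 0 + n * (x 1 - x 0) := by
      intro n
      induction n with
      | zero => simp
      | succ k ih =>
        have := h1 k
        push_cast
        linarith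
    have h3 : x 1 - x 0 < 0 := by linarith [hd 0]
    obtain ⟨n, hn⟩ := exists_nat_gt ((x 0 - 1 + (p - 1)) / (x 0 - x 1))
    have h4 : 0 < x 0 - x 1 := by linarith
    rw [div_lt_iff₀ h4] at hn
    have h5 := h2 n
    have h6 := hcase n
    nlinarith
  · push Not at hcase
    obtain ⟨N, hN⟩ := hcase
    have h1 : x (N + 1) - 1 < -(p - 1) := by linarith [hd N]
    have h2 : ∀ k, (x (N + 1) - 1) ^ 2 - (p - 1) ^ 2
        ≤ (x (N + k + 2) - x (N + k + 1)) - (x (N + k + 1) - x (N + k)) := by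
      intro k
      rw [hD (N + k)]
      have h3 : x (N + k + 1) ≤ x (N + 1) := hanti.antitone (by omega)
      nlinarith
    have h3 : ∀ k : ℕ, (x (N + 1) - x N) + k * ((x (N + 1) - 1) ^ 2 - (p - 1) ^ 2)
        ≤ x (N + k + 1) - x (N + k) := by
      intro k
      induction k with
      | zero => simp
      | succ k ih =>
        have h4 := h2 k
        have h5 : x (N + (k + 1) + 1) - x (N + (k + 1)) = x (N + k + 2) - x (N + k + 1) := rfl
        rw [h5]
        push_cast
        linarith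
    have h4 : 0 < (x (N + 1) - 1) ^ 2 - (p - 1) ^ 2 := by nlinarith
    obtain ⟨k, hk⟩ := exists_nat_gt ((x N - x (N + 1)) / ((x (N + 1) - 1) ^ 2 - (p - 1) ^ 2))
    rw [div_lt_iff₀ h4] at hk
    have h5 := h3 k
    have h6 := hd (N + k)
    linarith

theorem hFir : StFir := by
  intro lam φ hlam hU
  have hd := hU.1
  have hcont := vv_cont_Fir φ hd
  have heq := vv_eq_Fir lam φ hU
  have hlam0 : 0 < lam := by linarith
  have hv0 : vv φ 0 = pp lam := by
    unfold vv
    rw [Complex.ofReal_zero, hU.2.1, Complex.ofReal_re]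
  have hvd : HasDerivAt (vv φ) (-1) 0 := by
    have h1 := vv_hasDeriv_Fir φ hd 0
    rw [Complex.ofReal_zero, hU.2.2.1] at h1
    simpa using h1
  have hwc : Continuous (fun t => vv φ (lam * t) - vv φ t) :=
    (hcont.comp (continuous_const.mul continuous_id)).sub hcont
  -- small `t`
  obtain ⟨δ, hδ, hsmall⟩ : ∃ δ > 0, ∀ t, 0 < t → t < δ → vv φ (lam * t) < vv φ t := by
    have h1 : HasDerivAt (fun t => vv φ (lam * t) - vv φ t) (-1 * (lam * 1) - (-1)) 0 := by
      have h2 : HasDerivAt (fun t : ℝ => lam * t) (lam * 1) 0 := (hasDerivAt_id 0).const_mul lam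
      have h3 : HasDerivAt (vv φ) (-1) (lam * 0) := by rw [mul_zero]; exact hvd
      exact (h3.comp (0 : ℝ) h2).sub hvd
    rw [hasDerivAt_iff_tendsto_slope] at h1
    have h4 : (-1 * (lam * 1) - (-1) : ℝ) < 0 := by linarith
    have h5 := h1.eventually (gt_mem_nhds h4)
    rw [eventually_nhdsWithin_iff] at h5
    obtain ⟨δ, hδ, h6⟩ := Metric.eventually_nhds_iff.1 h5
    refine ⟨δ, hδ, fun t ht htδ => ?_⟩
    have h7 := h6 (y := t) (by rw [Real.dist_eq, sub_zero, abs_of_pos ht]; exact htδ) ht.ne'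
    rw [slope_def_field, mul_zero, sub_self, sub_zero, sub_zero] at h7
    have h8 := (div_neg_iff_of_pos_right_Fir ht).1 h7
    linarith
  -- existence
  obtain ⟨t₁, ht₁, ht₁'⟩ : ∃ t, 0 < t ∧ vv φ t ≤ vv φ (lam * t) := by
    by_contra hcon
    push Not at hcon
    refine seq_Fir (pp lam) (cc lam) (fun n => vv φ (lam ^ n)) (pp_gt_Fir lam hlam) rfl ?_ ?_ ?_
    · intro n
      have h1 := heq (lam ^ (n + 1))
      have h2 : lam * lam ^ (n + 1) = lam ^ (n + 2) := by ring
      have h3 : lam ^ (n + 1) / lam = lam ^ n := by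
        rw [pow_succ]; field_simp
      rw [h2, h3] at h1
      exact h1
    · intro n
      have h1 := hcon (lam ^ n) (by positivity)
      have h2 : lam * lam ^ n = lam ^ (n + 1) := by ring
      rw [h2] at h1
      exact h1
    · have hmono : StrictMono (fun k : ℕ => vv φ ((lam⁻¹) ^ k)) := by
        refine strictMono_nat_of_lt_succ fun k => ?_
        have h1 := hcon ((lam⁻¹) ^ (k + 1)) (by positivity)
        have h2 : lam * (lam⁻¹) ^ (k + 1) = (lam⁻¹) ^ k := by
          rw [pow_succ]; field_simp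
        rw [h2] at h1
        exact h1
      have htend : Tendsto (fun k : ℕ => vv φ ((lam⁻¹) ^ k)) atTop (𝓝 (pp lam)) := by
        have h1 : Tendsto (fun k : ℕ => (lam⁻¹) ^ k) atTop (𝓝 0) :=
          tendsto_pow_atTop_nhds_zero_of_lt_one (by positivity) (inv_lt_one_of_one_lt₀ hlam)
        have h2 := (hcont.tendsto 0).comp h1
        rw [hv0] at h2
        exact h2
      have h1 := hmono (Nat.zero_lt_one)
      have h2 := hmono.monotone.ge_of_tendsto htend 1
      simp only [pow_zero] at h1 ⊢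
      linarith
  -- the first one
  have hSc : IsClosed {t | δ ≤ t ∧ vv φ t ≤ vv φ (lam * t)} :=
    (isClosed_le continuous_const continuous_id).inter
      (isClosed_le hcont (hcont.comp (continuous_const.mul continuous_id)))
  have hSn : ({t | δ ≤ t ∧ vv φ t ≤ vv φ (lam * t)} : Set ℝ).Nonempty := by
    refine ⟨t₁, ?_, ht₁'⟩
    by_contra hlt
    rw [not_le] at hlt
    have := hsmall t₁ ht₁ hlt
    linarith
  have hSb : BddBelow {t | δ ≤ t ∧ vv φ t ≤ vv φ (lam * t)} := ⟨δ, fun t ht => ht.1⟩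
  obtain ⟨T, hT⟩ : ∃ T, T = sInf {t | δ ≤ t ∧ vv φ t ≤ vv φ (lam * t)} := ⟨_, rfl⟩
  have hTm : δ ≤ T ∧ vv φ T ≤ vv φ (lam * T) := by
    rw [hT]
    exact hSc.csInf_mem hSn hSb
  have hT0 : 0 < T := lt_of_lt_of_le hδ hTm.1
  have hlt : ∀ t, 0 < t → t < T → vv φ (lam * t) < vv φ t := by
    intro t ht htT
    by_cases h1 : t < δ
    · exact hsmall t ht h1
    · rw [not_lt] at h1
      by_contra h2
      rw [not_lt] at h2
      have h3 : T ≤ t := by
        rw [hT]
        exact csInf_le hSb ⟨h1, h2⟩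
      linarith
  refine ⟨T, hT0, le_antisymm ?_ hTm.2, hlt⟩
  have h1 : Tendsto (fun t => vv φ (lam * t) - vv φ t) (𝓝[<] T)
      (𝓝 (vv φ (lam * T) - vv φ T)) := (hwc.tendsto T).mono_left nhdsWithin_le_nhds
  have h2 : ∀ᶠ t in 𝓝[<] T, vv φ (lam * t) - vv φ t ≤ 0 := by
    filter_upwards [Ioo_mem_nhdsLT hT0] with t ht
    have := hlt t ht.1 ht.2
    linarith
  have h3 := le_of_tendsto h1 h2
  linarith

end Helper83.PE
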