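import Pool.Agent.Helper83.PE.St

set_option autoImplicit false

open Set Filter Topology

namespace Helper83.PE

private lemma vv_hasDeriv_Gra (φ : ℂ → ℂ) (hd : Differentiable ℂ φ) (t : ℝ) :
    HasDerivAt (vv φ) (deriv φ (t : ℂ)).re t :=
  (hd (t : ℂ)).hasDerivAt.real_of_complex

private lemma vv_cd_Gra (φ : ℂ → ℂ) (hd : Differentiable ℂ φ) : ContDiff ℝ 1 (vv φ) := by
  have h1 : ContDiff ℂ 1 φ := hd.contDiff
  have h2 : ContDiff ℝ 1 φ := h1.restrict_scalars ℝ
  have h3 : ContDiff ℝ 1 (fun t : ℝ => (t : ℂ)) := Complex.ofRealCLM.contDiff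
  have h4 : ContDiff ℝ 1 (fun z : ℂ => z.re) := Complex.reCLM.contDiff
  exact h4.comp (h2.comp h3)

private lemma den_Gra (lam : ℝ) (h : 1 < lam) : 0 < 1 - (lam⁻¹) ^ 2 := by
  have h1 : lam⁻¹ < 1 := inv_lt_one_of_one_lt₀ h
  have h2 : 0 < lam⁻¹ := inv_pos.2 (by linarith)
  nlinarith

/-- MODULE Gra -/
theorem hGra : StGra := by
  intro lam φ hlam hU
  obtain ⟨hd, h0, h1, -, -⟩ := hU
  have hl0 : lam ≠ 0 := by linarith
  have hden := den_Gra lam hlam
  have hcd := vv_cd_Gra φ hd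
  have hv0 : vv φ 0 = pp lam := by
    unfold vv
    rw [Complex.ofReal_zero, h0, Complex.ofReal_re]
  have hvd : HasDerivAt (vv φ) (-1) 0 := by
    have h2 := vv_hasDeriv_Gra φ hd 0
    rw [Complex.ofReal_zero, h1] at h2
    simpa using h2
  have hvd2 : HasDerivAt (fun t => vv φ (t / lam)) (-1 / lam) 0 := by
    have h2 : HasDerivAt (fun t : ℝ => t / lam) (1 / lam) 0 := (hasDerivAt_id (0 : ℝ)).div_const lam
    have h3 : HasDerivAt (vv φ) (-1) ((fun t : ℝ => t / lam) 0) := by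
      simpa using hvd
    have h4 := h3.comp (0 : ℝ) h2
    have h5 : (-1 : ℝ) * (1 / lam) = -1 / lam := by ring
    rw [h5] at h4
    exact h4
  set al : ℝ → ℝ := fun t => xi lam (Wu lam φ t) with hal
  set be : ℝ → ℝ := fun t => et lam (Wu lam φ t) with hbe
  have hcd2 : ContDiff ℝ 1 (fun t => vv φ (t / lam)) := hcd.comp (contDiff_id.div_const lam)
  have alcd : ContDiff ℝ 1 al := by
    have h2 : al = fun t => -((vv φ t - pp lam) - (vv φ (t / lam) - pp lam) / lam)
        / (1 - (lam⁻¹) ^ 2) := rfl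
    rw [h2]
    exact (((hcd.sub contDiff_const).sub ((hcd2.sub contDiff_const).div_const lam)).neg).div_const _
  have becd : ContDiff ℝ 1 be := by
    have h2 : be = fun t => -((vv φ (t / lam) - pp lam) - (vv φ t - pp lam) / lam)
        / (1 - (lam⁻¹) ^ 2) := rfl
    rw [h2]
    exact (((hcd2.sub contDiff_const).sub ((hcd.sub contDiff_const).div_const lam)).neg).div_const _
  have al0 : al 0 = 0 := by
    show -((vv φ 0 - pp lam) - (vv φ (0 / lam) - pp lam) / lam) / (1 - (lam⁻¹) ^ 2) = 0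
    rw [zero_div, hv0]
    simp
  have be0 : be 0 = 0 := by
    show -((vv φ (0 / lam) - pp lam) - (vv φ 0 - pp lam) / lam) / (1 - (lam⁻¹) ^ 2) = 0
    rw [zero_div, hv0]
    simp
  have ald : HasDerivAt al 1 0 := by
    have h2 := ((((hvd.sub_const (pp lam)).sub ((hvd2.sub_const (pp lam)).div_const lam)).neg).div_const
      (1 - (lam⁻¹) ^ 2))
    have h3 : -(-1 - -1 / lam / lam) / (1 - (lam⁻¹) ^ 2) = 1 := by
      rw [div_eq_one_iff_eq hden.ne']
      field_simp
      ring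
    rw [h3] at h2
    exact h2
  have bed : HasDerivAt be 0 0 := by
    have h2 := ((((hvd2.sub_const (pp lam)).sub ((hvd.sub_const (pp lam)).div_const lam)).neg).div_const
      (1 - (lam⁻¹) ^ 2))
    have h3 : -(-1 / lam - -1 / lam) / (1 - (lam⁻¹) ^ 2) = 0 := by
      simp
    rw [h3] at h2
    exact h2
  have hcon : Continuous (deriv al) := alcd.continuous_deriv le_rfl
  -- the inverse function theorem
  have hF : HasFDerivAt al ((ContinuousLinearEquiv.refl ℝ ℝ : ℝ ≃L[ℝ] ℝ) : ℝ →L[ℝ] ℝ) 0 := by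
    rw [hasFDerivAt_iff_hasDerivAt]
    simpa using ald
  set e := alcd.contDiffAt.toOpenPartialHomeomorph al hF one_ne_zero with he
  have hes : (0 : ℝ) ∈ e.source := alcd.contDiffAt.mem_toOpenPartialHomeomorph_source hF one_ne_zero
  have hec : ∀ t, e t = al t := fun t => by
    rw [he, ContDiffAt.toOpenPartialHomeomorph_coe]
  have het : (0 : ℝ) ∈ e.target := by
    have h2 := e.map_source hes
    rw [hec, al0] at h2
    exact h2
  have hs0 : e.symm 0 = 0 := by
    have h2 := e.left_inv hes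
    rw [hec, al0] at h2
    exact h2
  have hA : IsOpen (e.source ∩ {t | 0 < deriv al t}) :=
    e.open_source.inter (isOpen_lt continuous_const hcon)
  have hA0 : (0 : ℝ) ∈ e.source ∩ {t | 0 < deriv al t} := by
    refine ⟨hes, ?_⟩
    show 0 < deriv al 0
    rw [ald.deriv]
    exact one_pos
  obtain ⟨r, hr, hrA⟩ := Metric.isOpen_iff.1 hA 0 hA0
  rw [Real.ball_eq_Ioo, zero_sub, zero_add] at hrA
  have hB : IsOpen (e.target ∩ e.symm ⁻¹' (Ioo (-r) r)) := e.symm.isOpen_inter_preimage isOpen_Ioo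
  have hB0 : (0 : ℝ) ∈ e.target ∩ e.symm ⁻¹' (Ioo (-r) r) := by
    refine ⟨het, ?_⟩
    rw [mem_preimage, hs0]
    exact ⟨by linarith, hr⟩
  obtain ⟨ρ, hρ, hρB⟩ := Metric.isOpen_iff.1 hB 0 hB0
  rw [Real.ball_eq_Ioo, zero_sub, zero_add] at hρB
  have hC : IsOpen (al ⁻¹' (Ioo (-ρ) ρ)) := isOpen_Ioo.preimage alcd.continuous
  have hC0 : (0 : ℝ) ∈ al ⁻¹' (Ioo (-ρ) ρ) := by
    rw [mem_preimage, al0]
    exact ⟨by linarith, hρ⟩
  obtain ⟨r2, hr2, hr2C⟩ := Metric.isOpen_iff.1 hC 0 hC0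
  rw [Real.ball_eq_Ioo, zero_sub, zero_add] at hr2C
  set t0 := min r r2 with ht0
  have ht0p : 0 < t0 := lt_min hr hr2
  have hsub1 : Ioo (-t0) t0 ⊆ Ioo (-r) r := Ioo_subset_Ioo (neg_le_neg (min_le_left _ _)) (min_le_left _ _)
  have hsub2 : Ioo (-t0) t0 ⊆ Ioo (-r2) r2 :=
    Ioo_subset_Ioo (neg_le_neg (min_le_right _ _)) (min_le_right _ _)
  have hmono : StrictMonoOn al (Ioo (-t0) t0) := by
    refine strictMonoOn_of_deriv_pos (convex_Ioo _ _) alcd.continuous.continuousOn ?_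
    intro t ht
    rw [interior_Ioo] at ht
    exact (hrA (hsub1 ht)).2
  have m1 : t0 / 2 ∈ Ioo (-t0) t0 := ⟨by linarith, by linarith⟩
  have m2 : -(t0 / 2) ∈ Ioo (-t0) t0 := ⟨by linarith, by linarith⟩
  have m0 : (0 : ℝ) ∈ Ioo (-t0) t0 := ⟨by linarith, by linarith⟩
  have p1 : 0 < al (t0 / 2) := by
    have := hmono m0 m1 (by linarith)
    rwa [al0] at this
  have p2 : al (-(t0 / 2)) < 0 := by
    have := hmono m2 m0 (by linarith)
    rwa [al0] at this
  refine ⟨fun x => be (e.symm x), ρ, min (al (t0 / 2)) (-al (-(t0 / 2))), t0, ?_⟩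
  refine
    { hρ := lt_min p1 (by linarith)
      hρ' := (min_le_left _ _).trans (hr2C (hsub2 m1)).2.le
      ht := ht0p
      cd := ?_
      w0 := ?_
      dw0 := ?_
      mono := hmono
      on := ?_
      onto := ?_ }
  · intro x hx
    have h2 := hρB hx
    have h3 := hrA h2.2
    have h4 : HasDerivAt e (deriv al (e.symm x)) (e.symm x) := by
      have h5 : HasDerivAt al (deriv al (e.symm x)) (e.symm x) :=
        (alcd.differentiable one_ne_zero _).hasDerivAt
      have h6 : (e : ℝ → ℝ) = al := funext hec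
      rw [h6]
      exact h5
    have h7 : ContDiffAt ℝ 1 e (e.symm x) := by
      have h6 : (e : ℝ → ℝ) = al := funext hec
      rw [h6]
      exact alcd.contDiffAt
    have h8 : ContDiffAt ℝ 1 e.symm x :=
      e.contDiffAt_symm_deriv (ne_of_gt h3.2) h2.1 h4 h7
    exact becd.contDiffAt.comp x h8
  · show be (e.symm 0) = 0
    rw [hs0, be0]
  · have h4 : HasDerivAt e (deriv al 0) (e.symm 0) := by
      rw [hs0]
      have h6 : (e : ℝ → ℝ) = al := funext hec
      rw [h6]
      exact (alcd.differentiable one_ne_zero _).hasDerivAt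
    have h5 : deriv al 0 ≠ 0 := by
      rw [ald.deriv]
      exact one_ne_zero
    have h8 := e.hasDerivAt_symm het h5 h4
    have h9 : HasDerivAt be 0 (e.symm 0) := by
      rw [hs0]
      exact bed
    have h10 := h9.comp (0 : ℝ) h8
    rw [zero_mul] at h10
    exact h10.deriv
  · intro t ht
    refine ⟨hr2C (hsub2 ht), ?_⟩
    show be t = be (e.symm (al t))
    have h2 := e.left_inv (hrA (hsub1 ht)).1
    rw [hec] at h2
    rw [h2]
  · intro x hx
    have h2 : -(t0 / 2) ≤ t0 / 2 := by linarith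
    have h3 := intermediate_value_Icc h2 (alcd.continuous.continuousOn (s := Icc (-(t0 / 2)) (t0 / 2)))
    have h4 : x ∈ Icc (al (-(t0 / 2))) (al (t0 / 2)) := by
      have h5 := hx.1
      have h6 := hx.2
      have h7 := min_le_left (al (t0 / 2)) (-al (-(t0 / 2)))
      have h8 := min_le_right (al (t0 / 2)) (-al (-(t0 / 2)))
      exact ⟨by linarith, by linarith⟩
    obtain ⟨t, ht, htx⟩ := h3 h4
    exact ⟨t, ⟨by linarith [ht.1], by linarith [ht.2]⟩, htx⟩

end Helper83.PE
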