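import Pool.Agent.Helper83.PE.St

set_option autoImplicit false

open Set Filter Topology
open Helper85.HN (hen Orb Bd KK E0)

noncomputable section

namespace Helper83.PE

theorem hNbd (h1 : StPhi) (h2 : StFir) (h3 : StTra) (h4 : StBox) (h5 : StQ) (h6 : StRect) (h7 : StCov) (h8 : StSta)
    (h9 : StWord) (h10 : StBi) (h11 : StEnt) (h12 : Helper85.HN.StKc) : StNbd := by
  intro lam hl
  obtain ⟨φ, hφ⟩ := h1 lam hl
  obtain ⟨T, hT⟩ := h2 lam φ hl hφ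
  obtain ⟨ht1, ht2⟩ := h3 lam φ T hl hφ hT
  obtain ⟨N, X, Y, r, l, L, t0, hB⟩ := h4 lam φ hl hφ
  obtain ⟨tA, m, hC⟩ := h5 lam φ T hl hφ hT ht1 ht2 N X Y r l L t0 hB
  obtain ⟨am, ap, bm, bp, ε, ρ, hR⟩ := h6 lam φ N X Y r l L t0 tA m hl hφ hB hC
  obtain ⟨m1, hm1, hcov⟩ := h7 lam φ N X Y r l L t0 m am ap bm bp ε ρ hl hB hR
  obtain ⟨E', δ, hδ, hE', hD, hDE, hst⟩ := h8 lam φ N X Y r l L t0 am ap bm bp ε m1 (m1 + 1) hl hB hR.h1 hR.h2 hR.h3 hR.h4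
    hR.h5 hR.h6 hR.h7 hR.h8 hcov
  refine ⟨min δ 1, lt_min hδ one_pos, fun b c hb hc => ?_⟩
  have hb0 : b ≠ 0 := by
    rintro rfl
    have : |(0 : ℝ) - 1| < 1 := lt_of_lt_of_le hb (min_le_right _ _)
    norm_num at this
  have hcv := hst b c (lt_of_lt_of_le hb (min_le_left _ _)) (lt_of_lt_of_le hc (min_le_left _ _))
  have hw := h9 (hen b c) X (win N X Y am ap ε) E' am ap m1 (m1 + 1) hcv hR.i
  have hbi := h10 b c (win N X Y am ap ε) E' m1 (m1 + 1) hb0 hm1 hD hE' hw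
  exact h11 (hen b c) (KK b c) (win N X Y am ap ε) E' m1 (m1 + (m1 + 1)) (by omega) (by omega) (h12 b c).2.2.1 hD hE' hDE hbi

end Helper83.PE
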