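import Pool.Agent.Helper83.PE.St

set_option autoImplicit false

open Set Filter Topology

namespace Helper83.PE

theorem hOdd (h1 : StUsh) : StOdd := by
  intro lam φ T hlam hφ hT hd1 hd2
  have hφ' := hφ
  obtain ⟨hdiff, -, -, -, hre⟩ := hφ
  obtain ⟨hT0, hTe, -⟩ := hT
  have hlam0 : (0 : ℝ) < lam := by linarith
  have hlamC : (lam : ℂ) ≠ 0 := by exact_mod_cast hlam0.ne'
  set tq : ℝ := lam * T with htq
  have htq0 : 0 < tq := mul_pos hlam0 hT0
  have htqT : tq / lam = T := by rw [htq]; field_simp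
  have hvv : ∀ t : ℝ, φ (t : ℂ) = ((vv φ t : ℝ) : ℂ) := by
    intro t
    apply Complex.ext
    · simp [vv]
    · rw [hre t]; simp
  have hdivc : ∀ t : ℝ, (t : ℂ) / (lam : ℂ) = ((t / lam : ℝ) : ℂ) := by
    intro t; push_cast; rfl
  -- the complex functions
  set Dc : ℂ → ℂ := fun z => φ z - φ (z / (lam : ℂ)) with hDc
  set Sc : ℂ → ℂ := fun z => φ z + φ (z / (lam : ℂ)) with hSc
  have hdiv : Differentiable ℂ (fun z : ℂ => z / (lam : ℂ)) := differentiable_id.div_const _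
  have hDd : Differentiable ℂ Dc := hdiff.sub (hdiff.comp hdiv)
  have hSd : Differentiable ℂ Sc := hdiff.add (hdiff.comp hdiv)
  have hDr : ∀ t : ℝ, Dc (t : ℂ) = ((vv φ t - vv φ (t / lam) : ℝ) : ℂ) := by
    intro t
    simp only [hDc]
    rw [hdivc, hvv, hvv]
    push_cast
    rfl
  have hSr : ∀ t : ℝ, Sc (t : ℂ) = ((vv φ t + vv φ (t / lam) : ℝ) : ℂ) := by
    intro t
    simp only [hSc]
    rw [hdivc, hvv, hvv]
    push_cast
    rfl
  have hD0 : Dc (tq : ℂ) = 0 := by
    rw [hDr, htqT, htq, hTe]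
    simp
  -- real derivative
  have hstr : HasStrictDerivAt Dc (deriv Dc (tq : ℂ)) (tq : ℂ) :=
    (hDd.analyticAt _).hasStrictDerivAt
  have hstrR : HasStrictDerivAt (fun t : ℝ => vv φ t - vv φ (t / lam)) (deriv Dc (tq : ℂ)).re tq := by
    have h2 := hstr.real_of_complex
    have e : (fun t : ℝ => (Dc (t : ℂ)).re) = fun t : ℝ => vv φ t - vv φ (t / lam) := by
      funext t
      rw [hDr, Complex.ofReal_re]
    rwa [e] at h2
  have hvd : ∀ t : ℝ, HasDerivAt (vv φ) (deriv (vv φ) t) t := by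
    intro t
    have h2 : HasDerivAt (fun t : ℝ => (φ (t : ℂ)).re) (deriv φ (t : ℂ)).re t :=
      (hdiff (t : ℂ)).hasDerivAt.real_of_complex
    exact h2.differentiableAt.hasDerivAt
  have hcre : 0 < (deriv Dc (tq : ℂ)).re := by
    have h2 : HasDerivAt (fun t : ℝ => vv φ (t / lam)) (deriv (vv φ) (tq / lam) * (1 / lam)) tq := by
      have h5 : HasDerivAt (fun t : ℝ => t / lam) (1 / lam) tq := (hasDerivAt_id tq).div_const lam
      exact HasDerivAt.comp (h₂ := vv φ) (h := fun t : ℝ => t / lam) tq (hvd (tq / lam)) h5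
    have h3 := (hvd tq).sub h2
    have h4 := hstrR.hasDerivAt.unique h3
    rw [h4, htqT]
    have h5 : deriv (vv φ) T * (1 / lam) < 0 := mul_neg_of_neg_of_pos hd1 (by positivity)
    linarith
  have hcne : deriv Dc (tq : ℂ) ≠ 0 := by
    intro h
    rw [h] at hcre
    simp at hcre
  -- the local inverse
  obtain ⟨ι, hι, hleft, hright, hι0⟩ : ∃ ι : ℂ → ℂ, AnalyticAt ℂ ι 0 ∧
      (∀ᶠ z in 𝓝 (tq : ℂ), ι (Dc z) = z) ∧ (∀ᶠ w in 𝓝 (0 : ℂ), Dc (ι w) = w) ∧
      ι 0 = (tq : ℂ) := by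
    have hA := hDd.analyticAt (tq : ℂ)
    refine ⟨hA.hasStrictDerivAt.localInverse _ _ _ hcne, ?_, ?_, ?_, ?_⟩
    · have := hA.analyticAt_localInverse hcne
      rwa [hD0] at this
    · exact HasStrictDerivAt.eventually_left_inverse ..
    · have := HasStrictDerivAt.eventually_right_inverse hA.hasStrictDerivAt hcne
      rwa [hD0] at this
    · have := (HasStrictDerivAt.eventually_left_inverse hA.hasStrictDerivAt hcne).self_of_nhds
      rwa [hD0] at this
  set ψc : ℂ → ℂ := fun w => Sc (ι w) with hψc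
  have hψa : AnalyticAt ℂ ψc 0 := (hSd.analyticAt (ι 0)).comp hι
  set h : ℂ → ℂ := fun w => ψc w - ψc (-w) with hh
  have hha : AnalyticAt ℂ h 0 := by
    have h2 : AnalyticAt ℂ (fun w : ℂ => ψc (-w)) 0 := by
      have h3 : AnalyticAt ℂ (fun w : ℂ => -w) 0 := analyticAt_id.neg
      have h4 : AnalyticAt ℂ ψc ((fun w : ℂ => -w) 0) := by
        show AnalyticAt ℂ ψc (-0)
        rw [neg_zero]; exact hψa
      exact AnalyticAt.comp (g := ψc) (f := fun w : ℂ => -w) h4 h3
    exact hψa.sub h2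
  have hleftR : ∀ᶠ t : ℝ in 𝓝 tq, ι (Dc ((t : ℝ) : ℂ)) = (t : ℂ) :=
    (Complex.continuous_ofReal.tendsto tq).eventually hleft
  have hreal : ∀ᶠ d : ℝ in 𝓝 (0 : ℝ), (ψc (d : ℂ)).im = 0 := by
    have h2 := hstrR.map_nhds_eq hcre.ne'
    have h3 : vv φ tq - vv φ (tq / lam) = 0 := by
      rw [htqT, htq, hTe, sub_self]
    rw [h3] at h2
    rw [← h2, eventually_map]
    filter_upwards [hleftR] with t ht
    rw [← hDr]
    show (Sc (ι (Dc (t : ℂ)))).im = 0
    rw [ht, hSr, Complex.ofReal_im]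
  rcases hha.eventually_eq_zero_or_eventually_ne_zero with hz | hz
  · -- coincidence
    exfalso
    refine h1 lam φ hlam hφ' (tq : ℂ) (tq : ℂ) ⟨by exact_mod_cast htq0.ne', by
      exact_mod_cast htq0.ne', fun z => ι (-Dc z), ?_, ?_, ?_⟩
    · have h3 : AnalyticAt ℂ (fun z : ℂ => -Dc z) (tq : ℂ) := (hDd.analyticAt _).neg
      have h4 : AnalyticAt ℂ ι ((fun z : ℂ => -Dc z) (tq : ℂ)) := by
        show AnalyticAt ℂ ι (-Dc (tq : ℂ))
        rw [hD0, neg_zero]; exact hι
      exact AnalyticAt.comp (g := ι) (f := fun z : ℂ => -Dc z) h4 h3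
    · show ι (-Dc (tq : ℂ)) = _
      rw [hD0, neg_zero, hι0]
    · have hDt : Tendsto Dc (𝓝 (tq : ℂ)) (𝓝 0) := by
        have := hDd.continuous.tendsto (tq : ℂ)
        rwa [hD0] at this
      have hDtn : Tendsto (fun z => -Dc z) (𝓝 (tq : ℂ)) (𝓝 0) := by
        have := hDt.neg
        rwa [neg_zero] at this
      filter_upwards [hleft, hDtn.eventually hright, hDt.eventually hz] with z h2 h3 h4
      have h5 : Sc (ι (-Dc z)) = Sc z := by
        have h6 : ψc (Dc z) - ψc (-Dc z) = 0 := h4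
        have h7 : ψc (Dc z) = Sc z := by
          show Sc (ι (Dc z)) = Sc z
          rw [h2]
        rw [h7] at h6
        exact (sub_eq_zero.1 h6).symm
      have h6 : φ (ι (-Dc z)) - φ (ι (-Dc z) / (lam : ℂ)) = -(φ z - φ (z / (lam : ℂ))) := h3
      have h7 : φ (ι (-Dc z)) + φ (ι (-Dc z) / (lam : ℂ)) = φ z + φ (z / (lam : ℂ)) := h5
      constructor
      · linear_combination (-1 / 2 : ℂ) * h7 + (1 / 2 : ℂ) * h6
      · linear_combination (-1 / 2 : ℂ) * h7 - (1 / 2 : ℂ) * h6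
  · -- isolated zero
    have hA1 : ∀ᶠ d : ℝ in 𝓝[>] (0 : ℝ), h (d : ℂ) ≠ 0 := by
      have h2 : Tendsto (fun d : ℝ => (d : ℂ)) (𝓝[>] (0 : ℝ)) (𝓝[≠] (0 : ℂ)) := by
        rw [tendsto_nhdsWithin_iff]
        constructor
        · have := Complex.continuous_ofReal.tendsto (0 : ℝ)
          rw [Complex.ofReal_zero] at this
          exact this.mono_left nhdsWithin_le_nhds
        · filter_upwards [self_mem_nhdsWithin] with d hd
          have h3 : (0 : ℝ) < d := hd
          show (d : ℂ) ∈ ({0}ᶜ : Set ℂ)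
          simp [h3.ne']
      exact h2.eventually hz
    have hneg : Tendsto (fun d : ℝ => -d) (𝓝 (0 : ℝ)) (𝓝 0) := by
      have := (continuous_neg (G := ℝ)).tendsto 0
      rwa [neg_zero] at this
    have hA2 : ∀ᶠ d : ℝ in 𝓝 (0 : ℝ), (h (d : ℂ)).im = 0 := by
      filter_upwards [hreal, hneg.eventually hreal] with d h2 h3
      show (ψc (d : ℂ) - ψc (-(d : ℂ))).im = 0
      rw [Complex.sub_im, h2]
      rw [Complex.ofReal_neg] at h3
      rw [h3, sub_zero]
    have hA3 : ∀ᶠ d : ℝ in 𝓝 (0 : ℝ), AnalyticAt ℂ h (d : ℂ) := by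
      have h2 := Complex.continuous_ofReal.tendsto (0 : ℝ)
      rw [Complex.ofReal_zero] at h2
      exact h2.eventually hha.eventually_analyticAt
    have hall : ∀ᶠ d : ℝ in 𝓝[>] (0 : ℝ), h (d : ℂ) ≠ 0 ∧ (h (d : ℂ)).im = 0 ∧
        AnalyticAt ℂ h (d : ℂ) :=
      hA1.and ((hA2.filter_mono nhdsWithin_le_nhds).and (hA3.filter_mono nhdsWithin_le_nhds))
    obtain ⟨ρ, hρ, hρs⟩ := mem_nhdsGT_iff_exists_Ioo_subset.1 hall
    have hρ0 : (0 : ℝ) < ρ := hρ
    have hgdef : ∀ d : ℝ, (ψc (d : ℂ)).re - (ψc ((-d : ℝ) : ℂ)).re = (h (d : ℂ)).re := by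
      intro d
      show _ = (ψc (d : ℂ) - ψc (-(d : ℂ))).re
      rw [Complex.sub_re, Complex.ofReal_neg]
    have hne : ∀ d ∈ Ioo (0 : ℝ) ρ, (h (d : ℂ)).re ≠ 0 := by
      intro d hd h2
      obtain ⟨h3, h4, -⟩ := hρs hd
      exact h3 (Complex.ext h2 h4)
    have hcont : ContinuousOn (fun d : ℝ => (h (d : ℂ)).re) (Ioo 0 ρ) := by
      intro d hd
      obtain ⟨-, -, h5⟩ := hρs hd
      have h6 : ContinuousAt (fun d : ℝ => h (d : ℂ)) d :=
        ContinuousAt.comp (f := fun d : ℝ => (d : ℂ)) (g := h) h5.continuousAt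
          Complex.continuous_ofReal.continuousAt
      exact (Complex.continuous_re.continuousAt.comp h6).continuousWithinAt
    refine ⟨fun d => (ψc (d : ℂ)).re, ρ, hρ0, ?_, ?_⟩
    · filter_upwards [hleftR] with t ht
      show _ = (ψc ((vv φ t - vv φ (t / lam) : ℝ) : ℂ)).re
      rw [← hDr]
      show _ = (Sc (ι (Dc (t : ℂ)))).re
      rw [ht, hSr, Complex.ofReal_re]
    · have hmid : ρ / 2 ∈ Ioo (0 : ℝ) ρ := ⟨by linarith, by linarith⟩
      have hivt : ∀ d ∈ Ioo (0 : ℝ) ρ, 0 < (h ((ρ / 2 : ℝ) : ℂ)).re * (h (d : ℂ)).re := by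
        intro d hd
        have hsub : uIcc (ρ / 2) d ⊆ Ioo (0 : ℝ) ρ := by
          intro x hx
          rw [mem_uIcc] at hx
          obtain ⟨h2, h3⟩ := hd
          rcases hx with h4 | h4
          · exact ⟨by linarith [h4.1], by linarith [h4.2]⟩
          · exact ⟨by linarith [h4.1], by linarith [h4.2]⟩
        by_contra hneg2
        push Not at hneg2
        have h2 : (0 : ℝ) ∈ uIcc (h ((ρ / 2 : ℝ) : ℂ)).re (h (d : ℂ)).re := by
          rw [mem_uIcc]
          rcases le_or_gt (h ((ρ / 2 : ℝ) : ℂ)).re 0 with h3 | h3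
          · left
            refine ⟨h3, ?_⟩
            by_contra h4
            push Not at h4
            have h5 : (h ((ρ / 2 : ℝ) : ℂ)).re < 0 := lt_of_le_of_ne h3 (hne _ hmid)
            nlinarith [mul_pos_of_neg_of_neg h5 h4]
          · right
            refine ⟨?_, h3.le⟩
            by_contra h4
            push Not at h4
            nlinarith [mul_pos h3 h4]
        obtain ⟨x, hx, hx0⟩ := intermediate_value_uIcc (hcont.mono hsub) h2
        exact hne x (hsub hx) hx0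
      rcases lt_or_gt_of_ne (hne _ hmid) with h2 | h2
      · right
        intro d hd
        show (ψc (d : ℂ)).re - (ψc ((-d : ℝ) : ℂ)).re < 0
        rw [hgdef]
        have h3 := hivt d hd
        by_contra h4
        push Not at h4
        nlinarith
      · left
        intro d hd
        show 0 < (ψc (d : ℂ)).re - (ψc ((-d : ℝ) : ℂ)).re
        rw [hgdef]
        exact (mul_pos_iff_of_pos_left h2).1 (hivt d hd)

end Helper83.PE
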