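import Pool.Agent.Helper83.PE.St

/-!
# MP_b39980_an, project PE: module Q (the crossing near the saddle)
-/

set_option autoImplicit false

open Set Filter Topology
open Helper85.HN (hen Orb Bd KK E0)

noncomputable section

namespace Helper83.PE

private theorem eq_Q {lam : ℝ} {φ : ℂ → ℂ} (h : UPar lam φ) (t : ℝ) :
    vv φ (lam * t) + vv φ (t / lam) = vv φ t ^ 2 + cc lam := by
  obtain ⟨_, _, _, he, hr⟩ := h
  have h1 := congrArg Complex.re (he (t : ℂ))
  have h2 : φ (t : ℂ) = ((vv φ t : ℝ) : ℂ) := by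
    apply Complex.ext
    · rfl
    · rw [hr t, Complex.ofReal_im]
  rw [h2] at h1
  have h3 : vv φ (lam * t) = (φ ((lam : ℂ) * (t : ℂ))).re := by
    unfold vv; push_cast; rfl
  have h4 : vv φ (t / lam) = (φ ((t : ℂ) / (lam : ℂ))).re := by
    unfold vv; push_cast; rfl
  rw [h3, h4]
  rw [Complex.add_re, Complex.add_re, Complex.ofReal_re, ← Complex.ofReal_pow, Complex.ofReal_re] at h1
  exact h1

private theorem ffWu_Q {lam : ℝ} {φ : ℂ → ℂ} (hl : 1 < lam) (h : UPar lam φ) (t : ℝ) :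
    ff lam (Wu lam φ t) = Wu lam φ (lam * t) := by
  have hl0 : lam ≠ 0 := by linarith
  have h1 := eq_Q h t
  unfold ff hen Wu
  refine Prod.ext ?_ ?_
  · simp only [one_mul]; linarith
  · simp only []
    rw [mul_div_cancel_left₀ t hl0]

private theorem ffWs_Q {lam : ℝ} {φ : ℂ → ℂ} (hl : 1 < lam) (h : UPar lam φ) (t : ℝ) :
    ff lam (Ws lam φ t) = Ws lam φ (t / lam) := by
  have hl0 : lam ≠ 0 := by linarith
  have h1 := eq_Q h (t / lam)
  rw [mul_div_cancel₀ t hl0] at h1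
  unfold ff hen Ws
  refine Prod.ext ?_ rfl
  simp only [one_mul]; linarith

private theorem itWu_Q {lam : ℝ} {φ : ℂ → ℂ} (hl : 1 < lam) (h : UPar lam φ) (k : ℕ) (t : ℝ) :
    (ff lam)^[k] (Wu lam φ t) = Wu lam φ (lam ^ k * t) := by
  induction k with
  | zero => simp
  | succ k ih =>
    rw [Function.iterate_succ_apply', ih, ffWu_Q hl h, pow_succ]
    congr 1
    ring

private theorem itWs_Q {lam : ℝ} {φ : ℂ → ℂ} (hl : 1 < lam) (h : UPar lam φ) (k : ℕ) (t : ℝ) :
    (ff lam)^[k] (Ws lam φ t) = Ws lam φ (t / lam ^ k) := by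
  induction k with
  | zero => simp
  | succ k ih =>
    rw [Function.iterate_succ_apply', ih, ffWs_Q hl h, pow_succ]
    congr 1
    rw [div_div]

/-- the inverse map -/
private def fi_Q (lam : ℝ) (z : ℝ × ℝ) : ℝ × ℝ := (z.2, z.2 ^ 2 + cc lam - z.1)

private theorem left_Q (lam : ℝ) : Function.LeftInverse (fi_Q lam) (ff lam) := by
  rintro ⟨x, y⟩
  simp only [fi_Q, ff, hen]
  refine Prod.ext rfl ?_
  simp only []
  ring

private theorem right_Q (lam : ℝ) : Function.RightInverse (fi_Q lam) (ff lam) := by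
  rintro ⟨x, y⟩
  simp only [fi_Q, ff, hen]
  refine Prod.ext ?_ rfl
  simp only []
  ring

private theorem cdf_Q (lam : ℝ) : ContDiff ℝ 1 (ff lam) := by
  unfold ff hen
  fun_prop

private theorem cdi_Q (lam : ℝ) : ContDiff ℝ 1 (fi_Q lam) := by
  unfold fi_Q
  fun_prop

private theorem cdit_Q {f : ℝ × ℝ → ℝ × ℝ} (h : ContDiff ℝ 1 f) (k : ℕ) : ContDiff ℝ 1 (f^[k]) := by
  induction k with
  | zero => exact contDiff_id
  | succ k ih => rw [Function.iterate_succ']; exact h.comp ih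

theorem hQ (h1 : StSgn) : StQ := by
  intro lam φ T hl hU hF hd1 hd2 N X Y r l L t0 hB
  have hl0 : 0 < lam := by linarith
  have hT : 0 < T := hF.1
  have htq : 0 < lam * T := mul_pos hl0 hT
  obtain ⟨M, hM⟩ := pow_unbounded_of_one_lt (lam * T / t0) hl
  have hp : 0 < lam ^ M := pow_pos hl0 M
  have ht0 : 0 < t0 := hB.ht
  set tA : ℝ := lam * T / lam ^ M with htA
  have hA0 : 0 < tA := div_pos htq hp
  have hA1 : tA < t0 := by
    rw [div_lt_iff₀ ht0] at hM
    rw [htA, div_lt_iff₀ hp]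
    linarith
  have hsc : lam ^ M * tA = lam * T := by
    rw [htA]; field_simp
  have hq : Wu lam φ (lam * T) = Ws lam φ (lam * T) := by
    have e : lam * T / lam = T := mul_div_cancel_left₀ T hl0.ne'
    unfold Wu Ws
    rw [e, hF.2.1]
  have hGA : (ff lam)^[M] (Wu lam φ (lam * T)) = Ws lam φ tA := by
    rw [hq, itWs_Q hl hU]
  have hwsA := hB.ws tA ⟨hA0.le, hA1.le⟩
  have hm : (ff lam)^[M + M] (Wu lam φ tA) = Ws lam φ tA := by
    rw [Function.iterate_add_apply, itWu_Q hl hU, hsc, hGA]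
  -- the function `Lf`
  let Lf : ℝ × ℝ → ℝ := fun z => X ((ff lam)^[M] z)
  have hXat : ContDiffAt ℝ 1 X (Ws lam φ tA) := hB.cX.contDiffAt (hB.opn.mem_nhds hwsA.1)
  have hLf : ContDiffAt ℝ 1 Lf (Wu lam φ (lam * T)) := by
    refine ContDiffAt.comp (Wu lam φ (lam * T)) ?_ (cdit_Q (cdf_Q lam) M).contDiffAt
    rw [hGA]
    exact hXat
  have hinv : (fi_Q lam)^[M] (Ws lam φ tA) = Wu lam φ (lam * T) := by
    rw [← hGA]
    exact (left_Q lam).iterate M _
  have hne : fderiv ℝ Lf (Wu lam φ (lam * T)) ≠ 0 := by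
    intro h0
    apply hB.grd tA ⟨hA0.le, hA1.le⟩
    have hX : X = Lf ∘ (fi_Q lam)^[M] := by
      funext z
      have := (right_Q lam).iterate M z
      change X z = X ((ff lam)^[M] ((fi_Q lam)^[M] z))
      rw [this]
    have hd : DifferentiableAt ℝ Lf ((fi_Q lam)^[M] (Ws lam φ tA)) := by
      rw [hinv]
      exact hLf.differentiableAt one_ne_zero
    have hd' : DifferentiableAt ℝ ((fi_Q lam)^[M]) (Ws lam φ tA) :=
      ((cdit_Q (cdi_Q lam) M).contDiffAt).differentiableAt one_ne_zero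
    rw [hX, fderiv_comp _ hd hd', hinv, h0, ContinuousLinearMap.zero_comp]
  have hev : ∀ᶠ t in 𝓝 (lam * T), Lf (Ws lam φ t) = 0 := by
    have hc : Tendsto (fun t : ℝ => t / lam ^ M) (𝓝 (lam * T)) (𝓝 tA) :=
      (continuous_id.div_const (lam ^ M)).tendsto (lam * T)
    filter_upwards [hc (Ioo_mem_nhds hA0 hA1)] with t ht
    change X ((ff lam)^[M] (Ws lam φ t)) = 0
    rw [itWs_Q hl hU]
    exact (hB.ws _ ⟨ht.1.le, ht.2.le⟩).2.1
  obtain ⟨d, hd, hs⟩ := h1 lam φ T hl hU hF hd1 hd2 Lf hLf hne hev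
  have key : ∀ t : ℝ, X ((ff lam)^[M + M] (Wu lam φ t)) = Lf (Wu lam φ (lam ^ M * t)) := by
    intro t
    rw [Function.iterate_add_apply, itWu_Q hl hU]
  refine ⟨tA, M + M, hA0, hA1, ?_, ?_, ?_, d / lam ^ M, div_pos hd hp, ?_⟩
  · rw [hm]; exact hwsA.1
  · rw [hm]; exact hwsA.2.1
  · rw [hm]; exact hwsA.2.2
  · intro t ht t' ht'
    rw [key, key]
    have e1 : lam ^ M * (d / lam ^ M) = d := by field_simp
    refine hs _ ⟨?_, ?_⟩ _ ⟨?_, ?_⟩
    · have := mul_lt_mul_of_pos_left ht.1 hp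
      rw [mul_sub, hsc, e1] at this
      exact this
    · have := mul_lt_mul_of_pos_left ht.2 hp
      rw [hsc] at this
      exact this
    · have := mul_lt_mul_of_pos_left ht'.1 hp
      rw [hsc] at this
      exact this
    · have := mul_lt_mul_of_pos_left ht'.2 hp
      rw [mul_add, hsc, e1] at this
      exact this

end Helper83.PE

end
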