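import Pool.Agent.Helper83.PE.St

/-!
# MP_b39980_an, project PE: module Rect (a thin window around a piece of the unstable manifold)
-/

set_option autoImplicit false

open Set Filter Topology
open Helper85.HN (hen Orb Bd KK E0)

namespace Helper83.PE

private lemma cont_ff_Rect (lam : ℝ) : Continuous (ff lam) := by
  unfold ff hen
  fun_prop

private lemma cont_Wu_Rect (lam : ℝ) (φ : ℂ → ℂ) (h : UPar lam φ) : Continuous (Wu lam φ) := by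
  have hc : Continuous φ := h.1.continuous
  unfold Wu vv
  fun_prop

/-- Compactness: near the zero set of `Y` in a compact set we are in the open set. -/
private lemma compact_Rect (K V : Set (ℝ × ℝ)) (Y : ℝ × ℝ → ℝ) (r : ℝ) (hr : 0 < r)
    (hK : IsCompact K) (hY : ContinuousOn Y K) (hV : IsOpen V) (h0 : ∀ z ∈ K, Y z = 0 → z ∈ V) :
    ∃ ε, 0 < ε ∧ ε ≤ r ∧ ∀ z ∈ K, |Y z| ≤ ε → z ∈ V := by
  have hKV : IsCompact (K \ V) := hK.diff hV
  by_cases hne : (K \ V).Nonempty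
  · obtain ⟨z0, hz0, hmin⟩ := hKV.exists_isMinOn hne
      (f := fun z => |Y z|) ((hY.mono sdiff_subset).abs)
    have hpos : 0 < |Y z0| := by
      rw [abs_pos]
      intro h
      exact hz0.2 (h0 z0 hz0.1 h)
    refine ⟨min r (|Y z0| / 2), by positivity, min_le_left _ _, ?_⟩
    intro z hz hzε
    by_contra hzV
    have h1 : |Y z0| ≤ |Y z| := hmin ⟨hz, hzV⟩
    have h2 : |Y z| ≤ |Y z0| / 2 := hzε.trans (min_le_right _ _)
    linarith only [h1, h2, hpos]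
  · refine ⟨r, hr, le_refl _, ?_⟩
    intro z hz _
    by_contra hzV
    exact hne ⟨z, hz, hzV⟩

private lemma piece_Rect (lam : ℝ) (φ : ℂ → ℂ) (N : Set (ℝ × ℝ)) (X Y : ℝ × ℝ → ℝ)
    (r l L t0 : ℝ) (hB : Box lam φ N X Y r l L t0) (t1 t2 : ℝ) (h1 : 0 ≤ t1) (h12 : t1 ≤ t2)
    (h2 : t2 ≤ t0) (V : Set (ℝ × ℝ)) (hV : IsOpen V) (hW : ∀ t ∈ Icc t1 t2, Wu lam φ t ∈ V) :
    ∃ ε, 0 < ε ∧ ε ≤ r ∧ ∀ z ∈ N, X (Wu lam φ t1) ≤ X z → X z ≤ X (Wu lam φ t2) → |Y z| ≤ ε →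
      z ∈ V := by
  have hXc : ContinuousOn X N := hB.cX.continuousOn
  have ht0 : 0 < t0 := hB.ht
  have m1 : t1 ∈ Icc 0 t0 := ⟨h1, h12.trans h2⟩
  have m2 : t2 ∈ Icc 0 t0 := ⟨h1.trans h12, h2⟩
  have m00 : (0 : ℝ) ∈ Icc 0 t0 := ⟨le_refl _, ht0.le⟩
  have mt0 : t0 ∈ Icc 0 t0 := ⟨ht0.le, le_refl _⟩
  have mono := hB.wuX.monotoneOn
  have ha1 : 0 ≤ X (Wu lam φ t1) := by
    have := mono m00 m1 h1
    simpa only [hB.wu0] using this
  have ha2 : X (Wu lam φ t2) ≤ X (Wu lam φ t0) := mono m2 mt0 h2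
  have hL1 : 1 < L := lt_of_lt_of_le hB.hl hB.hL
  have ha2r : X (Wu lam φ t2) ≤ r := by
    refine ((hB.wu t2 m2).2.2).trans ?_
    rw [div_le_iff₀ (by linarith only [hL1])]
    nlinarith only [hL1, hB.hr]
  set K : Set (ℝ × ℝ) := {z | z ∈ N ∧ |X z| ≤ r ∧ |Y z| ≤ r} with hKdef
  have hKN : K ⊆ N := fun z hz => hz.1
  have hKcl : IsClosed (K ∩ X ⁻¹' Icc (X (Wu lam φ t1)) (X (Wu lam φ t2))) :=
    (hXc.mono hKN).preimage_isClosed_of_isClosed hB.cpt.isClosed isClosed_Icc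
  have hK' : IsCompact (K ∩ X ⁻¹' Icc (X (Wu lam φ t1)) (X (Wu lam φ t2))) :=
    hB.cpt.of_isClosed_subset hKcl inter_subset_left
  obtain ⟨ε, hε, hεr, h⟩ := compact_Rect _ V Y r hB.hr hK'
    (hB.cY.mono (inter_subset_left.trans hKN)) hV (by
      intro z hz hYz
      obtain ⟨t, ht, rfl⟩ := hB.wuc z hz.1.1 hYz (ha1.trans hz.2.1) (hz.2.2.trans ha2)
      refine hW t ⟨?_, ?_⟩
      · exact (hB.wuX.le_iff_le m1 ht).mp hz.2.1
      · exact (hB.wuX.le_iff_le ht m2).mp hz.2.2)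
  refine ⟨ε, hε, hεr, ?_⟩
  intro z hz hz1 hz2 hzY
  refine h z ⟨⟨hz, ?_, hzY.trans hεr⟩, hz1, hz2⟩ hzY
  rw [abs_of_nonneg (ha1.trans hz1)]
  exact hz2.trans ha2r

theorem hRect : StRect := by
  intro lam φ N X Y r l L t0 tA m _ hU hB hC
  have hWc : Continuous (Wu lam φ) := cont_Wu_Rect lam φ hU
  have hGc : Continuous ((ff lam)^[m]) := (cont_ff_Rect lam).iterate m
  have hXc : ContinuousOn X N := hB.cX.continuousOn
  have ht0 : 0 < t0 := hB.ht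
  have htA := hC.h0
  have htA' := hC.h1
  have mA : tA ∈ Icc 0 t0 := ⟨htA.le, htA'.le⟩
  have m00 : (0 : ℝ) ∈ Icc 0 t0 := ⟨le_refl _, ht0.le⟩
  have mt0 : t0 ∈ Icc 0 t0 := ⟨ht0.le, le_refl _⟩
  have hl := hB.hl
  obtain ⟨A0, hA0⟩ : ∃ A0, A0 = X (Wu lam φ tA) := ⟨_, rfl⟩
  obtain ⟨B0, hB0⟩ : ∃ B0, B0 = X (Wu lam φ t0) := ⟨_, rfl⟩
  have hA0p : 0 < A0 := by
    have := hB.wuX m00 mA htA
    simpa only [hB.wu0, ← hA0] using this
  have hAB : A0 < B0 := by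
    have := hB.wuX mA mt0 htA'
    simpa only [← hA0, ← hB0] using this
  have hBr : B0 ≤ r / L := by rw [hB0]; exact (hB.wu t0 mt0).2.2
  -- choice of bm, bp
  obtain ⟨bm, hbm⟩ : ∃ bm, bm = A0 * ((1 + l) / (2 * l)) := ⟨_, rfl⟩
  obtain ⟨bp, hbp⟩ : ∃ bp, bp = min (A0 * ((3 + l) / 4)) ((A0 + B0) / 2) := ⟨_, rfl⟩
  have hl0 : 0 < l := by linarith only [hl]
  have hbm0 : 0 < bm := by rw [hbm]; positivity
  have hbmA : bm < A0 := by
    rw [hbm]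
    have : (1 + l) / (2 * l) < 1 := by rw [div_lt_one (by positivity)]; linarith only [hl]
    nlinarith only [this, hA0p]
  have hAbp : A0 < bp := by
    rw [hbp, lt_min_iff]
    constructor
    · nlinarith only [hl, hA0p]
    · linarith only [hAB]
  have hbpB : bp < B0 := by
    rw [hbp]
    exact lt_of_le_of_lt (min_le_right _ _) (by linarith only [hAB])
  have hbpl : bp < l * bm := by
    have h1 : bp ≤ A0 * ((3 + l) / 4) := by rw [hbp]; exact min_le_left _ _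
    have h2 : l * bm = A0 * ((1 + l) / 2) := by rw [hbm]; field_simp
    rw [h2]
    nlinarith only [h1, hl, hA0p]
  -- the neighbourhood of tA
  have hVo : IsOpen (N ∩ X ⁻¹' Ioo bm bp) := hXc.isOpen_inter_preimage hB.opn isOpen_Ioo
  have hXo : IsOpen (N ∩ X ⁻¹' Ioo (-bm) bm) := hXc.isOpen_inter_preimage hB.opn isOpen_Ioo
  have hYo : IsOpen (N ∩ Y ⁻¹' Ioo (-r) r) := hB.cY.isOpen_inter_preimage hB.opn isOpen_Ioo
  obtain ⟨V, hV⟩ : ∃ V : Set (ℝ × ℝ), V = (ff lam)^[m] ⁻¹' (N ∩ X ⁻¹' Ioo (-bm) bm) ∩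
      (ff lam)^[m] ⁻¹' (N ∩ Y ⁻¹' Ioo (-r) r) := ⟨_, rfl⟩
  have hVopen : IsOpen V := by
    rw [hV]; exact (hXo.preimage hGc).inter (hYo.preimage hGc)
  have hWA : Wu lam φ tA ∈ V := by
    rw [hV]
    refine ⟨⟨hC.inN, ?_⟩, ⟨hC.inN, ?_⟩⟩
    · show X _ ∈ Ioo (-bm) bm
      rw [hC.x0]; exact ⟨by linarith only [hbm0], hbm0⟩
    · exact abs_lt.mp hC.y0
  have hev : ∀ᶠ t in 𝓝 tA, t ∈ Ioo 0 t0 ∧ Wu lam φ t ∈ V ∧ Wu lam φ t ∈ N ∩ X ⁻¹' Ioo bm bp := by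
    have e1 : ∀ᶠ t in 𝓝 tA, t ∈ Ioo 0 t0 := isOpen_Ioo.mem_nhds ⟨htA, htA'⟩
    have e2 : ∀ᶠ t in 𝓝 tA, Wu lam φ t ∈ V :=
      hWc.continuousAt.preimage_mem_nhds (hVopen.mem_nhds hWA)
    have hmem : Wu lam φ tA ∈ N ∩ X ⁻¹' Ioo bm bp := by
      refine ⟨(hB.wu tA mA).1, ?_⟩
      show X _ ∈ Ioo bm bp
      rw [← hA0]; exact ⟨hbmA, hAbp⟩
    have e3 : ∀ᶠ t in 𝓝 tA, Wu lam φ t ∈ N ∩ X ⁻¹' Ioo bm bp :=
      hWc.continuousAt.preimage_mem_nhds (hVo.mem_nhds hmem)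
    exact e1.and (e2.and e3)
  obtain ⟨d', hd', hd'P⟩ := Metric.eventually_nhds_iff.mp hev
  obtain ⟨d, hd, hsg⟩ := hC.sg
  obtain ⟨e, he⟩ : ∃ e, e = min d d' / 2 := ⟨_, rfl⟩
  have he0 : 0 < e := by rw [he]; positivity
  have hed : e < d := by
    rw [he]; have := min_le_left d d'; linarith only [this, hd]
  have hed' : e < d' := by
    rw [he]; have := min_le_right d d'; linarith only [this, hd']
  have hP : ∀ t ∈ Icc (tA - e) (tA + e), t ∈ Ioo 0 t0 ∧ Wu lam φ t ∈ V ∧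
      Wu lam φ t ∈ N ∩ X ⁻¹' Ioo bm bp := by
    intro t ht
    apply hd'P
    rw [Real.dist_eq, abs_lt]
    constructor
    · linarith only [ht.1, hed']
    · linarith only [ht.2, hed']
  obtain ⟨t1, ht1⟩ : ∃ t1, t1 = tA - e := ⟨_, rfl⟩
  obtain ⟨t2, ht2⟩ : ∃ t2, t2 = tA + e := ⟨_, rfl⟩
  have ht12 : t1 < t2 := by rw [ht1, ht2]; linarith only [he0]
  rw [← ht1, ← ht2] at hP
  have p1 := hP t1 ⟨le_refl _, ht12.le⟩
  have p2 := hP t2 ⟨ht12.le, le_refl _⟩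
  have m1 : t1 ∈ Icc 0 t0 := ⟨p1.1.1.le, p1.1.2.le⟩
  have m2 : t2 ∈ Icc 0 t0 := ⟨p2.1.1.le, p2.1.2.le⟩
  have hprod : X ((ff lam)^[m] (Wu lam φ t1)) * X ((ff lam)^[m] (Wu lam φ t2)) < 0 := by
    apply hsg
    · rw [ht1]; exact ⟨by linarith only [hed], by linarith only [he0]⟩
    · rw [ht2]; exact ⟨by linarith only [he0], by linarith only [hed]⟩
  obtain ⟨u1, hu1⟩ : ∃ u1, u1 = X ((ff lam)^[m] (Wu lam φ t1)) := ⟨_, rfl⟩
  obtain ⟨u2, hu2⟩ : ∃ u2, u2 = X ((ff lam)^[m] (Wu lam φ t2)) := ⟨_, rfl⟩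
  rw [← hu1, ← hu2] at hprod
  have hu1n : u1 ≠ 0 := fun h => by rw [h, zero_mul] at hprod; exact lt_irrefl _ hprod
  have hu2n : u2 ≠ 0 := fun h => by rw [h, mul_zero] at hprod; exact lt_irrefl _ hprod
  have hG1 : (ff lam)^[m] (Wu lam φ t1) ∈ N := by
    have := p1.2.1; rw [hV] at this; exact this.1.1
  have hG2 : (ff lam)^[m] (Wu lam φ t2) ∈ N := by
    have := p2.2.1; rw [hV] at this; exact this.1.1
  obtain ⟨ρ, hρ⟩ : ∃ ρ, ρ = min |u1| |u2| / 2 := ⟨_, rfl⟩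
  have hρ0 : 0 < ρ := by
    rw [hρ]
    have := abs_pos.mpr hu1n
    have := abs_pos.mpr hu2n
    positivity
  have hρ1 : ρ < |u1| := by
    rw [hρ]; have h := min_le_left |u1| |u2|; have := abs_pos.mpr hu1n; linarith only [h, this]
  have hρ2 : ρ < |u2| := by
    rw [hρ]; have h := min_le_right |u1| |u2|; have := abs_pos.mpr hu2n; linarith only [h, this]
  -- the three epsilons
  obtain ⟨ε1, hε1, hε1r, H1⟩ := piece_Rect lam φ N X Y r l L t0 hB t1 t2 m1.1 ht12.le m2.2 V hVopen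
    (fun t ht => (hP t ht).2.1)
  have hneg : IsOpen ((ff lam)^[m] ⁻¹' (N ∩ X ⁻¹' Iio (-ρ))) :=
    (hXc.isOpen_inter_preimage hB.opn isOpen_Iio).preimage hGc
  have hpos : IsOpen ((ff lam)^[m] ⁻¹' (N ∩ X ⁻¹' Ioi ρ)) :=
    (hXc.isOpen_inter_preimage hB.opn isOpen_Ioi).preimage hGc
  have hS : ∃ ε2, 0 < ε2 ∧ ((∀ z ∈ win N X Y (X (Wu lam φ t1)) (X (Wu lam φ t2)) ε2,
      (X z = X (Wu lam φ t1) → X ((ff lam)^[m] z) ≤ -ρ) ∧
      (X z = X (Wu lam φ t2) → ρ ≤ X ((ff lam)^[m] z))) ∨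
      (∀ z ∈ win N X Y (X (Wu lam φ t1)) (X (Wu lam φ t2)) ε2,
      (X z = X (Wu lam φ t1) → ρ ≤ X ((ff lam)^[m] z)) ∧
      (X z = X (Wu lam φ t2) → X ((ff lam)^[m] z) ≤ -ρ))) := by
    rcases lt_or_gt_of_ne hu1n with h | h
    · -- u1 < 0 < u2
      have h2 : 0 < u2 := by
        by_contra h3
        have h3' := not_lt.mp h3
        have := mul_nonneg_of_nonpos_of_nonpos h.le h3'
        linarith only [this, hprod]
      rw [abs_of_neg h] at hρ1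
      rw [abs_of_pos h2] at hρ2
      obtain ⟨ε2, hε2, _, H2⟩ := piece_Rect lam φ N X Y r l L t0 hB t1 t1 m1.1 (le_refl _) m1.2 _ hneg
        (fun t ht => by
          have : t = t1 := le_antisymm ht.2 ht.1
          rw [this]
          refine ⟨hG1, ?_⟩
          show X _ < -ρ
          rw [← hu1]; linarith only [hρ1])
      obtain ⟨ε3, hε3, _, H3⟩ := piece_Rect lam φ N X Y r l L t0 hB t2 t2 m2.1 (le_refl _) m2.2 _ hpos
        (fun t ht => by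
          have : t = t2 := le_antisymm ht.2 ht.1
          rw [this]
          refine ⟨hG2, ?_⟩
          show ρ < X _
          rw [← hu2]; exact hρ2)
      refine ⟨min ε2 ε3, lt_min hε2 hε3, Or.inl ?_⟩
      rintro z ⟨hz, _, _, hz3⟩
      refine ⟨fun hx => ?_, fun hx => ?_⟩
      · exact (H2 z hz hx.ge hx.le (hz3.trans (min_le_left _ _))).2.le
      · exact (H3 z hz hx.ge hx.le (hz3.trans (min_le_right _ _))).2.le
    · have h2 : u2 < 0 := by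
        by_contra h3
        have h3' := not_lt.mp h3
        have := mul_nonneg h.le h3'
        linarith only [this, hprod]
      rw [abs_of_pos h] at hρ1
      rw [abs_of_neg h2] at hρ2
      obtain ⟨ε2, hε2, _, H2⟩ := piece_Rect lam φ N X Y r l L t0 hB t1 t1 m1.1 (le_refl _) m1.2 _ hpos
        (fun t ht => by
          have : t = t1 := le_antisymm ht.2 ht.1
          rw [this]
          refine ⟨hG1, ?_⟩
          show ρ < X _
          rw [← hu1]; exact hρ1)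
      obtain ⟨ε3, hε3, _, H3⟩ := piece_Rect lam φ N X Y r l L t0 hB t2 t2 m2.1 (le_refl _) m2.2 _ hneg
        (fun t ht => by
          have : t = t2 := le_antisymm ht.2 ht.1
          rw [this]
          refine ⟨hG2, ?_⟩
          show X _ < -ρ
          rw [← hu2]; linarith only [hρ2])
      refine ⟨min ε2 ε3, lt_min hε2 hε3, Or.inr ?_⟩
      rintro z ⟨hz, _, _, hz3⟩
      refine ⟨fun hx => ?_, fun hx => ?_⟩
      · exact (H2 z hz hx.ge hx.le (hz3.trans (min_le_left _ _))).2.le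
      · exact (H3 z hz hx.ge hx.le (hz3.trans (min_le_right _ _))).2.le
  obtain ⟨ε2, hε2, H2⟩ := hS
  refine ⟨X (Wu lam φ t1), X (Wu lam φ t2), bm, bp, min ε1 ε2, ρ, ?_⟩
  have hwin : ∀ z, z ∈ win N X Y (X (Wu lam φ t1)) (X (Wu lam φ t2)) (min ε1 ε2) →
      z ∈ win N X Y (X (Wu lam φ t1)) (X (Wu lam φ t2)) ε2 := by
    rintro z ⟨a, b, c, d⟩
    exact ⟨a, b, c, d.trans (min_le_right _ _)⟩
  refine ⟨hbm0, p1.2.2.2.1, hB.wuX m1 m2 ht12, p2.2.2.2.2, hbpB.le.trans hBr, hbpl,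
    lt_min hε1 hε2, (min_le_left _ _).trans hε1r, hρ0, ?_, ?_, ?_⟩
  · rintro z ⟨hz, hz1, hz2, hz3⟩
    have hzV := H1 z hz hz1 hz2 (hz3.trans (min_le_left _ _))
    rw [hV] at hzV
    refine ⟨hzV.1.1, ?_, ?_⟩
    · exact abs_le.mpr ⟨hzV.1.2.1.le, hzV.1.2.2.le⟩
    · exact abs_le.mpr ⟨hzV.2.2.1.le, hzV.2.2.2.le⟩
  · rcases H2 with H | H
    · exact Or.inl (fun z hz => H z (hwin z hz))
    · exact Or.inr (fun z hz => H z (hwin z hz))
  · refine ⟨Wu lam φ, t1, t2, ht12.le, hWc.continuousOn, ?_, Or.inl ⟨rfl, rfl⟩⟩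
    intro s hs
    have ms : s ∈ Icc 0 t0 := ⟨m1.1.trans hs.1, hs.2.trans m2.2⟩
    refine ⟨(hB.wu s ms).1, hB.wuX.monotoneOn m1 ms hs.1, hB.wuX.monotoneOn ms m2 hs.2, ?_⟩
    rw [(hB.wu s ms).2.1, abs_zero]
    exact (lt_min hε1 hε2).le

end Helper83.PE
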