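import Pool.Agent.Helper83.PE.St

set_option autoImplicit false

open Set Filter Topology

namespace Helper83.PE

private lemma arith_Sgn (x y : ℝ) (h : |x - y / 2| ≤ |y| / 4) (hy : y ≠ 0) : 0 < x * y := by
  have h1 : |(x - y / 2) * y| ≤ |y| ^ 2 / 4 := by
    rw [abs_mul]
    nlinarith [abs_nonneg y, mul_le_mul_of_nonneg_right h (abs_nonneg y)]
  rw [sq_abs] at h1
  have h2 := (abs_le.mp h1).1
  have h3 : 0 < y ^ 2 := by positivity
  nlinarith

theorem hSgn (h1 : StOdd) : StSgn := by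
  intro lam φ T hlam hU hFi hvT hvq Lf hC hne hW
  obtain ⟨ψ, ρ, hρ, hψ, hsgn⟩ := h1 lam φ T hlam hU hFi hvT hvq
  have hlam0 : (0 : ℝ) < lam := by linarith
  have hlamne : lam ≠ 0 := hlam0.ne'
  set tq : ℝ := lam * T with htq
  have hTq : tq / lam = T := by rw [htq]; field_simp
  set v : ℝ → ℝ := vv φ with hv
  have hvC : ContDiff ℝ 1 v := by
    have h : ContDiff ℂ 1 φ := hU.1.contDiff
    exact h.real_of_complex
  have hvs : ∀ t, HasStrictDerivAt v (deriv v t) t := fun t =>
    (hvC.contDiffAt.hasStrictDerivAt (by simp))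
  have hvl : HasStrictDerivAt (fun t : ℝ => v (t / lam)) (deriv v T / lam) tq := by
    have h := (hvs (tq / lam))
    rw [hTq] at h
    have h2 : HasStrictDerivAt (fun t : ℝ => t / lam) (1 / lam) tq := (hasStrictDerivAt_id tq).div_const lam
    have h' : HasStrictDerivAt v (deriv v T) ((fun t : ℝ => t / lam) tq) := by
      show HasStrictDerivAt v (deriv v T) (tq / lam)
      rw [hTq]; exact h
    have h3 := h'.comp tq h2
    have h4 : deriv v T * (1 / lam) = deriv v T / lam := by ring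
    rw [h4] at h3
    exact h3
  set D : ℝ → ℝ := fun t => v t - v (t / lam) with hD
  set S : ℝ → ℝ := fun t => v t + v (t / lam) with hS
  set D' : ℝ := deriv v tq - deriv v T / lam with hD'
  have hD'pos : 0 < D' := by
    have : deriv v T / lam < 0 := div_neg_of_neg_of_pos hvT hlam0
    linarith
  have hDs : HasStrictDerivAt D D' tq := (hvs tq).sub hvl
  have hvv : v tq = v T := hFi.2.1
  have hDq : D tq = 0 := by simp only [hD]; rw [hTq, hvv, sub_self]
  have hDc : ContinuousAt D tq := hDs.hasDerivAt.continuousAt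
  -- sign of D
  have hDsg : ∀ᶠ t in 𝓝 tq, |D t - D' * (t - tq)| ≤ D' / 2 * |t - tq| := by
    have h := hDs.hasDerivAt.isLittleO.def (half_pos hD'pos)
    filter_upwards [h] with t ht
    rw [hDq, sub_zero, Real.norm_eq_abs, Real.norm_eq_abs, smul_eq_mul] at ht
    rw [mul_comm D' (t - tq)]
    exact ht
  -- the mirror parameter
  obtain ⟨s, hsT, hsD⟩ : ∃ s : ℝ → ℝ, Tendsto s (𝓝 tq) (𝓝 tq) ∧ ∀ᶠ t in 𝓝 tq, D (s t) = - D t := by
    have hTo : Tendsto (fun t => - D t) (𝓝 tq) (𝓝 (D tq)) := by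
      have h := hDc.neg
      have h' : Tendsto (fun t => - D t) (𝓝 tq) (𝓝 (- D tq)) := h
      rw [hDq, neg_zero] at h'
      rw [hDq]; exact h'
    have hF := hDs.hasStrictFDerivAt_equiv hD'pos.ne'
    refine ⟨fun t => hF.localInverse _ _ _ (- D t), ?_, ?_⟩
    · have h := hF.localInverse_continuousAt
      have h2 : hF.localInverse _ _ _ (D tq) = tq := hF.localInverse_apply_image
      have h3 : Tendsto (hF.localInverse _ _ _) (𝓝 (D tq)) (𝓝 tq) := by
        have := h.tendsto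
        rwa [h2] at this
      exact h3.comp hTo
    · exact hTo.eventually hF.eventually_right_inverse
  -- differentiability of Lf
  have hq : Wu lam φ tq = (v tq, v T) := by
    show (v tq, v (tq / lam)) = (v tq, v T)
    rw [hTq]
  have hq2 : Ws lam φ tq = Wu lam φ tq := by
    show (v (tq / lam), v tq) = (v tq, v (tq / lam))
    rw [hTq, hvv]
  set q : ℝ × ℝ := Wu lam φ tq with hqdef
  have hL : HasStrictFDerivAt Lf (fderiv ℝ Lf q) q := hC.hasStrictFDerivAt (by simp)
  set κ : ℝ := fderiv ℝ Lf q (1, 1) with hκ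
  have hWsd : HasDerivAt (Ws lam φ) (deriv v T / lam, deriv v tq) tq :=
    hvl.hasDerivAt.prodMk (hvs tq).hasDerivAt
  have hκ0 : κ ≠ 0 := by
    intro h0
    apply hne
    have hz : fderiv ℝ Lf q (deriv v T / lam, deriv v tq) = 0 := by
      have hL' : HasFDerivAt Lf (fderiv ℝ Lf q) (Ws lam φ tq) := by
        rw [hq2]; exact hL.hasFDerivAt
      have h2 := hL'.comp_hasDerivAt tq hWsd
      have h3 : HasDerivAt (Lf ∘ Ws lam φ) 0 tq := by
        have h4 : (Lf ∘ Ws lam φ) =ᶠ[𝓝 tq] fun _ => (0 : ℝ) := by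
          filter_upwards [hW] with t ht
          exact ht
        exact (hasDerivAt_const tq (0 : ℝ)).congr_of_eventuallyEq h4
      exact h2.unique h3
    have key : ∀ w : ℝ × ℝ, w = ((w.1 * deriv v tq - w.2 * (deriv v T / lam)) / D') • ((1 : ℝ), (1 : ℝ))
        + ((w.2 - w.1) / D') • (deriv v T / lam, deriv v tq) := by
      intro w
      ext
      · simp only [Prod.fst_add, Prod.smul_fst, smul_eq_mul]
        rw [mul_one, div_mul_eq_mul_div, ← add_div, eq_div_iff hD'pos.ne', hD']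
        ring
      · simp only [Prod.snd_add, Prod.smul_snd, smul_eq_mul]
        rw [mul_one, div_mul_eq_mul_div, ← add_div, eq_div_iff hD'pos.ne', hD']
        ring
    ext1
    · ext
      simp only [ContinuousLinearMap.comp_apply, zero_apply]
      rw [key (ContinuousLinearMap.inl ℝ ℝ ℝ 1), map_add, map_smul, map_smul, hz, ← hκ, h0]
      simp
    · ext
      simp only [ContinuousLinearMap.comp_apply, zero_apply]
      rw [key (ContinuousLinearMap.inr ℝ ℝ ℝ 1), map_add, map_smul, map_smul, hz, ← hκ, h0]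
      simp
  -- main estimate
  have hWuc : Tendsto (Wu lam φ) (𝓝 tq) (𝓝 q) := by
    have h : HasDerivAt (Wu lam φ) (deriv v tq, deriv v T / lam) tq :=
      (hvs tq).hasDerivAt.prodMk hvl.hasDerivAt
    exact h.continuousAt
  have hWsc : Tendsto (Ws lam φ) (𝓝 tq) (𝓝 q) := by
    have h := hWsd.continuousAt.tendsto
    rwa [hq2] at h
  have hpair : Tendsto (fun t => (Wu lam φ t, Ws lam φ (s t))) (𝓝 tq) (𝓝 (q, q)) :=
    hWuc.prodMk_nhds (hWsc.comp hsT)
  have hest : ∀ᶠ t in 𝓝 tq, |Lf (Wu lam φ t) - κ * (S t - S (s t)) / 2| ≤ |κ * (S t - S (s t))| / 4 := by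
    have h := hL.isLittleO.def (half_pos (abs_pos.mpr hκ0))
    have h2 := hpair.eventually h
    filter_upwards [h2, hsD, hsT.eventually hW] with t ht hDt hWt
    have hdiff : Wu lam φ t - Ws lam φ (s t) = ((S t - S (s t)) / 2) • ((1 : ℝ), (1 : ℝ)) := by
      have e1 : v (s t) - v (s t / lam) = -(v t - v (t / lam)) := hDt
      ext
      · show v t - v (s t / lam) = (v t + v (t / lam) - (v (s t) + v (s t / lam))) / 2 * 1
        linarith
      · show v (t / lam) - v (s t) = (v t + v (t / lam) - (v (s t) + v (s t / lam))) / 2 * 1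
        linarith
    rw [hdiff, hWt, sub_zero, map_smul, ← hκ, smul_eq_mul, Real.norm_eq_abs] at ht
    have hn : ‖((S t - S (s t)) / 2) • ((1 : ℝ), (1 : ℝ))‖ = |S t - S (s t)| / 2 := by
      rw [norm_smul, Real.norm_eq_abs, abs_div, abs_of_pos (by norm_num : (0 : ℝ) < 2)]
      simp [Prod.norm_def]
    rw [hn] at ht
    have e2 : κ * (S t - S (s t)) / 2 = (S t - S (s t)) / 2 * κ := by ring
    rw [e2, abs_mul]
    refine ht.trans (le_of_eq ?_)
    ring
  have hψt : ∀ᶠ t in 𝓝 tq, S t = ψ (D t) := hψ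
  have hψs : ∀ᶠ t in 𝓝 tq, S (s t) = ψ (- D t) := by
    filter_upwards [hsT.eventually hψ, hsD] with t h2 h3
    have h4 : S (s t) = ψ (D (s t)) := h2
    rw [h4, h3]
  have hDρ : ∀ᶠ t in 𝓝 tq, |D t| < ρ := by
    have h : Tendsto D (𝓝 tq) (𝓝 0) := by
      have := hDc.tendsto
      rwa [hDq] at this
    have h2 := h.abs
    rw [abs_zero] at h2
    exact h2.eventually (gt_mem_nhds hρ)
  obtain ⟨d, hd, hball⟩ := Metric.eventually_nhds_iff.mp
    (hest.and (hψt.and (hψs.and (hDρ.and hDsg))))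
  refine ⟨d, hd, ?_⟩
  intro t ht t' ht'
  have hb1 : dist t tq < d := by
    rw [Real.dist_eq, abs_lt]; constructor <;> linarith [ht.1, ht.2]
  have hb2 : dist t' tq < d := by
    rw [Real.dist_eq, abs_lt]; constructor <;> linarith [ht'.1, ht'.2]
  obtain ⟨a1, a2, a3, a4, a5⟩ := hball hb1
  obtain ⟨b1, b2, b3, b4, b5⟩ := hball hb2
  have hDt : D t < 0 := by
    rw [abs_of_neg (by linarith [ht.2] : t - tq < 0)] at a5
    have := (abs_le.mp a5).2
    nlinarith [mul_pos hD'pos (by linarith [ht.2] : (0 : ℝ) < tq - t)]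
  have hDt' : 0 < D t' := by
    rw [abs_of_pos (by linarith [ht'.1] : 0 < t' - tq)] at b5
    have := (abs_le.mp b5).1
    nlinarith [mul_pos hD'pos (by linarith [ht'.1] : (0 : ℝ) < t' - tq)]
  rw [abs_of_neg hDt] at a4
  rw [abs_of_pos hDt'] at b4
  have hF1 : S t - S (s t) = -(ψ (- D t) - ψ (-(- D t))) := by
    rw [a2, a3, neg_neg]; ring
  have hF2 : S t' - S (s t') = ψ (D t') - ψ (- D t') := by
    rw [b2, b3]
  have hFF : (S t - S (s t)) * (S t' - S (s t')) < 0 := by
    rw [hF1, hF2]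
    rcases hsgn with h | h
    · have p1 := h (- D t) ⟨by linarith, a4⟩
      have p2 := h (D t') ⟨hDt', b4⟩
      nlinarith [mul_pos p1 p2]
    · have p1 := h (- D t) ⟨by linarith, a4⟩
      have p2 := h (D t') ⟨hDt', b4⟩
      nlinarith [mul_pos_of_neg_of_neg p1 p2]
  have hF1ne : S t - S (s t) ≠ 0 := fun h0 => by rw [h0, zero_mul] at hFF; exact lt_irrefl _ hFF
  have hF2ne : S t' - S (s t') ≠ 0 := fun h0 => by rw [h0, mul_zero] at hFF; exact lt_irrefl _ hFF
  have c1 := arith_Sgn _ _ a1 (mul_ne_zero hκ0 hF1ne)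
  have c2 := arith_Sgn _ _ b1 (mul_ne_zero hκ0 hF2ne)
  have c3 : 0 < κ ^ 2 := by positivity
  by_contra hcon0
  have hcon := not_lt.mp hcon0
  have c4 : 0 < (Lf (Wu lam φ t) * (κ * (S t - S (s t)))) * (Lf (Wu lam φ t') * (κ * (S t' - S (s t')))) :=
    mul_pos c1 c2
  have c5 : (Lf (Wu lam φ t) * (κ * (S t - S (s t)))) * (Lf (Wu lam φ t') * (κ * (S t' - S (s t'))))
      = (Lf (Wu lam φ t) * Lf (Wu lam φ t')) * κ ^ 2 * ((S t - S (s t)) * (S t' - S (s t'))) := by ring
  rw [c5] at c4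
  have c6 : 0 ≤ (Lf (Wu lam φ t) * Lf (Wu lam φ t')) * κ ^ 2 := mul_nonneg hcon c3.le
  nlinarith [mul_nonneg c6 (le_of_lt (neg_pos.mpr hFF))]

end Helper83.PE
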