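import Pool.Agent.Helper83.PE.St

/-!
# Project PE: module Sta, stability of covering relations
-/

set_option autoImplicit false

open Set Filter Topology
open Helper85.HN (hen)

namespace Helper83.PE

private theorem win_compact_Sta {lam : ℝ} {φ : ℂ → ℂ} {N : Set (ℝ × ℝ)} {X Y : ℝ × ℝ → ℝ} {r l L t0 : ℝ}
    (hB : Box lam φ N X Y r l L t0) (u v e : ℝ) (hu : -r ≤ u) (hv : v ≤ r) (he : e ≤ r) :
    IsCompact (win N X Y u v e) := by
  set C0 : Set (ℝ × ℝ) := {z | z ∈ N ∧ |X z| ≤ r ∧ |Y z| ≤ r} with hC0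
  have hcl : IsClosed C0 := hB.cpt.isClosed
  have hsub : C0 ⊆ N := fun z hz => hz.1
  have hX : ContinuousOn X C0 := hB.cX.continuousOn.mono hsub
  have hY : ContinuousOn Y C0 := hB.cY.mono hsub
  have h1 : IsClosed (C0 ∩ X ⁻¹' (Icc u v)) := hX.preimage_isClosed_of_isClosed hcl isClosed_Icc
  have h2 : IsClosed (C0 ∩ Y ⁻¹' (Icc (-e) e)) := hY.preimage_isClosed_of_isClosed hcl isClosed_Icc
  have h3 : win N X Y u v e = (C0 ∩ X ⁻¹' (Icc u v)) ∩ (C0 ∩ Y ⁻¹' (Icc (-e) e)) := by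
    ext z
    constructor
    · rintro ⟨h1, h2, h3, h4⟩
      have hz : z ∈ C0 := ⟨h1, abs_le.mpr ⟨by linarith, by linarith⟩, h4.trans he⟩
      exact ⟨⟨hz, h2, h3⟩, hz, abs_le.mp h4⟩
    · rintro ⟨⟨h1, h2⟩, -, h3⟩
      exact ⟨h1.1, h2.1, h2.2, abs_le.mpr h3⟩
  rw [h3]
  exact hB.cpt.of_isClosed_subset (h1.inter h2) (fun z hz => hz.1.1)

private theorem cont_iter_Sta (j : ℕ) :
    Continuous (fun q : ℝ × ℝ × (ℝ × ℝ) => (hen q.1 q.2.1)^[j] q.2.2) := by
  induction j with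
  | zero =>
    simp only [Function.iterate_zero, id_eq]
    fun_prop
  | succ j ih =>
    have h : (fun q : ℝ × ℝ × (ℝ × ℝ) => (hen q.1 q.2.1)^[j + 1] q.2.2) =
        fun q => hen q.1 q.2.1 ((hen q.1 q.2.1)^[j] q.2.2) := by
      funext q
      rw [Function.iterate_succ_apply']
    rw [h]
    unfold hen
    unfold hen at ih
    fun_prop

private theorem close_Sta (lam : ℝ) (D : Set (ℝ × ℝ)) (hD : IsCompact D) (j : ℕ) (μ : ℝ) (hμ : 0 < μ) :
    ∃ δ : ℝ, 0 < δ ∧ ∀ b c : ℝ, |b - 1| < δ → |c - cc lam| < δ → ∀ z ∈ D,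
      dist ((hen b c)^[j] z) ((ff lam)^[j] z) < μ := by
  set s : Set (ℝ × ℝ × (ℝ × ℝ)) := ({1} : Set ℝ) ×ˢ (({cc lam} : Set ℝ) ×ˢ D) with hs
  have hsc : IsCompact s := isCompact_singleton.prod (isCompact_singleton.prod hD)
  have h := hsc.uniformContinuousAt_of_continuousAt
    (fun q : ℝ × ℝ × (ℝ × ℝ) => (hen q.1 q.2.1)^[j] q.2.2)
    (fun a _ => (cont_iter_Sta j).continuousAt) (Metric.dist_mem_uniformity hμ)
  rw [Metric.mem_uniformity_dist] at h
  obtain ⟨δ, hδ, hh⟩ := h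
  refine ⟨δ, hδ, fun b c hb hc z hz => ?_⟩
  have h1 : dist ((1 : ℝ), (cc lam), z) (b, c, z) < δ := by
    rw [Prod.dist_eq, Prod.dist_eq]
    simp only [dist_self]
    rw [Real.dist_eq, Real.dist_eq, abs_sub_comm 1 b, abs_sub_comm (cc lam) c]
    exact max_lt hb (max_lt hc hδ)
  have h2 := hh h1 ⟨rfl, rfl, hz⟩
  simp only [mem_ofPred_eq] at h2
  rw [dist_comm]
  exact h2

private theorem core_Sta (h1 : StSub) {lam : ℝ} {φ : ℂ → ℂ} {N : Set (ℝ × ℝ)} {X Y : ℝ × ℝ → ℝ}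
    {r l L t0 : ℝ} (hB : Box lam φ N X Y r l L t0) {am ap bm bp ε μ : ℝ} (hap : am < ap)
    (hμ : ∀ z ∈ win N X Y bm bp (ε / 2), ∀ z', dist z z' < μ →
      z' ∈ N ∧ |X z' - X z| < min (am - bm) (bp - ap) ∧ |Y z' - Y z| < ε / 2)
    {G F : ℝ × ℝ → ℝ × ℝ} (hG : Continuous G) {D : Set (ℝ × ℝ)}
    (hGF : ∀ z ∈ D, dist (G z) (F z) < μ) {γ : ℝ → ℝ × ℝ} {α β α' β' : ℝ}
    (hγ : ContinuousOn γ (Icc α β)) (hγD : ∀ s ∈ Icc α β, γ s ∈ D) (hα : α ≤ α') (hβ : β' ≤ β)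
    (hc : Cross X (win N X Y bm bp (ε / 2)) bm bp (fun s => F (γ s)) α' β') :
    ∃ α'' β'', α' ≤ α'' ∧ β'' ≤ β' ∧ Cross X (win N X Y am ap ε) am ap (fun s => G (γ s)) α'' β'' := by
  obtain ⟨hab, -, hD', hend⟩ := hc
  have hsub : Icc α' β' ⊆ Icc α β := Icc_subset_Icc hα hβ
  have key : ∀ s ∈ Icc α' β', G (γ s) ∈ N ∧
      |X (G (γ s)) - X (F (γ s))| < min (am - bm) (bp - ap) ∧ |Y (G (γ s))| ≤ ε := by
    intro s hs
    have h2 := hμ _ (hD' s hs) (G (γ s)) (by rw [dist_comm]; exact hGF _ (hγD s (hsub hs)))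
    refine ⟨h2.1, h2.2.1, ?_⟩
    have h3 := (hD' s hs).2.2.2
    have h4 := abs_lt.mp h2.2.2
    have h5 := abs_le.mp h3
    simp only at h5
    exact abs_le.mpr ⟨by linarith [h4.1, h5.1], by linarith [h4.2, h5.2]⟩
  have hcont : ContinuousOn (fun s => G (γ s)) (Icc α' β') :=
    hG.comp_continuousOn (hγ.mono hsub)
  have hXc : ContinuousOn (fun s => X (G (γ s))) (Icc α' β') :=
    hB.cX.continuousOn.comp hcont (fun s hs => (key s hs).1)
  have hα' : α' ∈ Icc α' β' := ⟨le_rfl, hab⟩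
  have hβ' : β' ∈ Icc α' β' := ⟨hab, le_rfl⟩
  have ka := abs_lt.mp (key α' hα').2.1
  have kb := abs_lt.mp (key β' hβ').2.1
  have m1 : min (am - bm) (bp - ap) ≤ am - bm := min_le_left _ _
  have m2 : min (am - bm) (bp - ap) ≤ bp - ap := min_le_right _ _
  have hh : ((X (G (γ α')) ≤ am ∧ ap ≤ X (G (γ β'))) ∨ (ap ≤ X (G (γ α')) ∧ X (G (γ β')) ≤ am)) := by
    rcases hend with ⟨e1, e2⟩ | ⟨e1, e2⟩
    · left
      simp only at e1 e2
      constructor
      · linarith [ka.2]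
      · linarith [kb.1]
    · right
      simp only at e1 e2
      constructor
      · linarith [ka.1]
      · linarith [kb.2]
  obtain ⟨α'', β'', a1, a2, a3, a4, a5⟩ := h1 (fun s => X (G (γ s))) α' β' am ap hap hab hXc hh
  refine ⟨α'', β'', a1, a3, a2, hcont.mono (Icc_subset_Icc a1 a3), fun s hs => ?_, a5⟩
  have hs' : s ∈ Icc α' β' := Icc_subset_Icc a1 a3 hs
  exact ⟨(key s hs').1, (a4 s hs).1, (a4 s hs).2, (key s hs').2.2⟩

theorem hSta (h1 : StSub) : StSta := by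
  intro lam φ N X Y r l L t0 am ap bm bp ε m1 m2 hlam hB hbm hbmam hamap hapbp hbpr hbpl hε hεr hC
  have hl0 : 0 < l := by linarith [hB.hl]
  have hL1 : 1 < L := lt_of_lt_of_le hB.hl hB.hL
  have hr := hB.hr
  have hbp0 : 0 < bp := by linarith
  have hbpr' : bp ≤ r := by
    refine hbpr.trans ?_
    rw [div_le_iff₀ (by linarith)]
    nlinarith
  have hbl : bp / l < bm := by
    rw [div_lt_iff₀ hl0]
    linarith
  have hbl0 : 0 < bp / l := div_pos hbp0 hl0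
  have cD : IsCompact (win N X Y am ap ε) :=
    win_compact_Sta hB _ _ _ (by linarith) (by linarith) hεr
  have cD' : IsCompact (win N X Y bm bp (ε / 2)) :=
    win_compact_Sta hB _ _ _ (by linarith) hbpr' (by linarith)
  have cE : IsCompact (win N X Y (-(bp / l)) (bp / l) r) :=
    win_compact_Sta hB _ _ _ (by linarith) (by linarith) le_rfl
  have hdis : Disjoint (win N X Y am ap ε) (win N X Y (-(bp / l)) (bp / l) r) := by
    rw [Set.disjoint_left]
    intro z hz hz'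
    have a1 := hz.2.1
    have a2 := hz'.2.2.1
    linarith
  obtain ⟨μ2, hμ2, hdis2⟩ := hdis.symm.exists_cthickenings cE cD.isClosed
  -- the uniform neighbourhood of D'
  have hη : 0 < min (am - bm) (bp - ap) := lt_min (by linarith) (by linarith)
  obtain ⟨ν1, hν1, hN1⟩ := cD'.exists_cthickening_subset_open hB.opn (fun z hz => hz.1)
  have hXa : ∀ a ∈ win N X Y bm bp (ε / 2), ContinuousAt X a := fun a ha =>
    hB.cX.continuousOn.continuousAt (hB.opn.mem_nhds ha.1)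
  have hYa : ∀ a ∈ win N X Y bm bp (ε / 2), ContinuousAt Y a := fun a ha =>
    hB.cY.continuousAt (hB.opn.mem_nhds ha.1)
  have uX := cD'.uniformContinuousAt_of_continuousAt X hXa (Metric.dist_mem_uniformity hη)
  have uY := cD'.uniformContinuousAt_of_continuousAt Y hYa
    (Metric.dist_mem_uniformity (half_pos hε))
  rw [Metric.mem_uniformity_dist] at uX uY
  obtain ⟨ν2, hν2, hX2⟩ := uX
  obtain ⟨ν3, hν3, hY3⟩ := uY
  set μ1 := min ν1 (min ν2 ν3) with hμ1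
  have hμ1pos : 0 < μ1 := lt_min hν1 (lt_min hν2 hν3)
  have hμ : ∀ z ∈ win N X Y bm bp (ε / 2), ∀ z', dist z z' < μ1 →
      z' ∈ N ∧ |X z' - X z| < min (am - bm) (bp - ap) ∧ |Y z' - Y z| < ε / 2 := by
    intro z hz z' hd
    have d1 : dist z z' < ν1 := lt_of_lt_of_le hd (min_le_left _ _)
    have d2 : dist z z' < ν2 := lt_of_lt_of_le hd ((min_le_right _ _).trans (min_le_left _ _))
    have d3 : dist z z' < ν3 := lt_of_lt_of_le hd ((min_le_right _ _).trans (min_le_right _ _))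
    refine ⟨hN1 (Metric.mem_cthickening_of_dist_le z' z ν1 _ hz (by rw [dist_comm]; exact d1.le)), ?_, ?_⟩
    · have := hX2 d2 hz
      simp only [mem_ofPred_eq] at this
      rw [dist_comm, Real.dist_eq] at this
      exact this
    · have := hY3 d3 hz
      simp only [mem_ofPred_eq] at this
      rw [dist_comm, Real.dist_eq] at this
      exact this
  have hμ12 : 0 < min μ1 μ2 := lt_min hμ1pos hμ2
  obtain ⟨δ1, hδ1, hc1⟩ := close_Sta lam _ cD m1 _ hμ12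
  obtain ⟨δ2, hδ2, hc2⟩ := close_Sta lam _ cD m2 _ hμ12
  refine ⟨Metric.cthickening μ2 (win N X Y (-(bp / l)) (bp / l) r), min δ1 δ2, lt_min hδ1 hδ2,
    cE.cthickening, cD, ?_, ?_⟩
  · exact (hdis2.mono_right (Metric.self_subset_cthickening _)).symm
  intro b c hb hc γ α β hcr
  have hcon : ∀ j : ℕ, Continuous ((hen b c)^[j]) := by
    intro j
    have h := (cont_iter_Sta j).comp (f := fun z : ℝ × ℝ => (b, c, z))
      (continuous_const.prodMk (continuous_const.prodMk continuous_id))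
    exact h
  have hb1 : |b - 1| < δ1 := lt_of_lt_of_le hb (min_le_left _ _)
  have hb2 : |b - 1| < δ2 := lt_of_lt_of_le hb (min_le_right _ _)
  have hc1' : |c - cc lam| < δ1 := lt_of_lt_of_le hc (min_le_left _ _)
  have hc2' : |c - cc lam| < δ2 := lt_of_lt_of_le hc (min_le_right _ _)
  obtain ⟨⟨α1, β1, p1, p2, p3⟩, ⟨α2, β2, q1, q2, q3, q4⟩⟩ := hC γ α β hcr
  obtain ⟨-, hγc, hγD, -⟩ := hcr
  constructor
  · obtain ⟨α'', β'', e1, e2, e3⟩ := core_Sta h1 hB hamap hμ (hcon m1) (D := win N X Y am ap ε)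
      (fun z hz => lt_of_lt_of_le (hc1 b c hb1 hc1' z hz) (min_le_left _ _)) hγc hγD p1 p2 p3
    exact ⟨α'', β'', p1.trans e1, e2.trans p2, e3⟩
  · obtain ⟨α'', β'', e1, e2, e3⟩ := core_Sta h1 hB hamap hμ (hcon m2) (D := win N X Y am ap ε)
      (fun z hz => lt_of_lt_of_le (hc2 b c hb2 hc2' z hz) (min_le_left _ _)) hγc hγD q1 q2 q3
    refine ⟨α'', β'', q1.trans e1, e2.trans q2, e3, fun s hs => ?_⟩
    have hs2 : s ∈ Icc α2 β2 := Icc_subset_Icc e1 e2 hs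
    have hs3 : s ∈ Icc α β := Icc_subset_Icc q1 q2 hs2
    have h5 := hc1 b c hb1 hc1' (γ s) (hγD s hs3)
    exact Metric.mem_cthickening_of_dist_le _ _ _ _ (q4 s hs2)
      (lt_of_lt_of_le h5 (min_le_right _ _)).le

end Helper83.PE
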