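import Pool.Agent.Helper83.PE.St

set_option autoImplicit false

open Set Filter Topology

namespace Helper83.PE

private theorem sub1_Sub (h : ℝ → ℝ) (α β u v : ℝ) (huv : u < v) (hab : α ≤ β) (hc : ContinuousOn h (Icc α β))
    (h1 : h α ≤ u) (h2 : v ≤ h β) : ∃ α' β', α ≤ α' ∧ α' ≤ β' ∧ β' ≤ β ∧
    (∀ s ∈ Icc α' β', u ≤ h s ∧ h s ≤ v) ∧ (h α' = u ∧ h β' = v) := by
  have hA : IsCompact (Icc α β ∩ h ⁻¹' Iic u) :=
    isCompact_Icc.of_isClosed_subset (hc.preimage_isClosed_of_isClosed isClosed_Icc isClosed_Iic) inter_subset_left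
  obtain ⟨a, ha⟩ := hA.exists_isGreatest ⟨α, ⟨le_refl _, hab⟩, h1⟩
  have haI : a ∈ Icc α β := ha.1.1
  have hau : h a ≤ u := ha.1.2
  have hcA : ContinuousOn h (Icc a β) := hc.mono (Icc_subset_Icc_left haI.1)
  have hha : h a = u := by
    obtain ⟨s, hs, hsu⟩ := intermediate_value_Icc haI.2 hcA ⟨hau, (huv.le.trans h2)⟩
    have : s ≤ a := ha.2 ⟨⟨haI.1.trans hs.1, hs.2⟩, hsu.le⟩
    rw [← le_antisymm this hs.1]; exact hsu
  have hB : IsCompact (Icc a β ∩ h ⁻¹' Ici v) :=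
    isCompact_Icc.of_isClosed_subset (hcA.preimage_isClosed_of_isClosed isClosed_Icc isClosed_Ici) inter_subset_left
  obtain ⟨b, hb⟩ := hB.exists_isLeast ⟨β, ⟨haI.2, le_refl _⟩, h2⟩
  have hbI : b ∈ Icc a β := hb.1.1
  have hbv : v ≤ h b := hb.1.2
  have hhb : h b = v := by
    obtain ⟨s, hs, hsv⟩ := intermediate_value_Icc hbI.1 (hcA.mono (Icc_subset_Icc_right hbI.2))
      ⟨hha.le.trans huv.le, hbv⟩
    have : b ≤ s := hb.2 ⟨⟨hs.1, hs.2.trans hbI.2⟩, hsv.ge⟩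
    rw [le_antisymm this hs.2]; exact hsv
  refine ⟨a, b, haI.1, hbI.1, hbI.2, fun s hs => ⟨?_, ?_⟩, hha, hhb⟩
  · by_contra hlt
    push Not at hlt
    have h3 : s ≤ a := ha.2 ⟨⟨haI.1.trans hs.1, hs.2.trans hbI.2⟩, hlt.le⟩
    have : s = a := le_antisymm h3 hs.1
    rw [this, hha] at hlt
    exact lt_irrefl _ hlt
  · by_contra hlt
    push Not at hlt
    have h3 : b ≤ s := hb.2 ⟨⟨hs.1, hs.2.trans hbI.2⟩, hlt.le⟩
    have : s = b := le_antisymm hs.2 h3
    rw [this, hhb] at hlt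
    exact lt_irrefl _ hlt

theorem hSub : StSub := by
  intro h α β u v huv hab hc hor
  rcases hor with ⟨h1, h2⟩ | ⟨h1, h2⟩
  · obtain ⟨a, b, k1, k2, k3, k4, k5⟩ := sub1_Sub h α β u v huv hab hc h1 h2
    exact ⟨a, b, k1, k2, k3, k4, Or.inl k5⟩
  · have hc' : ContinuousOn (fun s => h (α + β - s)) (Icc α β) := by
      refine hc.comp (by fun_prop) ?_
      intro s hs
      simp only [mem_Icc] at hs ⊢
      constructor <;> linarith [hs.1, hs.2]
    obtain ⟨a, b, k1, k2, k3, k4, k5, k6⟩ := sub1_Sub (fun s => h (α + β - s)) α β u v huv hab hc'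
      (by simpa using h2) (by simpa using h1)
    refine ⟨α + β - b, α + β - a, by linarith, by linarith, by linarith, ?_, Or.inr ⟨k6, k5⟩⟩
    intro s hs
    have := k4 (α + β - s) ⟨by linarith [hs.2], by linarith [hs.1]⟩
    simpa using this

end Helper83.PE
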