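import Pool.Agent.Helper83.PE.St

set_option autoImplicit false

open Set Filter Topology
open Helper85.HN (hen Orb Bd KK E0)

noncomputable section

namespace Helper83.PE

theorem hasDeriv_vv_Tra (φ : ℂ → ℂ) (hd : Differentiable ℂ φ) (t : ℝ) :
    HasDerivAt (vv φ) (deriv φ (t : ℂ)).re t :=
  ((hd (t : ℂ)).hasDerivAt).real_of_complex

theorem eq_ofReal_Tra (lam : ℝ) (φ : ℂ → ℂ) (h : UPar lam φ) (t : ℝ) :
    φ (t : ℂ) = ((vv φ t : ℝ) : ℂ) := by
  apply Complex.ext
  · simp [vv]
  · rw [h.2.2.2.2 t]; simp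

theorem real_eq_Tra (lam : ℝ) (φ : ℂ → ℂ) (h : UPar lam φ) (t : ℝ) :
    vv φ (lam * t) + vv φ (t / lam) = vv φ t ^ 2 + cc lam := by
  have h1 := h.2.2.2.1 (t : ℂ)
  have e1 : (lam : ℂ) * (t : ℂ) = ((lam * t : ℝ) : ℂ) := by push_cast; ring
  have e2 : (t : ℂ) / (lam : ℂ) = ((t / lam : ℝ) : ℂ) := by push_cast; ring
  rw [e1, e2, eq_ofReal_Tra lam φ h, eq_ofReal_Tra lam φ h, eq_ofReal_Tra lam φ h] at h1
  exact_mod_cast h1

theorem deriv_eq_Tra (lam : ℝ) (φ : ℂ → ℂ) (hl : 1 < lam) (h : UPar lam φ) (t : ℝ) :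
    lam * (deriv φ ((lam * t : ℝ) : ℂ)).re + (deriv φ ((t / lam : ℝ) : ℂ)).re / lam
      = 2 * vv φ t * (deriv φ (t : ℂ)).re := by
  have h1 : HasDerivAt (fun s : ℝ => vv φ (lam * s) + vv φ (s / lam))
      ((deriv φ ((lam * t : ℝ) : ℂ)).re * lam + (deriv φ ((t / lam : ℝ) : ℂ)).re * (1 / lam)) t := by
    have hA : HasDerivAt (fun s : ℝ => lam * s) lam t := by
      simpa using (hasDerivAt_id t).const_mul lam
    have hB : HasDerivAt (fun s : ℝ => s / lam) (1 / lam) t := (hasDerivAt_id t).div_const lam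
    have hA' : HasDerivAt (fun s : ℝ => vv φ (lam * s))
        ((deriv φ ((lam * t : ℝ) : ℂ)).re * lam) t :=
      HasDerivAt.comp (h₂ := vv φ) (h := fun s : ℝ => lam * s) t (hasDeriv_vv_Tra φ h.1 (lam * t)) hA
    have hB' : HasDerivAt (fun s : ℝ => vv φ (s / lam))
        ((deriv φ ((t / lam : ℝ) : ℂ)).re * (1 / lam)) t :=
      HasDerivAt.comp (h₂ := vv φ) (h := fun s : ℝ => s / lam) t (hasDeriv_vv_Tra φ h.1 (t / lam)) hB
    exact hA'.add hB'
  have h2 : HasDerivAt (fun s : ℝ => vv φ s ^ 2 + cc lam)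
      (2 * vv φ t * (deriv φ (t : ℂ)).re) t := by
    have := ((hasDeriv_vv_Tra φ h.1 t).pow 2).add_const (cc lam)
    simpa using this
  have h3 : (fun s : ℝ => vv φ (lam * s) + vv φ (s / lam)) = fun s : ℝ => vv φ s ^ 2 + cc lam := by
    funext s
    exact real_eq_Tra lam φ h s
  rw [h3] at h1
  have := h1.unique h2
  rw [← this]
  ring

theorem hTra (h1 : StCas) : StTra := by
  intro lam φ T hl h hF
  obtain ⟨hT, hT1, hT2⟩ := hF
  have hl0 : (0 : ℝ) < lam := by linarith
  have hd : ∀ t, deriv (vv φ) t = (deriv φ (t : ℂ)).re := fun t => (hasDeriv_vv_Tra φ h.1 t).deriv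
  have hcont : Continuous (deriv φ) := (h.1.contDiff (n := 1)).continuous_deriv (le_refl _)
  set v' : ℝ → ℝ := fun t => (deriv φ (t : ℂ)).re with hv'
  have hv'c : Continuous v' := Complex.continuous_re.comp (hcont.comp Complex.continuous_ofReal)
  have hv'0 : v' 0 = -1 := by
    simp only [hv']
    rw [Complex.ofReal_zero, h.2.2.1]
    simp
  set t : ℕ → ℝ := fun m => lam * T / lam ^ m with ht
  have htpos : ∀ m, 0 < t m := fun m => by simp only [ht]; positivity
  have ht0 : Tendsto t atTop (𝓝 0) := by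
    have h2 : Tendsto (fun m : ℕ => (lam * T) * (lam⁻¹) ^ m) atTop (𝓝 ((lam * T) * 0)) :=
      (tendsto_pow_atTop_nhds_zero_of_lt_one (by positivity) (inv_lt_one_of_one_lt₀ hl)).const_mul _
    rw [mul_zero] at h2
    refine h2.congr fun m => ?_
    simp only [ht, inv_pow, div_eq_mul_inv]
  have htm : ∀ m, lam * t (m + 1) = t m := fun m => by
    simp only [ht, pow_succ]; field_simp
  have htm' : ∀ m, t (m + 1) / lam = t (m + 2) := fun m => by
    simp only [ht, pow_succ]; field_simp
  have hvc : Continuous (vv φ) := Complex.continuous_re.comp (h.1.continuous.comp Complex.continuous_ofReal)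
  have hv0 : vv φ 0 = pp lam := by
    simp only [vv]
    rw [Complex.ofReal_zero, h.2.1]
    simp
  have key := h1 (cc lam) (pp lam) (fun m => vv φ (t m)) (fun m => -(t m) * v' (t m))
    (fun m => by
      have := real_eq_Tra lam φ h (t (m + 1))
      rw [htm, htm'] at this
      exact this)
    (fun m => by
      have h3 := deriv_eq_Tra lam φ hl h (t (m + 1))
      rw [htm, htm'] at h3
      show -(t m) * v' (t m) + -(t (m + 2)) * v' (t (m + 2))
        = 2 * vv φ (t (m + 1)) * (-(t (m + 1)) * v' (t (m + 1)))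
      have h4 : lam * v' (t m) + v' (t (m + 2)) / lam = 2 * vv φ (t (m + 1)) * v' (t (m + 1)) := h3
      rw [← htm m, ← htm' m]
      rw [← htm m, ← htm' m] at h4
      have h5 : 2 * vv φ (t (m + 1)) * (-(t (m + 1)) * v' (t (m + 1)))
          = -(t (m + 1)) * (2 * vv φ (t (m + 1)) * v' (t (m + 1))) := by ring
      rw [h5, ← h4]
      ring)
    (by
      show vv φ (t 0) = vv φ (t 1)
      have e0 : t 0 = lam * T := by simp [ht]
      have e1 : t 1 = T := by simp only [ht, pow_one]; field_simp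
      rw [e0, e1, hT1])
    (fun m hm => by
      show vv φ (t m) < vv φ (t (m + 1))
      have h3 := hT2 (t (m + 1)) (htpos _) (by
        simp only [ht]
        rw [div_lt_iff₀ (by positivity), pow_succ]
        have h4 : 1 < lam ^ m := one_lt_pow₀ hl (by omega)
        nlinarith [mul_pos hl0 hT])
      rw [htm] at h3
      exact h3)
    (by
      have := (hvc.tendsto 0).comp ht0
      rw [hv0] at this
      exact this)
    (by
      have h3 := (ht0.neg).mul ((hv'c.tendsto 0).comp ht0)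
      rw [neg_zero, zero_mul] at h3
      exact h3)
    (by
      have h3 : ∀ᶠ m in atTop, v' (t m) < 0 := by
        have h4 := (hv'c.tendsto 0).comp ht0
        rw [hv'0] at h4
        exact h4.eventually_lt_const (by norm_num)
      obtain ⟨M, hM⟩ := eventually_atTop.mp h3
      exact ⟨M, fun m hm => by
        show 0 < -(t m) * v' (t m)
        nlinarith [hM m hm, htpos m, mul_pos (htpos m) (neg_pos.mpr (hM m hm))]⟩)
  obtain ⟨k0, k1⟩ := key
  have e0 : t 0 = lam * T := by simp [ht]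
  have e1 : t 1 = T := by simp only [ht, pow_one]; field_simp
  rw [hd, hd]
  constructor
  · have k1' : 0 < -(t 1) * v' (t 1) := k1
    rw [e1] at k1'
    show v' T < 0
    by_contra hc
    rw [not_lt] at hc
    nlinarith [mul_nonneg hT.le hc]
  · have k0' : -(t 0) * v' (t 0) < 0 := k0
    rw [e0] at k0'
    show 0 < v' (lam * T)
    by_contra hc
    rw [not_lt] at hc
    nlinarith [mul_nonneg (mul_pos hl0 hT).le (neg_nonneg.mpr hc)]

end Helper83.PE
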