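import Pool.Agent.Helper83.PE.St

set_option autoImplicit false

open Set Filter Topology

noncomputable section

namespace Helper83.PE

private theorem corr_up {lam : ℝ} {φ : ℂ → ℂ} (hl : 1 < lam) (h : UPar lam φ) {w s : ℂ}
    (hc : Corr lam φ w s) : Corr lam φ ((lam : ℂ) * w) (s / (lam : ℂ)) := by
  have hl0 : (lam : ℂ) ≠ 0 := by
    have : lam ≠ 0 := by linarith
    exact_mod_cast this
  obtain ⟨-, -, -, hE, -⟩ := h
  obtain ⟨h1, h2⟩ := hc
  have e1 := hE w
  have e2 := hE (s / (lam : ℂ))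
  rw [mul_div_cancel₀ _ hl0] at e2
  constructor
  · have : φ ((lam : ℂ) * w) = φ w ^ 2 + (cc lam : ℂ) - φ (w / (lam : ℂ)) := by
      linear_combination e1
    rw [this, h1, h2]
    linear_combination (-1 : ℂ) * e2
  · rw [mul_div_cancel_left₀ _ hl0]
    exact h1

private theorem corr_down {lam : ℝ} {φ : ℂ → ℂ} (hl : 1 < lam) (h : UPar lam φ) {z s : ℂ}
    (hc : Corr lam φ z s) : Corr lam φ (z / (lam : ℂ)) ((lam : ℂ) * s) := by
  have hl0 : (lam : ℂ) ≠ 0 := by
    have : lam ≠ 0 := by linarith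
    exact_mod_cast this
  obtain ⟨-, -, -, hE, -⟩ := h
  obtain ⟨h1, h2⟩ := hc
  have e1 := hE (z / (lam : ℂ))
  have e2 := hE s
  rw [mul_div_cancel₀ _ hl0] at e1
  constructor
  · rw [mul_div_cancel_left₀ _ hl0]
    exact h2
  · have : φ (z / (lam : ℂ) / (lam : ℂ)) = φ (z / (lam : ℂ)) ^ 2 + (cc lam : ℂ) - φ z := by
      linear_combination e1
    rw [this, h1, h2]
    linear_combination (-1 : ℂ) * e2

theorem hUsc : StUsc := by
  intro lam φ hl h t s hL
  have hl0 : (lam : ℂ) ≠ 0 := by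
    have : lam ≠ 0 := by linarith
    exact_mod_cast this
  obtain ⟨ht, hs, τ, ha, hτ, hc⟩ := hL
  constructor
  · refine ⟨mul_ne_zero hl0 ht, div_ne_zero hs hl0, fun z => τ (z / (lam : ℂ)) / (lam : ℂ), ?_, ?_, ?_⟩
    · have h1 : AnalyticAt ℂ (fun z : ℂ => z / (lam : ℂ)) ((lam : ℂ) * t) :=
        analyticAt_id.div_const
      have h2 : AnalyticAt ℂ τ ((fun z : ℂ => z / (lam : ℂ)) ((lam : ℂ) * t)) := by
        simp only [mul_div_cancel_left₀ _ hl0]
        exact ha
      exact (AnalyticAt.comp (g := τ) (f := fun z : ℂ => z / (lam : ℂ)) h2 h1).div_const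
    · simp only [mul_div_cancel_left₀ _ hl0, hτ]
    · have h1 : Tendsto (fun z : ℂ => z / (lam : ℂ)) (𝓝 ((lam : ℂ) * t)) (𝓝 t) := by
        have : ContinuousAt (fun z : ℂ => z / (lam : ℂ)) ((lam : ℂ) * t) :=
          continuousAt_id.div_const _
        have h3 := this.tendsto
        simp only [mul_div_cancel_left₀ _ hl0] at h3
        exact h3
      filter_upwards [h1.eventually hc] with z hz
      have h4 := corr_up hl h hz
      rw [mul_div_cancel₀ _ hl0] at h4
      exact h4
  · refine ⟨div_ne_zero ht hl0, mul_ne_zero hl0 hs, fun w => (lam : ℂ) * τ ((lam : ℂ) * w), ?_, ?_, ?_⟩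
    · have h1 : AnalyticAt ℂ (fun w : ℂ => (lam : ℂ) * w) (t / (lam : ℂ)) :=
        analyticAt_const.mul analyticAt_id
      have h2 : AnalyticAt ℂ τ ((fun w : ℂ => (lam : ℂ) * w) (t / (lam : ℂ))) := by
        simp only [mul_div_cancel₀ _ hl0]
        exact ha
      exact analyticAt_const.mul (AnalyticAt.comp (g := τ) (f := fun w : ℂ => (lam : ℂ) * w) h2 h1)
    · simp only [mul_div_cancel₀ _ hl0, hτ]
    · have h1 : Tendsto (fun w : ℂ => (lam : ℂ) * w) (𝓝 (t / (lam : ℂ))) (𝓝 t) := by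
        have : ContinuousAt (fun w : ℂ => (lam : ℂ) * w) (t / (lam : ℂ)) :=
          continuousAt_const.mul continuousAt_id
        have h3 := this.tendsto
        simp only [mul_div_cancel₀ _ hl0] at h3
        exact h3
      filter_upwards [h1.eventually hc] with w hw
      have h4 := corr_down hl h hw
      rw [mul_div_cancel_left₀ _ hl0] at h4
      exact h4

end Helper83.PE
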