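import Pool.Agent.Helper83.PE.St

/-!
# PE, module Word: prescribed itineraries
-/

set_option autoImplicit false

open Set

namespace Helper83.PE

private lemma step_Word (g : ℝ × ℝ → ℝ × ℝ) (X : ℝ × ℝ → ℝ) (D E : Set (ℝ × ℝ)) (am ap : ℝ) (m1 m2 : ℕ)
    (hC : Covs g X D D E am ap am ap m1 m2) (γ : ℝ → ℝ × ℝ) (α β : ℝ) (h : Cross X D am ap γ α β) (b : Bool) :
    ∃ α' β', α ≤ α' ∧ β' ≤ β ∧ Cross X D am ap (fun s => g^[m1 + m2] (γ s)) α' β' ∧
      ∀ s ∈ Icc α' β', g^[m1] (γ s) ∈ (if b = true then D else E) := by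
  cases b with
  | true =>
    obtain ⟨⟨a1, b1, h1, h2, h3⟩, -⟩ := hC γ α β h
    obtain ⟨-, ⟨a2, b2, h4, h5, h6, -⟩⟩ := hC _ a1 b1 h3
    refine ⟨a2, b2, h1.trans h4, h5.trans h2, ?_, ?_⟩
    · have : (fun s => g^[m1 + m2] (γ s)) = fun s => g^[m2] (g^[m1] (γ s)) := by
        funext s
        rw [add_comm, Function.iterate_add_apply]
      rw [this]
      exact h6
    · intro s hs
      simp only [if_true]
      exact h3.2.2.1 s ⟨h4.trans hs.1, hs.2.trans h5⟩
  | false =>
    obtain ⟨-, ⟨a1, b1, h1, h2, h3, h3'⟩⟩ := hC γ α β h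
    obtain ⟨⟨a2, b2, h4, h5, h6⟩, -⟩ := hC _ a1 b1 h3
    refine ⟨a2, b2, h1.trans h4, h5.trans h2, ?_, ?_⟩
    · have : (fun s => g^[m1 + m2] (γ s)) = fun s => g^[m1] (g^[m2] (γ s)) := by
        funext s
        rw [Function.iterate_add_apply]
      rw [this]
      exact h6
    · intro s hs
      simp only [Bool.false_eq_true, if_false]
      exact h3' s ⟨h4.trans hs.1, hs.2.trans h5⟩

/-- Prescribed itineraries. -/
theorem hWord : StWord := by
  intro g X D E am ap m1 m2 hC hi w k
  have key : ∀ k : ℕ, ∃ (γ : ℝ → ℝ × ℝ) (α β : ℝ),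
      Cross X D am ap (fun s => g^[k * (m1 + m2)] (γ s)) α β ∧
      ∀ s ∈ Icc α β, (∀ j ≤ k, g^[j * (m1 + m2)] (γ s) ∈ D) ∧
        ∀ j < k, g^[j * (m1 + m2) + m1] (γ s) ∈ (if w j = true then D else E) := by
    intro k
    induction k with
    | zero =>
      obtain ⟨γ, α, β, h⟩ := hi
      refine ⟨γ, α, β, ?_, ?_⟩
      · simpa using h
      · intro s hs
        refine ⟨?_, ?_⟩
        · intro j hj
          have : j = 0 := by omega
          subst this
          simpa using h.2.2.1 s hs
        · intro j hj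
          omega
    | succ k ih =>
      obtain ⟨γ, α, β, h, hs⟩ := ih
      obtain ⟨a, b, h1, h2, h3, h4⟩ := step_Word g X D E am ap m1 m2 hC _ α β h (w k)
      have e1 : (fun s => g^[m1 + m2] (g^[k * (m1 + m2)] (γ s))) = fun s => g^[(k + 1) * (m1 + m2)] (γ s) := by
        funext s
        rw [← Function.iterate_add_apply]
        congr 2
        ring
      refine ⟨γ, a, b, ?_, ?_⟩
      · rw [← e1]
        exact h3
      · intro s hsab
        have hsαβ : s ∈ Icc α β := ⟨h1.trans hsab.1, hsab.2.trans h2⟩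
        refine ⟨?_, ?_⟩
        · intro j hj
          rcases Nat.lt_or_ge k j with hkj | hkj
          · have : j = k + 1 := by omega
            subst this
            have h5 := h3.2.2.1 s hsab
            have h6 := congrFun e1 s
            simp only at h6 h5
            rw [← h6]
            exact h5
          · exact (hs s hsαβ).1 j hkj
        · intro j hj
          rcases Nat.lt_or_ge j k with hkj | hkj
          · exact (hs s hsαβ).2 j hkj
          · have : j = k := by omega
            subst this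
            have h5 := h4 s hsab
            rw [add_comm, Function.iterate_add_apply]
            exact h5
  obtain ⟨γ, α, β, h, hs⟩ := key k
  have hα : α ∈ Icc α β := ⟨le_rfl, h.1⟩
  refine ⟨γ α, ?_, (hs α hα).1, (hs α hα).2⟩
  simpa using (hs α hα).1 0 (Nat.zero_le k)

end Helper83.PE
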