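import Pool.Agent.Helper85.HN.Main
import Pool.Agent.Helper83.PE.M_Coef
import Pool.Agent.Helper83.PE.M_Phi
import Pool.Agent.Helper83.PE.M_Inj
import Pool.Agent.Helper83.PE.M_Usc
import Pool.Agent.Helper83.PE.M_Ulim
import Pool.Agent.Helper83.PE.M_Ush
import Pool.Agent.Helper83.PE.M_Fir
import Pool.Agent.Helper83.PE.M_Cas
import Pool.Agent.Helper83.PE.M_Tra
import Pool.Agent.Helper83.PE.M_Odd
import Pool.Agent.Helper83.PE.M_Sgn
import Pool.Agent.Helper83.PE.M_Gra
import Pool.Agent.Helper83.PE.M_BoxX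
import Pool.Agent.Helper83.PE.M_BoxY
import Pool.Agent.Helper83.PE.M_Box
import Pool.Agent.Helper83.PE.M_Q
import Pool.Agent.Helper83.PE.M_Rect
import Pool.Agent.Helper83.PE.M_Pass
import Pool.Agent.Helper83.PE.M_Cov
import Pool.Agent.Helper83.PE.M_Sub
import Pool.Agent.Helper83.PE.M_Sta
import Pool.Agent.Helper83.PE.M_Word
import Pool.Agent.Helper83.PE.M_Bi
import Pool.Agent.Helper83.PE.M_Ent
import Pool.Agent.Helper83.PE.M_Nbd
import Pool.Agent.Helper83.PE.M_FinA
import Pool.Agent.Helper83.PE.M_FinC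
import Pool.Agent.Helper83.PE.M_FinD
import Pool.Agent.Helper83.PE.M_Fin
import Pool.Agent.Helper83.PE.M_Asm

set_option autoImplicit false

namespace Helper83.PE

theorem phi : StPhi := hPhi hCoef
theorem ulim : StUlim := hUlim hInj
theorem ush : StUsh := hUsh hInj hUsc ulim
theorem sgn : StSgn := hSgn (hOdd ush)
theorem box : StBox := hBox hGra hBoxX hBoxY
theorem nbd : StNbd :=
  hNbd phi hFir (hTra hCas) box (hQ sgn) hRect (hCov hPass) (hSta hSub) hWord hBi hEnt Helper85.HN.hKc
theorem finA : StFinA := hFinA nbd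
theorem finC : StFinC := hFinC finA Helper85.HN.main
theorem fin : StFin := hFin finA finC hFinD
theorem main : StMain := asm fin Helper85.HN.main

end Helper83.PE
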