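import Pool.Agent.Helper85.HN.St

/-!
# MP_b39980_an, project PE: positive entropy of the real Henon family near the conservative line `b = 1`, `c < 1`

Final theorem (module Fin): every point `(1,c)`, `c < 1`, has a neighbourhood on which the entropy is positive; hence (with
ThinHorn of helper85) `(1,1)` is a frontier point of `E0`, at every height `1 - ε` there are frontier points on both sides of
`b = 1`, exponentially close to it, and the frontier of `E0` is not (contained in) a `C¹` curve near `(1,1)`.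

Everything for the conservative map `ff lam = hen 1 (cc lam)`, `lam > 1` the large eigenvalue of the saddle `(pp lam, pp lam)`.
`φ` is the entire function with `φ (lam t) + φ (t/lam) = φ(t)² + c` (Poincare): `Wu t = (φ t, φ (t/lam))` (real `t`) is the unstable
manifold, `ff (Wu t) = Wu (lam t)`; `Ws t = (φ (t/lam), φ t)` is the stable manifold, `ff (Ws t) = Ws (t/lam)`.

1. (Fir, Cas, Tra) first symmetric homoclinic point `q = Wu (lam T) = Ws (lam T)`; `W^u` is transversal to the diagonal there.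
2. (Ulim, Usc, Ush) `W^u` and `W^s` do not coincide near `q`: otherwise there is a holomorphic correspondence `τ` with
   `Φ t = R Φ (τ t)`, `τ (lam t) = τ(t)/lam`; `g t = t τ(t)` is `lam`-invariant, `|g| → ∞` at the boundary of the domain, so `|g|` has a
   minimum, `g` is constant, `φ` is bounded: contradiction with Liouville.
3. (Odd, Sgn) so `W^u` and `W^s` cross topologically at `q` (odd order of contact).
4. (W, BoxX, BoxY, Box) coordinates near the saddle; (Q, Rect, Pass, Cov) covering relations; (Sta) they are stable; (Word, Bi, Ent) entropy.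

Every module `M_XX.lean` in `Pool/Agent/Helper83/PE/` proves `theorem hXX : StXX` (with the hypotheses named in its row).
-/

set_option autoImplicit false

open Set Filter Topology
open Helper85.HN (hen Orb Bd KK E0)

noncomputable section

namespace Helper83.PE

/-! ## Definitions -/

/-- The saddle fixed point is `(pp lam, pp lam)`. -/
def pp (lam : ℝ) : ℝ := (lam + lam⁻¹) / 2

/-- The parameter `c`: `pp² + c - pp = pp`. For `lam > 1` it takes every value `c < 1`. -/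
def cc (lam : ℝ) : ℝ := 2 * pp lam - pp lam ^ 2

/-- The conservative Henon map. -/
def ff (lam : ℝ) : ℝ × ℝ → ℝ × ℝ := hen 1 (cc lam)

/-- `φ` is the entire parametrisation of the unstable manifold. -/
def UPar (lam : ℝ) (φ : ℂ → ℂ) : Prop := Differentiable ℂ φ ∧ φ 0 = (pp lam : ℂ) ∧ deriv φ 0 = -1 ∧
  (∀ t : ℂ, φ ((lam : ℂ) * t) + φ (t / (lam : ℂ)) = φ t ^ 2 + (cc lam : ℂ)) ∧ ∀ t : ℝ, (φ (t : ℂ)).im = 0

/-- The real function. -/
def vv (φ : ℂ → ℂ) (t : ℝ) : ℝ := (φ (t : ℂ)).re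

/-- Unstable manifold. -/
def Wu (lam : ℝ) (φ : ℂ → ℂ) (t : ℝ) : ℝ × ℝ := (vv φ t, vv φ (t / lam))

/-- Stable manifold. -/
def Ws (lam : ℝ) (φ : ℂ → ℂ) (t : ℝ) : ℝ × ℝ := (vv φ (t / lam), vv φ t)

/-- `T` is the parameter of the first symmetric homoclinic point: `Wu (lam * T) = Ws (lam * T)` is on the diagonal. -/
def First (lam : ℝ) (φ : ℂ → ℂ) (T : ℝ) : Prop :=
  0 < T ∧ vv φ (lam * T) = vv φ T ∧ ∀ t, 0 < t → t < T → vv φ (lam * t) < vv φ t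

/-- `Φ t = R Φ s` for `Φ t = (φ t, φ (t/lam))`. -/
def Corr (lam : ℝ) (φ : ℂ → ℂ) (t s : ℂ) : Prop := φ t = φ (s / (lam : ℂ)) ∧ φ (t / (lam : ℂ)) = φ s

/-- Local coincidence of the (complex) unstable and stable manifolds at `Φ t = R Φ s`. -/
def Loc (lam : ℝ) (φ : ℂ → ℂ) (t s : ℂ) : Prop := t ≠ 0 ∧ s ≠ 0 ∧
  ∃ τ : ℂ → ℂ, AnalyticAt ℂ τ t ∧ τ t = s ∧ ∀ᶠ z in 𝓝 t, Corr lam φ z (τ z)

/-- Linear coordinates at the saddle: `z - (p,p) = - xi z • (1, 1/lam) - et z • (1/lam, 1)`. -/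
def xi (lam : ℝ) (z : ℝ × ℝ) : ℝ := -((z.1 - pp lam) - (z.2 - pp lam) / lam) / (1 - (lam⁻¹) ^ 2)

/-- Second linear coordinate. -/
def et (lam : ℝ) (z : ℝ × ℝ) : ℝ := -((z.2 - pp lam) - (z.1 - pp lam) / lam) / (1 - (lam⁻¹) ^ 2)

/-- The local unstable manifold `{Wu t | |t| < t0}` is the graph `et = w (xi)`; `w` is `C¹` on `(-ρ,ρ)`, and all `|xi| < ρ'` are
reached (then the local stable manifold is `xi = w (et)`). -/
structure Gr (lam : ℝ) (φ : ℂ → ℂ) (w : ℝ → ℝ) (ρ ρ' t0 : ℝ) : Prop where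
  hρ : 0 < ρ'
  hρ' : ρ' ≤ ρ
  ht : 0 < t0
  cd : ∀ x ∈ Ioo (-ρ) ρ, ContDiffAt ℝ 1 w x
  w0 : w 0 = 0
  dw0 : deriv w 0 = 0
  mono : StrictMonoOn (fun t => xi lam (Wu lam φ t)) (Ioo (-t0) t0)
  on : ∀ t ∈ Ioo (-t0) t0, xi lam (Wu lam φ t) ∈ Ioo (-ρ) ρ ∧ et lam (Wu lam φ t) = w (xi lam (Wu lam φ t))
  onto : ∀ x ∈ Ioo (-ρ') ρ', ∃ t ∈ Ioo (-t0) t0, xi lam (Wu lam φ t) = x

/-- Straightened coordinates `X, Y` on a neighbourhood `N` of the saddle: `W^u = {Y = 0}`, `W^s = {X = 0}`, `|X|` is expanded and `|Y|`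
contracted by a factor at least `l > 1`. -/
structure Box (lam : ℝ) (φ : ℂ → ℂ) (N : Set (ℝ × ℝ)) (X Y : ℝ × ℝ → ℝ) (r l L t0 : ℝ) : Prop where
  opn : IsOpen N
  cX : ContDiffOn ℝ 1 X N
  cY : ContinuousOn Y N
  hr : 0 < r
  hl : 1 < l
  hL : l ≤ L
  ht : 0 < t0
  cpt : IsCompact {z | z ∈ N ∧ |X z| ≤ r ∧ |Y z| ≤ r}
  dyn : ∀ z ∈ N, |X z| ≤ r / L → |Y z| ≤ r → ff lam z ∈ N ∧ l * |X z| ≤ |X (ff lam z)| ∧ |X (ff lam z)| ≤ L * |X z| ∧
    0 ≤ X z * X (ff lam z) ∧ |Y (ff lam z)| ≤ |Y z| / l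
  wu : ∀ t ∈ Icc 0 t0, Wu lam φ t ∈ N ∧ Y (Wu lam φ t) = 0 ∧ X (Wu lam φ t) ≤ r / L
  wu0 : X (Wu lam φ 0) = 0
  wuX : StrictMonoOn (fun t => X (Wu lam φ t)) (Icc 0 t0)
  wuc : ∀ z ∈ N, Y z = 0 → 0 ≤ X z → X z ≤ X (Wu lam φ t0) → ∃ t ∈ Icc 0 t0, z = Wu lam φ t
  ws : ∀ t ∈ Icc 0 t0, Ws lam φ t ∈ N ∧ X (Ws lam φ t) = 0 ∧ |Y (Ws lam φ t)| < r
  grd : ∀ t ∈ Icc 0 t0, fderiv ℝ X (Ws lam φ t) ≠ 0

/-- A window. -/
def win (N : Set (ℝ × ℝ)) (X Y : ℝ × ℝ → ℝ) (u v ε : ℝ) : Set (ℝ × ℝ) := {z | z ∈ N ∧ u ≤ X z ∧ X z ≤ v ∧ |Y z| ≤ ε}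

/-- `γ` restricted to `[α,β]` is a path in `D` joining the sides `X = u` and `X = v`. -/
def Cross (X : ℝ × ℝ → ℝ) (D : Set (ℝ × ℝ)) (u v : ℝ) (γ : ℝ → ℝ × ℝ) (α β : ℝ) : Prop :=
  α ≤ β ∧ ContinuousOn γ (Icc α β) ∧ (∀ s ∈ Icc α β, γ s ∈ D) ∧
  ((X (γ α) = u ∧ X (γ β) = v) ∨ (X (γ α) = v ∧ X (γ β) = u))

/-- Homoclinic crossing near the saddle: `G = ff^[m]` maps the point `Wu tA` of `W^u` to a point of `W^s`, and `W^u` crosses `W^s` there. -/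
structure Cr (lam : ℝ) (φ : ℂ → ℂ) (N : Set (ℝ × ℝ)) (X Y : ℝ × ℝ → ℝ) (r t0 tA : ℝ) (m : ℕ) : Prop where
  h0 : 0 < tA
  h1 : tA < t0
  inN : (ff lam)^[m] (Wu lam φ tA) ∈ N
  x0 : X ((ff lam)^[m] (Wu lam φ tA)) = 0
  y0 : |Y ((ff lam)^[m] (Wu lam φ tA))| < r
  sg : ∃ d > 0, ∀ t ∈ Ioo (tA - d) tA, ∀ t' ∈ Ioo tA (tA + d),
    X ((ff lam)^[m] (Wu lam φ t)) * X ((ff lam)^[m] (Wu lam φ t')) < 0

/-- The data of the return map `G = ff^[m]` on the window `win N X Y am ap ε`. -/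
structure Rec (lam : ℝ) (N : Set (ℝ × ℝ)) (X Y : ℝ × ℝ → ℝ) (r l L : ℝ) (m : ℕ) (am ap bm bp ε ρ : ℝ) : Prop where
  h1 : 0 < bm
  h2 : bm < am
  h3 : am < ap
  h4 : ap < bp
  h5 : bp ≤ r / L
  h6 : bp < l * bm
  h7 : 0 < ε
  h8 : ε ≤ r
  h9 : 0 < ρ
  g : ∀ z ∈ win N X Y am ap ε, (ff lam)^[m] z ∈ N ∧ |X ((ff lam)^[m] z)| ≤ bm ∧ |Y ((ff lam)^[m] z)| ≤ r
  s : (∀ z ∈ win N X Y am ap ε, (X z = am → X ((ff lam)^[m] z) ≤ -ρ) ∧ (X z = ap → ρ ≤ X ((ff lam)^[m] z))) ∨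
    (∀ z ∈ win N X Y am ap ε, (X z = am → ρ ≤ X ((ff lam)^[m] z)) ∧ (X z = ap → X ((ff lam)^[m] z) ≤ -ρ))
  i : ∃ (γ : ℝ → ℝ × ℝ) (α β : ℝ), Cross X (win N X Y am ap ε) am ap γ α β

/-- Covering relations of the return maps `g^[m1]`, `g^[m2]` on the window `D`; `E` separates the two. -/
def Covs (g : ℝ × ℝ → ℝ × ℝ) (X : ℝ × ℝ → ℝ) (D D' E : Set (ℝ × ℝ)) (am ap bm bp : ℝ) (m1 m2 : ℕ) : Prop :=
  ∀ (γ : ℝ → ℝ × ℝ) (α β : ℝ), Cross X D am ap γ α β →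
    (∃ α' β', α ≤ α' ∧ β' ≤ β ∧ Cross X D' bm bp (fun s => g^[m1] (γ s)) α' β') ∧
    (∃ α' β', α ≤ α' ∧ β' ≤ β ∧ Cross X D' bm bp (fun s => g^[m2] (γ s)) α' β' ∧ ∀ s ∈ Icc α' β', g^[m1] (γ s) ∈ E)

/-! ## Part 1: the unstable manifold -/

/-- MODULE Coef (150 lines). Coefficients of `φ`.
Proof. The divisor is `lam^n + lam^(-n) - 2 pp = lam^n (1 - lam^(1-n)) (1 - lam^(-1-n)) ≥ κ lam^n > 0` for `n ≥ 2`, `κ = (1 - 1/lam)²`; so the recursion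
defines `a` (strong recursion) and `|a n| ≤ κ⁻¹ lam^(-n) ∑_{1≤i≤n-1} |a i| |a (n-i)|` (*). (1) There is a constant `C₀` with
`∑_{1≤i≤n-1} 1/(i²(n-i)²) ≤ C₀/n²` (`1/(i²(n-i)²) ≤ (4/n²)·(1/i² + 1/(n-i)²)`, as one of `i, n-i` is `≥ n/2`); so `|a n| ≤ M (1/M)^n / n²` for `n ≥ 1` with
`M = min 1 (κ/C₀)`, by induction from (*) (`lam^(-n) ≤ 1`): there is `R₁ > 0` with `|a n| R₁^n` bounded. (2) If `|a n| ≤ C r^n` for all `n` (`C ≥ 1`) then by (*)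
`|a n| ≤ κ⁻¹ lam^(-n) n C² r^n ≤ C' (r/√lam)^n` (`n lam^(-n/2)` is bounded); iterate: for every `k` there is `C_k` with
`|a n| ≤ C_k (r/√lam^k)^n`, and `r/√lam^k → 0`. -/
def StCoef : Prop := ∀ lam : ℝ, 1 < lam → ∃ a : ℕ → ℝ, a 0 = pp lam ∧ a 1 = -1 ∧
  (∀ n, 2 ≤ n → (lam ^ n + (lam⁻¹) ^ n - 2 * pp lam) * a n = ∑ i ∈ Finset.Icc 1 (n - 1), a i * a (n - i)) ∧
  ∀ R : ℝ, 0 < R → ∃ C : ℝ, ∀ n, |a n| * R ^ n ≤ C

/-- MODULE Phi (120 lines; theorem hPhi (h1 : StCoef) : StPhi). The entire function.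
Proof: `φ t = ∑' n, (a n : ℂ) t^n`, absolutely summable for every `t` (compare with `R = 2‖t‖ + 1`). Entire: e.g.
`FormalMultilinearSeries.ofScalars` with radius `⊤`, or `differentiableOn_tsum_of_summable_norm` on every ball. `φ 0 = a 0`, `deriv φ 0 = a 1`.
Equation: `φ(lam t) + φ(t/lam) - φ(t)² - cc = ∑' (...)`, Cauchy product (`tsum_mul_tsum_eq_tsum_sum_antidiagonal_of_summable_norm`);
coefficient `0`: `2 p = p² + cc`; coefficient `1`: `(lam + lam⁻¹) a 1 = 2 p a 1`; `n ≥ 2`: the recursion (terms `i = 0`, `i = n` of the antidiagonal give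
`2 p a n`). Real on `ℝ`: real coefficients. -/
def StPhi : Prop := ∀ lam : ℝ, 1 < lam → ∃ φ : ℂ → ℂ, UPar lam φ

/-- MODULE Inj (80 lines). `Φ t = (φ t, φ (t/lam))` is injective and an immersion.
Proof. `φ (t/lam²) = φ(t/lam)² + cc - φ t` (the equation at `t/lam`). So if `φ t = φ s` and `φ (t/lam) = φ (s/lam)` then `φ (t/lam^k) = φ (s/lam^k)` for all `k`; `φ` is
injective near `0` (`deriv φ 0 ≠ 0`, `HasStrictDerivAt.eventually_left_inverse` or local injectivity), and `t/lam^k, s/lam^k → 0`: so `t/lam^k = s/lam^k` for large `k`.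
Immersion: differentiate: `lam φ'(t) + φ'(t/lam²)/lam = 2 φ(t/lam) φ'(t/lam)` (the equation at `t/lam` multiplied by `lam`); if `φ' t = φ' (t/lam) = 0` then `φ'(t/lam^k) = 0` for all
`k`, so `φ' 0 = 0` by continuity of `deriv φ`: contradiction. -/
def StInj : Prop := ∀ (lam : ℝ) (φ : ℂ → ℂ), 1 < lam → UPar lam φ →
  (∀ t s : ℂ, φ t = φ s → φ (t / (lam : ℂ)) = φ (s / (lam : ℂ)) → t = s) ∧
  ∀ t : ℂ, ¬(deriv φ t = 0 ∧ deriv φ (t / (lam : ℂ)) = 0)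

/-! ## Part 2: `W^u` and `W^s` do not coincide (Ushiki) -/

/-- MODULE Usc (80 lines). Scaling.
Proof. `τ' z = τ (z/lam)/lam` works for `(lam t, s/lam)`: for `z = lam w`, `w` near `t`: `φ z = φ(w)² + cc - φ(w/lam) = φ(τ w/lam)² + cc - φ(τ w)` which is
`φ(τ w/lam²)` by the equation at `τ w/lam`; `φ (z/lam) = φ w = φ (τ w/lam)`. And `τ'' w = lam τ (lam w)` works for `(t/lam, lam s)`: for `z = lam w` near `t`:
`φ w = φ(z/lam) = φ (τ z) = φ (τ'' w/lam)`; `φ (w/lam) = φ(z/lam²) = φ(z/lam)² + cc - φ z = φ(τ z)² + cc - φ(τ z/lam) = φ(lam τ z)`. -/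
def StUsc : Prop := ∀ (lam : ℝ) (φ : ℂ → ℂ), 1 < lam → UPar lam φ → ∀ t s : ℂ, Loc lam φ t s →
  Loc lam φ ((lam : ℂ) * t) (s / (lam : ℂ)) ∧ Loc lam φ (t / (lam : ℂ)) ((lam : ℂ) * s)

/-- MODULE Ulim (180 lines; theorem hUlim (h1 : StInj) : StUlim). Closedness of the correspondence.
Proof. By continuity `Corr t' s'`. If `s' = 0` then `φ t' = φ 0`, `φ (t'/lam) = φ 0`, so `t' = 0` by StInj: contradiction; so `s' ≠ 0`. By StInj (immersion at `s'`) one of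
`k₁ s = φ (s/lam)`, `k₂ s = φ s` has nonzero derivative at `s'`; call it `k`, and let `j t` be the corresponding one of `φ t`, `φ (t/lam)` (so `Corr t s` says `j₁ t = k₁ s`, `j₂ t = k₂ s`).
`k` has an analytic local inverse `ι` at `k s'`: there is a neighbourhood `B` of `s'` with `ι (k s) = s` for `s ∈ B`, `k (ι y) = y` for `y` near `k s'` (`HasStrictDerivAt.localInverse`,
analytic: `AnalyticAt` of the local inverse, or use that it is complex differentiable near the point). Put `τ' t = ι (j t)`, analytic at `t'` (`j t' = k s'`), `τ' t' = s'`, and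
`k (τ' t) = j t` near `t'`. Let `H t = j₂ t - k₂ (τ' t)` (the other pair), analytic on a ball `V` around `t'`. For large `n`: `t n ∈ V`, and for `z` near `t n` the local function `τₙ` of
`Loc (t n) (s n)` satisfies `τₙ z ∈ B` (near `s n`, close to `s'`), so `τₙ z = ι (k (τₙ z)) = ι (j z) = τ' z` and `H z = 0`. So `H = 0` near `t n`; identity theorem on `V`
(`AnalyticOnNhd.eqOn_zero_of_preconnected_of_eventuallyEq_zero`): `H = 0` on `V`, so `Corr z (τ' z)` near `t'`. -/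
def StUlim : Prop := ∀ (lam : ℝ) (φ : ℂ → ℂ), 1 < lam → UPar lam φ → ∀ (t s : ℕ → ℂ) (t' s' : ℂ),
  (∀ n, Loc lam φ (t n) (s n)) → Tendsto t atTop (𝓝 t') → Tendsto s atTop (𝓝 s') → t' ≠ 0 → Loc lam φ t' s'

/-- MODULE Ush (200 lines; theorem hUsh (h1 : StInj) (h2 : StUsc) (h3 : StUlim) : StUsh). No coincidence (Ushiki 1980).
Proof. (0) `Loc t s`, `Loc t s'` imply `s = s'` (StInj with `φ s = φ s'`, `φ (s/lam) = φ (s'/lam)`). If `Loc t s` with `τ` then for all `z` near `t`: `Loc z (τ z)`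
(`eventually_eventually_nhds`, `AnalyticAt.eventually_analyticAt`). (1) Let `A = {t | ∃ s, Loc t s}`, suppose `A ≠ ∅`, and let `σ t` be the unique `s` for `t ∈ A` (choice). Then `A` is open, `σ` is analytic
on `A`, `σ ≠ 0`, `0 ∉ A`; `σ (lam t) = σ t/lam` (StUsc). `g t = t σ t`, `g (lam t) = g t`, `lam A = A`. (2) `m = inf_A |g|`. Take `t_n ∈ A` with `|g t_n| → m`; multiplying by a power of `lam`
we may assume `1 ≤ |t_n| ≤ lam`; `|σ t_n| ≤ |g t_n|` is bounded; pass to a subsequence with `t_n → t'`, `σ t_n → s'`. By StUlim `Loc t' s'`, so `t' ∈ A`, `g t' = t' s'`, `|g t'| = m`.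
(3) Let `B` be the connected component of `t'` in `A` (`connectedComponentIn A t'`, open). `1/g` is analytic on `B` with a maximum of the norm at `t'`: it is constant on `B`
(`Complex.eqOn_of_isPreconnected_of_isMaxOn_norm`), so `σ t = κ/t` on `B`, `κ = g t' ≠ 0`. (4) `B = {0}ᶜ`: if `t_n ∈ B`, `t_n → t'' ≠ 0` then `σ t_n = κ/t_n → κ/t''`, so
`t'' ∈ A` (StUlim), and a ball around `t''` in `A` contains some `t_n`, so `t'' ∈ B`. So `B` is open and relatively closed in the preconnected set `{0}ᶜ`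
(`isPreconnected_compl_singleton_of_one_lt_rank`, `Complex.rank_real_complex`). (5) So `φ t = φ (κ/(lam t))` for all `t ≠ 0`: `φ` is bounded for `|t| ≥ 1` and, by continuity, for `|t| ≤ 1`:
constant by Liouville (`Differentiable.apply_eq_apply_of_bounded`), against `deriv φ 0 = -1`. -/
def StUsh : Prop := ∀ (lam : ℝ) (φ : ℂ → ℂ), 1 < lam → UPar lam φ → ∀ t s : ℂ, ¬Loc lam φ t s

/-! ## Part 3: the symmetric homoclinic point -/

/-- MODULE Fir (130 lines). First symmetric homoclinic point.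
Proof. `v = vv φ` is differentiable on `ℝ` with `v 0 = p = pp lam`, `v' 0 = -1` (real part of the complex derivative along `ℝ`; `φ` is real on `ℝ`), `v (lam t) + v (t/lam) = v(t)² + c`. So
`v (lam t) < v t` for small `t > 0` and `v t → p` as `t → 0`. Suppose `v (lam t) < v t` for all `t > 0`. Fix `t₀ > 0`, `x n = v (lam^n t₀)`, `u n = x n - 1`, `s = p - 1 > 0` (`cc = 1 - s²`),
`Δ n = x (n+1) - x n < 0`; `Δ (n+1) - Δ n = u (n+1)² - s²`. `x n < p` as `x n < v (lam^(-k) t₀) → p` (strictly decreasing in `k`). If `u n > -s` for all `n ≥ 0` then (`u n < s`) `Δ` is decreasing, `Δ n ≤ Δ 0 < 0`,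
so `x n → -∞`: contradiction. Otherwise `u N ≤ -s`, `u n ≤ u (N+1) < -s` for `n ≥ N+1`, so `Δ (n+1) - Δ n ≥ u (N+1)² - s² > 0` for `n ≥ N`, `Δ → +∞`: contradiction. So
`{t > 0 | v t ≤ v (lam t)}` is nonempty, closed in `ℝ` (bounded away from `0`); let `T` be its infimum (minimum); by continuity from the left equality holds at `T`. -/
def StFir : Prop := ∀ (lam : ℝ) (φ : ℂ → ℂ), 1 < lam → UPar lam φ → ∃ T, First lam φ T

/-- MODULE Cas (100 lines). Casoratian (discrete Sturm comparison).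
Proof. `A m = X m - X (m-1)` (`m ≥ 1`): `A 1 = 0`, `A m > 0` for `m ≥ 2`, `A m → 0`; `A m + A (m+2) = (X m + X (m+1)) A (m+1)`.
(1) `Ω m = A m * D (m-1) - A (m-1) * D m` (`m ≥ 2`): `Ω m - Ω (m+1) = A m ^ 2 * D m` (algebra), `Ω m → 0`. If `D j > 0` for all `j ≥ m` (`m ≥ 2`) then `Ω m > 0` (`Ω m ≥ A m² D m + Ω (m+1)`, and `Ω` is antitone from `m` on
with limit `0`), so `A m D (m-1) > A (m-1) D m ≥ 0`, `D (m-1) > 0`. Downward induction from `M`: `D m > 0` for all `m ≥ 1`.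
(2) `Υ m = A (m+1) * D (m-1) - A m * D m` (`m ≥ 1`): `Υ m - Υ (m+1) = - A (m+1) ^ 2 * D m < 0`, `Υ m → 0`: so `Υ 1 < 0`, i.e. `A 2 * D 0 < 0`. -/
def StCas : Prop := ∀ (c p : ℝ) (X D : ℕ → ℝ), (∀ m, X m + X (m + 2) = X (m + 1) ^ 2 + c) →
  (∀ m, D m + D (m + 2) = 2 * X (m + 1) * D (m + 1)) → X 0 = X 1 → (∀ m, 1 ≤ m → X m < X (m + 1)) →
  Tendsto X atTop (𝓝 p) → Tendsto D atTop (𝓝 0) → (∃ M, ∀ m, M ≤ m → 0 < D m) → D 0 < 0 ∧ 0 < D 1

/-- MODULE Tra (80 lines; theorem hTra (h1 : StCas) : StTra). Transversality to the diagonal.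
Proof. StCas with `X m = v (lam T/lam^m)`, `D m = -(lam T/lam^m) v'(lam T/lam^m)`. Differentiating `v(lam t) + v(t/lam) = v(t)² + c` and multiplying by `-t` gives the equation for `D`. `X 0 = X 1` and
`X m < X (m+1)` for `m ≥ 1` (`First` at `t = T/lam^m`, `m ≥ 1`). `D m > 0` for large `m` as `v' 0 = -1` and `v'` is continuous. `D 0 < 0` gives `v'(lam T) > 0`, `D 1 > 0` gives `v' T < 0`. -/
def StTra : Prop := ∀ (lam : ℝ) (φ : ℂ → ℂ) (T : ℝ), 1 < lam → UPar lam φ → First lam φ T →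
  deriv (vv φ) T < 0 ∧ 0 < deriv (vv φ) (lam * T)

/-- MODULE Odd (200 lines; theorem hOdd (h1 : StUsh) : StOdd). Odd order of contact. `D t = v t - v (t/lam)`, `S t = v t + v (t/lam)`, `tq = lam T`, `D tq = 0`,
`D' tq = v'(lam T) - v'(T)/lam > 0`.
Proof. Complex versions `Dc t = φ t - φ (t/lam)`, `Sc t = φ t + φ (t/lam)`. `Dc` has an analytic local inverse `ι` near `0` with `ι 0 = tq` (`HasStrictDerivAt.localInverse`), real on reals (for small real `d` the real function `D`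
has a zero of `D t = d` near `tq`, unique also in the complex neighbourhood). `ψc = Sc ∘ ι`, analytic at `0`; `ψ d = (ψc d).re` for real `d`; `S t = ψ (D t)` for real `t` near `tq`. Let `h d = ψc d - ψc (-d)`,
analytic at `0`, odd. If `h` vanishes near `0`: put `τ t = ι (- Dc t)`, analytic at `tq`, `τ tq = tq`, `Dc (τ t) = - Dc t`, `Sc (τ t) = ψc (- Dc t) = ψc (Dc t) = Sc t`; so `φ t = (Sc t + Dc t)/2 = (Sc (τ t) - Dc (τ t))/2 = φ (τ t/lam)`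
and `φ (t/lam) = φ (τ t)`: `Loc tq tq`, against StUsh. So `h` has an isolated zero at `0` (`AnalyticAt.eventually_eq_zero_or_eventually_ne_zero`): `ψ d - ψ (-d) ≠ 0` (it is real) for `0 < d < ρ`; it is continuous on
`(0,ρ)`, so it has a constant sign there. -/
def StOdd : Prop := ∀ (lam : ℝ) (φ : ℂ → ℂ) (T : ℝ), 1 < lam → UPar lam φ → First lam φ T →
  deriv (vv φ) T < 0 → 0 < deriv (vv φ) (lam * T) → ∃ (ψ : ℝ → ℝ) (ρ : ℝ), 0 < ρ ∧
    (∀ᶠ t in 𝓝 (lam * T), vv φ t + vv φ (t / lam) = ψ (vv φ t - vv φ (t / lam))) ∧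
    ((∀ d ∈ Ioo 0 ρ, 0 < ψ d - ψ (-d)) ∨ (∀ d ∈ Ioo 0 ρ, ψ d - ψ (-d) < 0))

/-- MODULE Sgn (180 lines; theorem hSgn (h1 : StOdd) : StSgn). `W^u` crosses `W^s` at `q = Wu (lam T)`.
Proof. `tq = lam T`, `q = (v tq, v T)`, `v tq = v T`. `D`, `S`, `ψ`, `ρ` as in StOdd; `D` is strictly monotone near `tq` (`D' tq > 0`, `D` is `C¹`) with `D tq = 0`, and maps neighbourhoods of `tq` onto neighbourhoods of `0`.
`Lt (d,σ) = Lf ((σ+d)/2, (σ-d)/2)`. For `t` near `tq`: `Ws t` has `(x-y, x+y) = (-D t, ψ (D t))`, so `Lt (d, ψ (-d)) = 0` for small `d`; `Wu t` has `(x-y, x+y) = (D t, ψ (D t))`. The curve `Ws` has at `tq` the velocity with `x-y`-component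
`- D' tq ≠ 0` and `Lf` vanishes along it, so if `∂_σ Lt = 0` at `q` then also `∂_d Lt = 0` and `fderiv Lf q = 0`: contradiction. So `∂_σ Lt ≠ 0` at `q`, hence of constant sign on a ball around `(0, 2 v tq)`; mean value theorem in `σ`:
`Lf (Wu t) = Lt (d, ψ d) - Lt (d, ψ (-d)) = ∂_σ Lt (d, σ*) (ψ d - ψ (-d))`, `d = D t` (`ψ d, ψ (-d) → 2 v tq` as `d → 0`, from `ψ (D t) = S t`). The sign of `ψ d - ψ (-d)` is odd in `d` (StOdd), `d < 0` for `t < tq`, `d > 0` for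
`t > tq`. -/
def StSgn : Prop := ∀ (lam : ℝ) (φ : ℂ → ℂ) (T : ℝ), 1 < lam → UPar lam φ → First lam φ T →
  deriv (vv φ) T < 0 → 0 < deriv (vv φ) (lam * T) → ∀ Lf : ℝ × ℝ → ℝ,
    ContDiffAt ℝ 1 Lf (Wu lam φ (lam * T)) → fderiv ℝ Lf (Wu lam φ (lam * T)) ≠ 0 →
    (∀ᶠ t in 𝓝 (lam * T), Lf (Ws lam φ t) = 0) →
    ∃ d > 0, ∀ t ∈ Ioo (lam * T - d) (lam * T), ∀ t' ∈ Ioo (lam * T) (lam * T + d),
      Lf (Wu lam φ t) * Lf (Wu lam φ t') < 0

/-! ## Part 4: coordinates near the saddle -/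

/-- MODULE Gra (130 lines). The local unstable manifold is a graph.
Proof. `α t = xi (Wu t)`, `β t = et (Wu t)` are smooth functions of `t ∈ ℝ`; `α 0 = β 0 = 0`, `α' 0 = -(v' 0 - v' 0/lam²)/(1 - lam⁻²) = 1` (`v' 0 = -1`),
`β' 0 = -(v' 0/lam - v' 0/lam)/(..) = 0`. Inverse function theorem for `α` at `0` (`ContDiffAt.toOpenPartialHomeomorph`): local inverse `ι`, `C¹` on some `(-ρ,ρ)`; `t0` small with `α` strictly increasing on
`(-t0,t0)` (`α' > 0`), `α (-t0,t0) ⊆ (-ρ,ρ)`, `ι (α t) = t` there; `w = β ∘ ι`; `ρ' = min (α (t0/2)) (-α (-t0/2))` (intermediate value theorem). -/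
def StGra : Prop := ∀ (lam : ℝ) (φ : ℂ → ℂ), 1 < lam → UPar lam φ → ∃ (w : ℝ → ℝ) (ρ ρ' t0 : ℝ), Gr lam φ w ρ ρ' t0

/-- MODULE BoxX (130 lines). The function `X z = xi z - w (et z)` is expanded.
Proof. `κ = 1/(1 - lam⁻²)`, `x = z.1 - pp lam = -(xi z + et z/lam)`. By algebra `xi (ff z) = lam xi z - κ x²`, `et (ff z) = et z/lam + (κ/lam) x²`. Given `|xi z|, |et z| < δ ≤ ρ'` take `t` with `xi (Wu t) = et z`
(`onto`), `z0 = Ws t`: `et z0 = xi (Wu t) = et z`, `xi z0 = et (Wu t) = w (et z)` (`Ws t` is `Wu t` with exchanged coordinates), and `ff z0 = Ws (t/lam)`, so `xi (ff z0) = w (et (ff z0))`. With `x0 = z0.1 - pp lam`: `x - x0 = -X z`, so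
`xi (ff z) - xi (ff z0) = X z (lam + κ (x + x0))`, `et (ff z) - et (ff z0) = -(κ/lam) X z (x + x0)`, and `X (ff z) = (xi (ff z) - xi (ff z0)) - (w (et (ff z)) - w (et (ff z0)))`. `w` is `1`-Lipschitz near `0` (`w' 0 = 0`, `C¹`),
`|x + x0| ≤ 8δ`: `|X (ff z) - lam X z| ≤ |X z| κ |x + x0| (1 + 1/lam) ≤ e |X z|` for small `δ`. -/
def StBoxX : Prop := ∀ (lam : ℝ) (φ : ℂ → ℂ) (w : ℝ → ℝ) (ρ ρ' t0 : ℝ), 1 < lam → UPar lam φ → Gr lam φ w ρ ρ' t0 →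
  ∀ e > 0, ∃ δ > 0, ∀ z : ℝ × ℝ, |xi lam z| < δ → |et lam z| < δ →
    |(xi lam (ff lam z) - w (et lam (ff lam z))) - lam * (xi lam z - w (et lam z))| ≤ e * |xi lam z - w (et lam z)|

/-- MODULE BoxY (130 lines). The function `Y z = et z - w (xi z)` is contracted.
Proof. Notation as in BoxX. Take `t` with `xi (Wu t) = xi z`, `z1 = Wu t`, `et z1 = w (xi z)`; for small `δ` also `|lam t| < t0` (`α` is strictly monotone with `α 0 = 0`), so `ff z1 = Wu (lam t)` satisfies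
`et (ff z1) = w (xi (ff z1))`. `x1 = z1.1 - pp lam`, `x - x1 = -Y z/lam`: `et (ff z) - et (ff z1) = Y z/lam - (κ/lam²) Y z (x + x1)`, `xi (ff z) - xi (ff z1) = (κ/lam) Y z (x + x1)`,
`Y (ff z) = (et (ff z) - et (ff z1)) - (w (xi (ff z)) - w (xi (ff z1)))`; `w` is `1`-Lipschitz near `0`. -/
def StBoxY : Prop := ∀ (lam : ℝ) (φ : ℂ → ℂ) (w : ℝ → ℝ) (ρ ρ' t0 : ℝ), 1 < lam → UPar lam φ → Gr lam φ w ρ ρ' t0 →
  ∀ e > 0, ∃ δ > 0, ∀ z : ℝ × ℝ, |xi lam z| < δ → |et lam z| < δ →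
    |et lam (ff lam z) - w (xi lam (ff lam z))| ≤ (1 / lam + e) * |et lam z - w (xi lam z)|

/-- MODULE Box (200 lines; theorem hBox (h1 : StGra) (h2 : StBoxX) (h3 : StBoxY) : StBox). The box.
Proof. `X z = xi z - w (et z)`, `Y z = et z - w (xi z)`, `l = (1+lam)/2`, `e = min ((lam-1)/2) (1/l - 1/lam)`, `L = lam + e`, `N = {|xi z| < δ, |et z| < δ}` with `δ ≤ ρ'` from BoxX, BoxY and so small that `|w'| ≤ 1/4` on
`(-δ,δ)` (so `w` is `1/4`-Lipschitz there, `|w x| ≤ |x|/4`). If `z ∈ N`, `|X z|, |Y z| ≤ r` then `|xi z|, |et z| ≤ 4r/3`: for `4r/3 < δ` the set in `cpt` is closed and bounded, so compact. `dyn`: `ff z ∈ N` because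
`|xi (ff z)| ≤ lam |xi z| + κ x²` etc. `< δ` for small `r`; the rest is BoxX, BoxY (`l ≤ lam - e`, `1/lam + e ≤ 1/l`; the sign: `|X (ff z) - lam X z| ≤ e |X z|`, `e < lam`). `new t0` small: `X (Wu t) = α - w (w α)`, `α = xi (Wu t)`,
which is strictly increasing in `α` (`w ∘ w` is `1/16`-Lipschitz) and `α` is strictly increasing in `t`. `wuc`: `Y z = 0` means `et z = w (xi z)`; take `t` with `xi (Wu t) = xi z` (`onto`), then `et (Wu t) = w (xi z) = et z`, so `z = Wu t`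
(`xi, et` determine `z`); `0 ≤ X z` gives `xi z ≥ 0`, `t ≥ 0`, and `X z ≤ X (Wu t0)` gives `t ≤ t0`. `ws`: `X (Ws t) = et (Wu t) - w (xi (Wu t)) = 0`. `grd`: the derivative of `X` in a direction with `d xi = 1`, `d et = 0` is `1`. -/
def StBox : Prop := ∀ (lam : ℝ) (φ : ℂ → ℂ), 1 < lam → UPar lam φ →
  ∃ (N : Set (ℝ × ℝ)) (X Y : ℝ × ℝ → ℝ) (r l L t0 : ℝ), Box lam φ N X Y r l L t0

/-! ## Part 5: covering relations -/

/-- MODULE Q (130 lines; theorem hQ (h1 : StSgn) : StQ). The crossing near the saddle.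
Proof. `tq = lam T`, `M` with `tA = tq/lam^M < t0`, `m = 2 M`. `(ff)^[k] (Wu t) = Wu (lam^k t)`, `(ff)^[k] (Ws t) = Ws (t/lam^k)`, `Wu tq = Ws tq` (as `v (lam T) = v T`). So `(ff)^[m] (Wu tA) = (ff)^[M] (Wu tq) = Ws (tq/lam^M) = Ws tA`: `inN, x0, y0` from
`Box.ws`. `Lf = X ∘ (ff)^[M]` is `C¹` near `Wu tq` (polynomial map into the open set `N`), its derivative there is `fderiv X (Ws tA) ∘ fderiv (ff^[M])`, and `fderiv (ff^[M])` is bijective (`ff` is invertible with polynomial inverse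
`(x,y) ↦ (y, y² + c - x)`), so it is `≠ 0` (`Box.grd`). `Lf (Ws t) = X (Ws (t/lam^M)) = 0` for `t` near `tq`. StSgn, and `Lf (Wu t) = X (Wu (lam^M t)) = X ((ff)^[m] (Wu (t/lam^M)))`. -/
def StQ : Prop := ∀ (lam : ℝ) (φ : ℂ → ℂ) (T : ℝ), 1 < lam → UPar lam φ → First lam φ T →
  deriv (vv φ) T < 0 → 0 < deriv (vv φ) (lam * T) → ∀ (N : Set (ℝ × ℝ)) (X Y : ℝ × ℝ → ℝ) (r l L t0 : ℝ),
  Box lam φ N X Y r l L t0 → ∃ (tA : ℝ) (m : ℕ), Cr lam φ N X Y r t0 tA m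

/-- MODULE Rect (180 lines). A thin window around a piece of `W^u`.
Proof. `G = ff^[m]`, `h t = X (G (Wu t))`, continuous near `tA`, `h tA = 0`; `A0 = X (Wu tA)`, `0 < A0 < X (Wu t0) ≤ r/L`. Choose `bm < A0 < bp < X (Wu t0)` with `bp < l bm`; then `t₋ < tA < t₊` in `(tA - d, tA + d)` (and in `(0,t0)`) with
`bm < am = X (Wu t₋)`, `ap = X (Wu t₊) < bp`, and for all `t ∈ [t₋,t₊]`: `G (Wu t) ∈ N`, `|h t| < bm`, `|Y (G (Wu t))| < r`. `h t₋ * h t₊ < 0`; `ρ = min |h t₋| |h t₊| / 2`. Claim: for some `0 < ε ≤ r` the fields `g` and `s` hold. If not, there are `z n ∈ win am ap (r/(n+1))`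
violating them; they are in the compact set `cpt`, so a subsequence converges to `z ∈ N` with `Y z = 0`, `am ≤ X z ≤ ap`, so `z = Wu t` (`wuc`) with `t ∈ [t₋,t₊]` (`wuX`), where the statements hold with strict inequalities; `X z = am` only for `t = t₋`, `X z = ap` only for
`t = t₊`: contradiction by continuity. (Treat `g` and the two parts of `s` separately and take the minimum of the three `ε`.) `i`: `γ = Wu` on `[t₋,t₊]`. -/
def StRect : Prop := ∀ (lam : ℝ) (φ : ℂ → ℂ) (N : Set (ℝ × ℝ)) (X Y : ℝ × ℝ → ℝ) (r l L t0 tA : ℝ) (m : ℕ), 1 < lam → UPar lam φ →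
  Box lam φ N X Y r l L t0 → Cr lam φ N X Y r t0 tA m → ∃ am ap bm bp ε ρ : ℝ, Rec lam N X Y r l L m am ap bm bp ε ρ

/-- MODULE Pass (200 lines). Passage near the saddle.
Proof. By symmetry (reverse the path: `γ' s = γ (α + β - s)`) assume `X (γ α) ≤ 0`, `ρ ≤ X (γ β)`. Let `n0 ≥ 1` with `bp < l^n0 ρ`, `n ≥ n0`, `f = ff lam`. `s0` = last `s ∈ [α,β]` with `X (γ s) ≤ 0`: `X (γ s0) = 0`, `X (γ s) ≥ 0` on `[s0,β]`. As long as
`f^[j] (γ s) ∈ N`, `0 ≤ X (f^[j] (γ s)) ≤ bp ≤ r/L`, `|Y| ≤ r`, `Box.dyn` gives the next point in `N` with `l X ≤ X' ≤ L X`, `|Y'| ≤ |Y|/l`. Let `P s` = `∀ j ≤ n, f^[j] (γ s) ∈ N ∧ 0 ≤ X (f^[j] (γ s)) ≤ bp ∧ |Y (f^[j] (γ s))| ≤ r`; `s1 = sup {s ∈ [s0,β] | ∀ s' ∈ [s0,s], P s'}` (`s0` is in the set as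
`X = 0` stays `0`). `P` is closed on `[s0,β]` from the left: `P s1` (for `j+1`: `f^[j+1] (γ s1) ∈ N` by `dyn` at `j`, then continuity of `X, Y` on `N`). `s1 < β`: otherwise `X (f^[n] (γ β)) ≥ l^n ρ > bp`. By maximality of `s1` there are `s ↓ s1` with `¬P s`; `X (f^[j] (γ s1)) < bp` for all `j ≤ n` would
give `P s` for `s ≥ s1` near `s1` (`N` open, `dyn` inductively for `Y` and `0 ≤ X`): so some `j ≤ n` has `X (f^[j] (γ s1)) = bp`, and `j = n` because `X (f^[j+1]) ≥ l X (f^[j]) > bp` otherwise. `β' = s1`; `α'` = last `s ∈ [s0,s1]` with `X (f^[n] (γ s)) ≤ bm`. -/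
def StPass : Prop := ∀ (lam : ℝ) (φ : ℂ → ℂ) (N : Set (ℝ × ℝ)) (X Y : ℝ × ℝ → ℝ) (r l L t0 : ℝ), Box lam φ N X Y r l L t0 →
  ∀ bm bp ρ : ℝ, 0 < bm → bm < bp → bp ≤ r / L → 0 < ρ → ∃ n0 : ℕ, 1 ≤ n0 ∧ ∀ n, n0 ≤ n → ∀ (γ : ℝ → ℝ × ℝ) (α β : ℝ),
    α ≤ β → ContinuousOn γ (Icc α β) → (∀ s ∈ Icc α β, γ s ∈ N ∧ |X (γ s)| ≤ bm ∧ |Y (γ s)| ≤ r) →
    ((X (γ α) ≤ 0 ∧ ρ ≤ X (γ β)) ∨ (ρ ≤ X (γ α) ∧ X (γ β) ≤ 0)) →
    ∃ α' β', α ≤ α' ∧ α' ≤ β' ∧ β' ≤ β ∧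
      (∀ s ∈ Icc α' β', (∀ j ≤ n, (ff lam)^[j] (γ s) ∈ N ∧ 0 ≤ X ((ff lam)^[j] (γ s)) ∧ X ((ff lam)^[j] (γ s)) ≤ bp ∧
        |Y ((ff lam)^[j] (γ s))| ≤ r / l ^ j) ∧ bm ≤ X ((ff lam)^[n] (γ s))) ∧
      ((X ((ff lam)^[n] (γ α')) = bm ∧ X ((ff lam)^[n] (γ β')) = bp) ∨
        (X ((ff lam)^[n] (γ α')) = bp ∧ X ((ff lam)^[n] (γ β')) = bm))

/-- MODULE Cov (100 lines; theorem hCov (h1 : StPass) : StCov). Covering relations for `ff`.
Proof. `n0` from StPass (for `bm, bp, ρ`), enlarged such that `r/l^n0 ≤ ε/2`; `m1 = m + n0`, `m2 = m + n0 + 1`, `ε' = ε/2`, `E = win N X Y (-(bp/l)) (bp/l) r`. For `Cross X D am ap γ α β`, `D = win N X Y am ap ε`, apply StPass to `G ∘ γ`, `G = ff^[m]` (hypotheses: `Rec.g`, `Rec.s`) with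
`n = n0` and `n = n0 + 1`. `ff^[n] (G z) = ff^[m+n] z` (`Function.iterate_add_apply`, order!). For `n = n0 + 1`: `l X (ff^[n0] (G (γ s))) ≤ X (ff^[n0+1] (G (γ s))) ≤ bp` by `Box.dyn`, and `|Y| ≤ r/l^n0 ≤ r`: the point is in `E`. -/
def StCov : Prop := ∀ (lam : ℝ) (φ : ℂ → ℂ) (N : Set (ℝ × ℝ)) (X Y : ℝ × ℝ → ℝ) (r l L t0 : ℝ) (m : ℕ) (am ap bm bp ε ρ : ℝ), 1 < lam →
  Box lam φ N X Y r l L t0 → Rec lam N X Y r l L m am ap bm bp ε ρ → ∃ m1 : ℕ, 1 ≤ m1 ∧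
    Covs (ff lam) X (win N X Y am ap ε) (win N X Y bm bp (ε / 2)) (win N X Y (-(bp / l)) (bp / l) r) am ap bm bp m1 (m1 + 1)

/-- MODULE Sub (60 lines). Elementary lemma on continuous functions.
Proof. First case: `α'` = last `s ∈ [α,β]` with `h s ≤ u` (so `h α' = u`, `h > u` after it), `β'` = first `s ∈ [α',β]` with `v ≤ h s`. Second case: apply the first to
`s ↦ h (α + β - s)`. (`IsCompact.exists_isGreatest`, `sSup`, intermediate value theorem.) -/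
def StSub : Prop := ∀ (h : ℝ → ℝ) (α β u v : ℝ), u < v → α ≤ β → ContinuousOn h (Icc α β) →
  ((h α ≤ u ∧ v ≤ h β) ∨ (v ≤ h α ∧ h β ≤ u)) → ∃ α' β', α ≤ α' ∧ α' ≤ β' ∧ β' ≤ β ∧
    (∀ s ∈ Icc α' β', u ≤ h s ∧ h s ≤ v) ∧ ((h α' = u ∧ h β' = v) ∨ (h α' = v ∧ h β' = u))

/-- MODULE Sta (200 lines; theorem hSta (h1 : StSub) : StSta). Stability of covering relations.
Proof. `D = win am ap ε`, `D' = win bm bp (ε/2)`, `E = win (-(bp/l)) (bp/l) r` are compact (closed parts of `Box.cpt`, by continuity of `X, Y` on that compact set), `D ∩ E = ∅` (`bp/l < bm < am`). (1) there is `μ1 > 0` such that `z ∈ D'`, `dist z z' ≤ μ1` imply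
`z' ∈ N`, `|X z' - X z| < min (am - bm) (bp - ap)`, `|Y z' - Y z| < ε/2` (compactness of `D'`, `N` open, continuity). (2) `E' = Metric.cthickening μ2 E` is compact and disjoint from `D` for small `μ2 > 0`. (3) `(b,c,z) ↦ (hen b c)^[j] z` is continuous, so (tube lemma / uniform continuity on compact sets) for some `δ > 0`:
`|b-1| < δ`, `|c - cc lam| < δ`, `z ∈ D`, `j ∈ {m1, m2}` imply `dist ((hen b c)^[j] z) ((ff lam)^[j] z) < min μ1 μ2`. (4) Given `Cross X D am ap γ α β` take `α', β'` from the hypothesis for `ff`, `γ' = (hen b c)^[m1] ∘ γ`: on `[α',β']` `γ' s ∈ N`, `|Y (γ' s)| ≤ ε`, and at the ends `X (γ') < am` resp. `> ap`. StSub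
(for `h = X ∘ γ'`, `u = am`, `v = ap`) gives the subinterval. The same for `m2`, and `(hen b c)^[m1] (γ s) ∈ E'`. -/
def StSta : Prop := ∀ (lam : ℝ) (φ : ℂ → ℂ) (N : Set (ℝ × ℝ)) (X Y : ℝ × ℝ → ℝ) (r l L t0 : ℝ) (am ap bm bp ε : ℝ) (m1 m2 : ℕ), 1 < lam →
  Box lam φ N X Y r l L t0 → 0 < bm → bm < am → am < ap → ap < bp → bp ≤ r / L → bp < l * bm → 0 < ε → ε ≤ r →
  Covs (ff lam) X (win N X Y am ap ε) (win N X Y bm bp (ε / 2)) (win N X Y (-(bp / l)) (bp / l) r) am ap bm bp m1 m2 →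
  ∃ (E' : Set (ℝ × ℝ)) (δ : ℝ), 0 < δ ∧ IsCompact E' ∧ IsCompact (win N X Y am ap ε) ∧ Disjoint (win N X Y am ap ε) E' ∧
    ∀ b c : ℝ, |b - 1| < δ → |c - cc lam| < δ →
      Covs (hen b c) X (win N X Y am ap ε) (win N X Y am ap ε) E' am ap am ap m1 m2

/-! ## Part 6: entropy -/

/-- MODULE Word (100 lines). Prescribed itineraries.
Proof. `T = m1 + m2`. By induction on `k`: there are `γ, α, β` with `Cross X D am ap (fun s => g^[k*T] (γ s)) α β`, and for all `s ∈ [α,β]`: `γ s ∈ D`, `g^[j*T] (γ s) ∈ D` for `j ≤ k`, `g^[j*T+m1] (γ s) ∈ if w j then D else E` for `j < k`. Step: apply `Covs` to the path `g^[k*T] ∘ γ`: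
if `w k = true` use first the `m1` part, then the `m2` part (to the path `g^[m1] ∘ g^[k*T] ∘ γ` on the subinterval); if `w k = false` first the `m2` part (points in `E` at time `m1`), then the `m1` part. `g^[m2] (g^[m1] z) = g^[m1+m2] z = g^[m1] (g^[m2] z)`. Finally `z = γ α`. -/
def StWord : Prop := ∀ (g : ℝ × ℝ → ℝ × ℝ) (X : ℝ × ℝ → ℝ) (D E : Set (ℝ × ℝ)) (am ap : ℝ) (m1 m2 : ℕ),
  Covs g X D D E am ap am ap m1 m2 → (∃ (γ : ℝ → ℝ × ℝ) (α β : ℝ), Cross X D am ap γ α β) →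
  ∀ (w : ℕ → Bool) (k : ℕ), ∃ z ∈ D, (∀ j ≤ k, g^[j * (m1 + m2)] z ∈ D) ∧
    ∀ j < k, g^[j * (m1 + m2) + m1] z ∈ (if w j = true then D else E)

/-- MODULE Bi (150 lines). Bounded full orbits with prescribed itineraries.
Proof. `g = hen b c`, `T = m1 + m2`, `h (x,y) = (y, (y² + c - x)/b)` the inverse. For `n : ℕ` apply the hypothesis to `w' j = w (j - n)` (truncated) and `k' = 2 n + k`: `z n`; `y n = g^[n*T] (z n)`: `g^[j*T] (y n) ∈ D` for `j ≤ n + k`, `h^[j*T] (y n) ∈ D` for `j ≤ n`, and `g^[j*T+m1] (y n) ∈ if w j then D else E` for `j < k`.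
Subsequence `y n → y ∈ D` (compact); by continuity of `g`, `h` and closedness `g^[j*T] y ∈ D`, `h^[j*T] y ∈ D` for all `j`, and the itinerary for `j < k`. `x n = (g^[n] y).1` for `n ≥ 0`, `(h^[-n] y).1` for `n < 0` is a full orbit (`Orb b c x`, `x 0 = y.1`, `x (-1) = y.2`); it is bounded because every point of the full orbit is in
`⋃_{i < T} g^[i] D` (compact). So `y ∈ KK b c`. -/
def StBi : Prop := ∀ (b c : ℝ) (D E : Set (ℝ × ℝ)) (m1 m2 : ℕ), b ≠ 0 → 1 ≤ m1 → IsCompact D → IsCompact E →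
  (∀ (w : ℕ → Bool) (k : ℕ), ∃ z ∈ D, (∀ j ≤ k, (hen b c)^[j * (m1 + m2)] z ∈ D) ∧
    ∀ j < k, (hen b c)^[j * (m1 + m2) + m1] z ∈ (if w j = true then D else E)) →
  ∀ (w : ℕ → Bool) (k : ℕ), ∃ z ∈ KK b c, ∀ j < k, (hen b c)^[j * (m1 + m2) + m1] z ∈ (if w j = true then D else E)

/-- MODULE Ent (120 lines). Positive entropy.
Proof. Disjoint compact sets: `e > 0` with `dist x y ≥ e` for `x ∈ D`, `y ∈ E` (if one is empty, e.g. `E = ∅`, the hypothesis with `w = false` fails for `k = 1`, so both are nonempty; anyway `e` exists). `U = {p | dist p.1 p.2 < e} ∈ 𝓤`. For every `k` the `2^k` words `w : Fin k → Bool` give points `z_w ∈ F`; if `w j ≠ w' j`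
then `(z_w, z_w') ∉ dynEntourage g U (k*T+1)` (time `j*T+m1 < k*T+1`, as `m1 ≤ T`; for `j ≤ k-1`). So these points form a net (`IsDynNetIn g F U (k*T+1)`), `netMaxcard g F U (k*T+1) ≥ 2^k`. Then `netEntropyEntourage g F U ≥ log 2/T > 0` (limsup along `n = k*T+1`), and
`coverEntropy g F = ⨆ U, netEntropyEntourage g F U` (`Dynamics.coverEntropy_eq_iSup_netEntropyEntourage`). Alternatively `coverMincard` directly. -/
def StEnt : Prop := ∀ (g : ℝ × ℝ → ℝ × ℝ) (F D E : Set (ℝ × ℝ)) (m1 T : ℕ), 1 ≤ T → m1 ≤ T → MapsTo g F F → IsCompact D → IsCompact E →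
  Disjoint D E → (∀ (w : ℕ → Bool) (k : ℕ), ∃ z ∈ F, ∀ j < k, g^[j * T + m1] z ∈ (if w j = true then D else E)) →
  0 < Dynamics.coverEntropy g F

/-- MODULE Nbd (60 lines; theorem hNbd (h1 : StPhi) (h2 : StFir) (h3 : StTra) (h4 : StBox) (h5 : StQ) (h6 : StRect) (h7 : StCov) (h8 : StSta) (h9 : StWord)
(h10 : StBi) (h11 : StEnt) (h12 : Helper85.HN.StKc) : StNbd). Assembly (`δ ≤ 1` so that `b ≠ 0`; `MapsTo` from `StKc`). -/
def StNbd : Prop := ∀ lam : ℝ, 1 < lam → ∃ δ > 0, ∀ b c : ℝ, |b - 1| < δ → |c - cc lam| < δ →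
  0 < Dynamics.coverEntropy (hen b c) (KK b c)

/-! ## Part 7: the frontier of `E0` near `(1,1)` -/

/-- MODULE FinA (30 lines; theorem hFinA (h1 : StNbd) : StFinA).
Proof: `p = 1 + √(1-c) > 1`, `lam = p + √(p²-1) > 1`, `pp lam = p` (`lam⁻¹ = p - √(p²-1)`), `cc lam = 1 - (p-1)² = c`. `E0` means `coverEntropy ≤ 0`. -/
def StFinA : Prop := ∀ c : ℝ, c < 1 → ∃ δ > 0, ∀ b' c' : ℝ, |b' - 1| < δ → |c' - c| < δ → (b', c') ∉ E0

/-- MODULE FinC (120 lines; theorem hFinC (h1 : StFinA) (h2 : Helper85.HN.StTop) : StFinC). Frontier points on both sides.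
Proof. Let `aH, δ` be the constants of `StTop`, `a = aH/2`, `η = exp (-(a/ε^(1/4)))`; for small `ε`: `η ≤ ε`, `η < δ` (`exp (-(a/ε^(1/4)))/ε → 0`). For `b = 1 ± η`, `c = 1 - ε`: `e = (1+b)²/4 - c = ε + (b-1) + (b-1)²/4`. For `b = 1 + η`: `0 < e ≤ 16 ε`, `e < δ`. For `b = 1 - η`: `e ≥ ε - η > 0` needs `η < ε`; `e ≤ 16 ε`. So
`exp (-(aH/e^(1/4))) ≤ exp (-(aH/(2 ε^(1/4)))) = η = |b - 1|` and `(b,c) ∈ E0`. `(1, 1-ε)` is not in the closure of `E0` (StFinA). The horizontal segment from `(1,1-ε)` to `(1 ± η, 1-ε)` is connected, meets `E0` and its complement, so it contains a frontier point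
(`IsPreconnected`/`isPreconnected_Icc` with `frontier`), which is not `(1,1-ε)` (interior of the complement). -/
def StFinC : Prop := ∃ a ε0 : ℝ, 0 < a ∧ 0 < ε0 ∧ ∀ ε ∈ Ioo 0 ε0, ∃ b1 b2 : ℝ, b1 < 1 ∧ 1 < b2 ∧
  (b1, 1 - ε) ∈ frontier E0 ∧ (b2, 1 - ε) ∈ frontier E0 ∧
  1 - b1 ≤ Real.exp (-(a / ε ^ (1 / 4 : ℝ))) ∧ b2 - 1 ≤ Real.exp (-(a / ε ^ (1 / 4 : ℝ)))

/-- Near `q` the set `S` lies on a `C¹` embedded curve through `q` (`γ` is `C¹` near `t`, `γ' t ≠ 0`, and small pieces of `γ` contain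
all points of `S` near `q`). -/
def C1At (S : Set (ℝ × ℝ)) (q : ℝ × ℝ) : Prop := ∃ (γ : ℝ → ℝ × ℝ) (t : ℝ), ContDiffAt ℝ 1 γ t ∧ deriv γ t ≠ 0 ∧ γ t = q ∧
  ∀ V ∈ 𝓝 t, ∃ U ∈ 𝓝 q, S ∩ U ⊆ γ '' V

/-- MODULE FinD (150 lines). A set with two exponentially close branches is not on a `C¹` curve.
Proof. Suppose `C1At S (1,1)` with `γ, t`. For `ε → 0` the points `P1 = (b1, 1-ε)`, `P2 = (b2, 1-ε)` of `S` tend to `(1,1)` (`exp (-(a/ε^(1/4))) ≤ ε` for small `ε`), so for every neighbourhood `V` of `t` they are `γ s1, γ s2` with `s1, s2 ∈ V` for small `ε`. (1) the second component of `deriv γ t` is not `0`: otherwise the first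
component `k` is not `0` and for `s` near `t` `|(γ s).2 - 1| ≤ |k|/4 |s - t|`, `|(γ s).1 - 1| ≥ |k|/2 |s - t|`, so `ε ≤ |b1 - 1|/2·...`: `ε = |(γ s1).2 - 1| ≤ (1/2) |(γ s1).1 - 1| = (1/2)(1 - b1) ≤ (1/2) exp (-(a/ε^(1/4)))`, false for small `ε`. (2) So `s ↦ (γ s).2` has nonzero derivative at `t` and is `C¹` near `t`, hence injective on
a neighbourhood `V` of `t`; `(γ s1).2 = 1 - ε = (γ s2).2` gives `s1 = s2`, so `b1 = b2`: contradiction. -/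
def StFinD : Prop := ∀ (S : Set (ℝ × ℝ)) (a ε0 : ℝ), 0 < a → 0 < ε0 → (∀ ε ∈ Ioo 0 ε0, ∃ b1 b2 : ℝ, b1 < 1 ∧ 1 < b2 ∧
  (b1, 1 - ε) ∈ S ∧ (b2, 1 - ε) ∈ S ∧ 1 - b1 ≤ Real.exp (-(a / ε ^ (1 / 4 : ℝ))) ∧ b2 - 1 ≤ Real.exp (-(a / ε ^ (1 / 4 : ℝ)))) →
  ¬C1At S (1, 1)

/-- MODULE Fin (40 lines; theorem hFin (h1 : StFinA) (h2 : StFinC) (h3 : StFinD) : StFin). Assembly; `(1,1) ∈ frontier E0` because the frontier is closed. -/
def StFin : Prop := (∀ c : ℝ, c < 1 → (1, c) ∈ interior E0ᶜ) ∧ (1, 1) ∈ frontier E0 ∧ StFinC ∧ ¬C1At (frontier E0) (1, 1)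

end Helper83.PE
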